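import Pool.Agent.Helper76.EX.Sgl

set_option autoImplicit false

/-!
# Choice of the parameters
-/

namespace Pool.Agent.Helper76.EX

open Complex Filter Topology Set MeasureTheory Metric
open scoped ComplexConjugate ContDiff
open Pool.Agent.V11271.LI (Zr zz mm)
open Pool.Agent.Helper76.LW (cf_zeta finite_zeta UC UC.scale)
open Pool.Agent.Helper76.EW (FF EE EE_near_one etc_tf)
open Pool.Agent.Helper61.W (LT TF LT_bound)

lemma ev_log (K : ℝ) (n : ℕ) : ∀ᶠ X : ℝ in atTop, K * Real.log X ^ n ≤ X := by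
  have h := (Real.isLittleO_pow_log_id_atTop (n := n)).bound (c := 1 / (|K| + 1)) (by positivity)
  filter_upwards [h, eventually_ge_atTop 1] with X hX hX1
  rw [Real.norm_eq_abs, Real.norm_eq_abs, id, abs_of_nonneg (by linarith : (0:ℝ) ≤ X)] at hX
  have h1 : 0 ≤ Real.log X ^ n := pow_nonneg (Real.log_nonneg hX1) _
  rw [abs_of_nonneg h1] at hX
  have hK : K ≤ |K| := le_abs_self K
  have hK0 : 0 ≤ |K| := abs_nonneg K
  calc K * Real.log X ^ n ≤ (|K| + 1) * Real.log X ^ n := by gcongr; linarith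
    _ ≤ (|K| + 1) * (1 / (|K| + 1) * X) := by gcongr
    _ = X := by field_simp

lemma ev_exp (K : ℝ) (n : ℕ) {a : ℝ} (ha : 0 < a) : ∀ᶠ X : ℝ in atTop, K * X ^ n ≤ Real.exp (a * X) := by
  have h := isLittleO_pow_exp_pos_mul_atTop n ha
  have h2 := h.bound (c := 1 / (|K| + 1)) (by positivity)
  filter_upwards [h2, eventually_ge_atTop 1] with X hX hX1
  rw [Real.norm_eq_abs, Real.norm_eq_abs, abs_of_pos (Real.exp_pos _), abs_of_nonneg (by positivity)] at hX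
  have hK : K ≤ |K| := le_abs_self K
  have hK0 : 0 ≤ |K| := abs_nonneg K
  have hXn : 0 ≤ X ^ n := by positivity
  calc K * X ^ n ≤ (|K| + 1) * X ^ n := by gcongr; linarith
    _ ≤ (|K| + 1) * (1 / (|K| + 1) * Real.exp (a * X)) := by gcongr
    _ = _ := by field_simp

lemma EE_decay : ∃ C : ℝ, 1 ≤ C ∧ ∀ (T : ℝ), 1 ≤ T → ∀ z : ℂ, |z.re| ≤ 1 / 2 → ‖EE (z / T)‖ ≤ C * T / (1 + |z.im|) := by
  obtain ⟨C, hC0, hC⟩ := LT_bound etc_tf 1
  refine ⟨2 * C + 1, by linarith, fun T hT z hz => ?_⟩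
  have hT0 : 0 < T := by linarith
  have hre : |(z / (T : ℂ)).re| ≤ 1 := by
    have : (z / (T : ℂ)).re = z.re / T := by simp
    rw [this, abs_div, abs_of_pos hT0, div_le_iff₀ hT0]
    linarith
  have him : (z / (T : ℂ)).im = z.im / T := by simp
  have h1 := hC (z / T) hre
  rw [him] at h1
  refine h1.trans ?_
  set y : ℝ := |z.im| with hy
  have hy0 : 0 ≤ y := abs_nonneg _
  have e1 : (z.im / T) ^ 2 = (y / T) ^ 2 := by
    rw [div_pow, div_pow, hy, sq_abs]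
  rw [e1, div_le_div_iff₀ (by positivity) (by positivity)]
  have h2 : 1 + y ≤ 2 * T * (1 + (y / T) ^ 2) ^ 2 := by
    have h3 : 1 + (y / T) ^ 2 ≤ (1 + (y / T) ^ 2) ^ 2 := by nlinarith [sq_nonneg (y / T)]
    have h4 : 1 + y / T ≤ 2 * (1 + (y / T) ^ 2) := by nlinarith [sq_nonneg (y / T - 1 / 2), sq_nonneg (y / T)]
    have h5 : 1 + y ≤ T * (1 + y / T) := by
      have : T * (1 + y / T) = T + y := by field_simp
      linarith
    calc 1 + y ≤ T * (1 + y / T) := h5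
      _ ≤ T * (2 * (1 + (y / T) ^ 2)) := by gcongr
      _ ≤ T * (2 * (1 + (y / T) ^ 2) ^ 2) := by gcongr
      _ = _ := by ring
  calc C * (1 + y) ≤ C * (2 * T * (1 + (y / T) ^ 2) ^ 2) := by gcongr
    _ = (2 * C) * T * (1 + (y / T) ^ 2) ^ 2 := by ring
    _ ≤ (2 * C + 1) * T * (1 + (y / T) ^ 2) ^ 2 := by gcongr; linarith

/-- the scale of the clusters -/
noncomputable def E0 (δ X : ℝ) : ℝ := Real.exp (-(δ * X / Real.log X)) / 4

lemma E0_pos (δ X : ℝ) : 0 < E0 δ X := by unfold E0; positivity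

lemma tau_arith {δ0 κ δ X c CE h n E D : ℝ} (hX : 16 ≤ X) (hδ0 : 0 < δ0) (hκ0 : 0 < κ) (hκ1 : κ < 1) (hc0 : 0 < c)
    (hCE : 1 ≤ CE) (hδ : 0 < δ) (hδ16 : δ ≤ δ0 * κ / 16)
    (x3 : 4 * CE * (2 * c + 5) * X ^ 4 ≤ Real.exp (δ0 * κ / 4 * X)) (hh : 0 < h) (hrep : 1 / h ≤ Real.exp (δ * X))
    (hn : n ≤ 1 + c * X) (hn0 : 0 ≤ n) (hD : 0 < D) (hE : E ≤ CE * X ^ 2 / D) (hE0 : 0 ≤ E) :
    2 * (Real.exp (-(δ0 * (κ * X) / 2)) * (1 + (2 * n + 2) / h) * Real.exp (δ0 / 8 * (κ * X))) * (κ * X) * E ≤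
      Real.exp (-(δ * X)) / D := by
  have hX0 : 0 < X := by linarith
  have h3 : 1 ≤ Real.exp (δ * X) := Real.one_le_exp (by positivity)
  have hfac : 1 + (2 * n + 2) / h ≤ (2 * c + 5) * X * Real.exp (δ * X) := by
    calc 1 + (2 * n + 2) / h = 1 + (2 * n + 2) * (1 / h) := by ring
      _ ≤ 1 * Real.exp (δ * X) + (2 * (1 + c * X) + 2) * Real.exp (δ * X) := by
          gcongr
          linarith
      _ = (5 + 2 * c * X) * Real.exp (δ * X) := by ring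
      _ ≤ _ := by
          gcongr
          nlinarith
  have hYX : κ * X ≤ X := by nlinarith
  have e1 : Real.exp (-(δ0 * (κ * X) / 2)) * Real.exp (δ * X) * Real.exp (δ0 / 8 * (κ * X)) ≤
      Real.exp (-(δ0 * κ / 4 * X)) * Real.exp (-(δ * X)) := by
    rw [← Real.exp_add, ← Real.exp_add, ← Real.exp_add]
    apply Real.exp_le_exp.mpr
    have h5 := mul_le_mul_of_nonneg_right hδ16 hX0.le
    nlinarith [mul_pos hδ0 (mul_pos hκ0 hX0)]
  calc 2 * (Real.exp (-(δ0 * (κ * X) / 2)) * (1 + (2 * n + 2) / h) * Real.exp (δ0 / 8 * (κ * X))) * (κ * X) * E ≤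
        2 * (Real.exp (-(δ0 * (κ * X) / 2)) * ((2 * c + 5) * X * Real.exp (δ * X)) * Real.exp (δ0 / 8 * (κ * X))) *
          X * (CE * X ^ 2 / D) := by
        gcongr
    _ = (2 * CE * (2 * c + 5) * X ^ 4) *
          (Real.exp (-(δ0 * (κ * X) / 2)) * Real.exp (δ * X) * Real.exp (δ0 / 8 * (κ * X))) / D := by
        ring
    _ ≤ Real.exp (δ0 * κ / 4 * X) * (Real.exp (-(δ0 * κ / 4 * X)) * Real.exp (-(δ * X))) / D := by
        have h6 : 2 * CE * (2 * c + 5) * X ^ 4 ≤ Real.exp (δ0 * κ / 4 * X) := by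
          refine le_trans ?_ x3
          have : 0 ≤ CE * (2 * c + 5) * X ^ 4 := by positivity
          linarith
        gcongr
    _ = Real.exp (-(δ * X)) / D := by
        rw [← mul_assoc, ← Real.exp_add, add_neg_cancel, Real.exp_zero, one_mul]

lemma par_log {X c t : ℝ} (hX : 16 ≤ X) (hc3 : 16 * (c + 3) ≤ X) (ht : t ≤ c * X) (ht0 : 0 ≤ t) :
    Real.log (3 + t) ≤ 2 * Real.log X := by
  have hX0 : 0 < X := by linarith
  have h2 : 3 + t ≤ X ^ 2 := by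
    calc 3 + t ≤ 3 + c * X := by linarith
      _ ≤ (c + 3) * X := by linarith
      _ ≤ X * X := by
          have : c + 3 ≤ X := by linarith
          gcongr
      _ = X ^ 2 := by ring
  calc Real.log (3 + t) ≤ Real.log (X ^ 2) := Real.log_le_log (by linarith) h2
    _ = 2 * Real.log X := by rw [Real.log_pow]; norm_num

lemma par_logT {X c : ℝ} (hc0 : 0 < c) (hX : 16 ≤ X) (hc3 : 16 * (c + 3) ≤ X) :
    Real.log ((c + 2) * X) ≤ 2 * Real.log X := by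
  have hX0 : 0 < X := by linarith
  have h2 : (c + 2) * X ≤ X ^ 2 := by
    calc (c + 2) * X ≤ X * X := by
          have : c + 2 ≤ X := by linarith
          gcongr
      _ = X ^ 2 := by ring
  calc Real.log ((c + 2) * X) ≤ Real.log (X ^ 2) := Real.log_le_log (by positivity) h2
    _ = 2 * Real.log X := by rw [Real.log_pow]; norm_num

lemma par_ro {δ X B1 LT' K1 : ℝ} {k : ℕ} (hX : 16 ≤ X) (hL1 : 1 ≤ Real.log X) (hB1 : 0 < B1)
    (hk : (k : ℝ) ≤ 4 * (B1 * LT')) (hLT : LT' ≤ 2 * Real.log X) (hK1 : K1 = 24 * B1 + 6) :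
    Real.log (1 / (((X ^ 3)⁻¹) ^ k * (E0 δ X / 2))) ≤
      K1 * Real.log X ^ 2 + δ * X / Real.log X - 1 - 2 := by
  have hX0 : 0 < X := by linarith
  have hE0 := E0_pos δ X
  have e1 : Real.log (1 / (((X ^ 3)⁻¹) ^ k * (E0 δ X / 2))) =
      k * (3 * Real.log X) + (Real.log 8 + δ * X / Real.log X) := by
    rw [one_div, Real.log_inv, Real.log_mul (by positivity) (by positivity), Real.log_pow, Real.log_inv,
      Real.log_pow]
    have : Real.log (E0 δ X / 2) = -(δ * X / Real.log X) - Real.log 8 := by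
      unfold E0
      rw [show Real.exp (-(δ * X / Real.log X)) / 4 / 2 = Real.exp (-(δ * X / Real.log X)) / 8 by ring,
        Real.log_div (Real.exp_pos _).ne' (by norm_num), Real.log_exp]
    rw [this]
    push_cast
    ring
  have hk2 : (k : ℝ) ≤ 8 * B1 * Real.log X := by
    calc (k : ℝ) ≤ 4 * (B1 * LT') := hk
      _ ≤ 4 * (B1 * (2 * Real.log X)) := by gcongr
      _ = _ := by ring
  have hl8 : Real.log 8 ≤ 3 := by
    have : (8 : ℝ) = 2 ^ 3 := by norm_num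
    rw [this, Real.log_pow]
    have := Real.log_two_lt_d9
    push_cast
    linarith
  rw [e1, hK1]
  have h3 : (k : ℝ) * (3 * Real.log X) ≤ (8 * B1 * Real.log X) * (3 * Real.log X) := by gcongr
  have h4 : 1 ≤ Real.log X ^ 2 := one_le_pow₀ hL1
  have h5 : (8 * B1 * Real.log X) * (3 * Real.log X) = 24 * B1 * Real.log X ^ 2 := by ring
  rw [h5] at h3
  have h6 : (24 * B1 + 6) * Real.log X ^ 2 = 24 * B1 * Real.log X ^ 2 + 6 * Real.log X ^ 2 := by ring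
  rw [h6]
  linarith

lemma par_V {A δ δ0 κ X K1 Lx l r : ℝ} (hA : 1 ≤ A) (hδ0 : 0 < δ0) (hκ0 : 0 < κ) (hX : 0 < X) (hL1 : 1 ≤ Lx)
    (hδA : A * δ ≤ δ0 * κ / 16) (hl : l ≤ 2 * Lx) (hr : 1 + r ≤ K1 * Lx ^ 2 + δ * X / Lx) (hr0 : 0 ≤ r)
    (x1 : 8 * A * K1 / (δ0 * κ) * Lx ^ 3 ≤ X) : A * l * (1 + r) ≤ δ0 * (κ * X) / 2 := by
  have hL3 : Lx * (K1 * Lx ^ 2 + δ * X / Lx) = K1 * Lx ^ 3 + δ * X := by
    field_simp
  have h4 : 2 * A * K1 * Lx ^ 3 ≤ δ0 * κ / 4 * X := by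
    have h5 : 8 * A * K1 / (δ0 * κ) * Lx ^ 3 = 2 * A * K1 * Lx ^ 3 / (δ0 * κ / 4) := by
      field_simp
      ring
    rw [h5, div_le_iff₀ (by positivity)] at x1
    linarith
  have h6 : A * δ * X ≤ δ0 * κ / 16 * X := by gcongr
  have h7 : 0 < δ0 * κ * X := by positivity
  calc A * l * (1 + r) ≤ A * (2 * Lx) * (K1 * Lx ^ 2 + δ * X / Lx) := by gcongr
    _ = 2 * A * (Lx * (K1 * Lx ^ 2 + δ * X / Lx)) := by ring
    _ = 2 * A * K1 * Lx ^ 3 + 2 * (A * δ * X) := by rw [hL3]; ring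
    _ ≤ δ0 * κ / 4 * X + 2 * (δ0 * κ / 16 * X) := by linarith
    _ ≤ δ0 * (κ * X) / 2 := by linarith

lemma par_Mu {b δ X K1 Lx ro C Y c n : ℝ} (hb : 1 ≤ b) (hX : 16 ≤ X) (hL1 : 1 ≤ Lx) (hro : 0 < ro) (hC : 1 ≤ C)
    (hδb : b * δ ≤ 1 / 4) (hlogro : Real.log (1 / ro) ≤ K1 * Lx ^ 2 + δ * X / Lx - 1 - 2)
    (x2 : 4 * b * K1 * Lx ^ 3 ≤ X) (x8 : Real.log (4 * C) ≤ X) (hY : Y ≤ X) (hY0 : 0 ≤ Y) (hn : n ≤ 1 + c * X) :
    C * Real.exp (2 * b * Lx * Real.log (1 / (ro / 4))) * (4 * Real.exp (2 * Real.pi * Y + (n + 1))) ≤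
      Real.exp ((20 + c) * X) := by
  have hL3 : Lx * (K1 * Lx ^ 2 + δ * X / Lx) = K1 * Lx ^ 3 + δ * X := by
    field_simp
  have e1 : C * Real.exp (2 * b * Lx * Real.log (1 / (ro / 4))) * (4 * Real.exp (2 * Real.pi * Y + (n + 1))) =
      Real.exp (Real.log (4 * C) + 2 * b * Lx * Real.log (1 / (ro / 4)) + (2 * Real.pi * Y + (n + 1))) := by
    rw [Real.exp_add (Real.log (4 * C) + _), Real.exp_add (Real.log (4 * C)), Real.exp_log (by positivity)]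
    ring
  rw [e1]
  apply Real.exp_le_exp.mpr
  have e2 : Real.log (1 / (ro / 4)) = Real.log (1 / ro) + Real.log 4 := by
    rw [show 1 / (ro / 4) = 1 / ro * 4 by field_simp, Real.log_mul (by positivity) (by norm_num)]
  have hl4 : Real.log 4 ≤ 2 := by
    have : (4 : ℝ) = 2 ^ 2 := by norm_num
    rw [this, Real.log_pow]
    have := Real.log_two_lt_d9
    push_cast
    linarith
  have h2 : 2 * b * Lx * Real.log (1 / (ro / 4)) ≤ X := by
    have h3 : Real.log (1 / (ro / 4)) ≤ K1 * Lx ^ 2 + δ * X / Lx := by rw [e2]; linarith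
    calc 2 * b * Lx * Real.log (1 / (ro / 4)) ≤ 2 * b * Lx * (K1 * Lx ^ 2 + δ * X / Lx) := by gcongr
      _ = 2 * b * (Lx * (K1 * Lx ^ 2 + δ * X / Lx)) := by ring
      _ = (4 * b * K1 * Lx ^ 3) / 2 + 2 * (b * δ) * X := by rw [hL3]; ring
      _ ≤ X / 2 + 2 * (1 / 4) * X := by gcongr
      _ = X := by ring
  have h3 : 2 * Real.pi * Y ≤ 7 * X := by
    have h5 : 2 * Real.pi ≤ 7 := by
      have := Real.pi_lt_d2
      linarith
    calc 2 * Real.pi * Y ≤ 7 * Y := by gcongr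
      _ ≤ 7 * X := by linarith
  have h6 : (20 + c) * X = 20 * X + c * X := by ring
  rw [h6]
  linarith

lemma par_eta {X c : ℝ} (hX : 16 ≤ X) (x5 : 1024 * (20 + c) ≤ X) : 16 * ((20 + c) * X) * (X ^ 3)⁻¹ ≤ 1 / 64 := by
  have hX0 : 0 < X := by linarith
  have e1 : 16 * ((20 + c) * X) * (X ^ 3)⁻¹ = 16 * (20 + c) / X ^ 2 := by
    field_simp
  rw [e1, div_le_div_iff₀ (by positivity) (by norm_num)]
  have : X ≤ X ^ 2 := le_self_pow₀ (by linarith) (by norm_num)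
  linarith

lemma par_supp {X κ : ℝ} (hκ0 : 0 < κ) (hκ1 : κ < 1) (hX : 16 ≤ X) (x6 : 1 / (-Real.log κ) ≤ X) :
    Real.log (κ * X) / 2 + 1 / 4 / X ^ 2 ≤ Real.log X / 2 := by
  have hX0 : 0 < X := by linarith
  have hlκ : Real.log κ < 0 := Real.log_neg hκ0 hκ1
  rw [Real.log_mul hκ0.ne' hX0.ne']
  have h3 : 1 / X ≤ -Real.log κ := by
    rw [div_le_iff₀ (by linarith)] at x6
    rw [div_le_iff₀ hX0]
    linarith
  have h4 : 1 / 4 / X ^ 2 ≤ 1 / X / 2 := by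
    rw [div_div, div_div, div_le_div_iff₀ (by positivity) (by positivity)]
    nlinarith
  linarith

lemma par_rep {δ X h : ℝ} (hδ : 0 < δ) (hX : 16 ≤ X) (hL1 : 1 ≤ Real.log X) (hh : 4 * E0 δ X ≤ h) :
    1 / h ≤ Real.exp (δ * X) := by
  have hX0 : 0 < X := by linarith
  have h3 : Real.exp (-(δ * X)) ≤ h := by
    refine le_trans ?_ hh
    unfold E0
    have : Real.exp (-(δ * X)) ≤ Real.exp (-(δ * X / Real.log X)) := by
      apply Real.exp_le_exp.mpr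
      rw [neg_le_neg_iff]
      exact div_le_self (by positivity) hL1
    linarith
  have hp2' : 0 < h := lt_of_lt_of_le (Real.exp_pos _) h3
  rw [div_le_iff₀ hp2']
  calc (1 : ℝ) = Real.exp (δ * X) * Real.exp (-(δ * X)) := by rw [← Real.exp_add]; simp
    _ ≤ _ := by gcongr

lemma par_E01 {δ X : ℝ} (hδ : 0 < δ) (hX : 16 ≤ X) (hL1 : 1 ≤ Real.log X) : E0 δ X ≤ 1 / 4 := by
  unfold E0
  have hX0 : 0 < X := by linarith
  have : Real.exp (-(δ * X / Real.log X)) ≤ 1 := by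
    rw [Real.exp_le_one_iff, neg_nonpos]
    positivity
  linarith

lemma par_misc {X c : ℝ} (hX : 16 ≤ X) (hc0 : 0 < c) (hc3 : 16 * (c + 3) ≤ X) {n : ℝ} (hn : n ≤ 1 + c * X) :
    2 ≤ (c + 2) * X ∧ (X ^ 3)⁻¹ ≤ 1 / 4 ∧ 16 * (n + 1) ≤ X ^ 2 ∧ c * X ≤ (c + 2) * X ∧ 1 ≤ X ^ 2 := by
  have hX0 : 0 < X := by linarith
  have h1 : X ≤ X ^ 3 := le_self_pow₀ (by linarith) (by norm_num)
  have h2 : X ≤ X ^ 2 := le_self_pow₀ (by linarith) (by norm_num)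
  have h3 : c * X + 2 * X = (c + 2) * X := by ring
  refine ⟨?_, ?_, ?_, by linarith, by linarith⟩
  · have : 0 < c * X := by positivity
    linarith
  · rw [inv_le_comm₀ (by positivity) (by norm_num)]
    linarith
  · calc 16 * (n + 1) ≤ 16 * (2 + c * X) := by linarith
      _ ≤ (16 * (c + 3)) * X := by linarith
      _ ≤ X * X := by gcongr
      _ = X ^ 2 := by ring

/-- the test function of one zero off the line, with all parameters chosen -/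
theorem single3 {c : ℝ} (hc0 : 0 < c) (hc : c < 4 * Real.pi) : ∃ δ X0 : ℝ, 0 < δ ∧ δ ≤ 1 ∧ 3 ≤ X0 ∧
    ∀ X : ℝ, X0 ≤ X → ∀ p0 : Zr, |(zz p0).im| ≤ c * X → 4 * E0 δ X ≤ (zz p0).re →
    ∃ (g : ℝ → ℂ) (F τ : ℂ → ℂ) (ro : ℝ), TF g ∧
      (∀ x, x ∉ Icc (-(Real.log X / 2)) (Real.log X / 2) → g x = 0) ∧ 0 < ro ∧ ro ≤ E0 δ X ∧
      (∀ z : ℂ, |z.re| ≤ 1 / 2 → LT g z = F z + τ z) ∧
      (FF F (zz p0)).re ≤ -(1 / 2) ∧
      (∀ ρ : Zr, ‖zz ρ - zz p0‖ ≤ ro → (FF F (zz ρ)).re ≤ 0 ∧ ‖F (zz ρ)‖ ≤ 2 ∧ ‖F (-conj (zz ρ))‖ ≤ 2) ∧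
      (∀ ρ : Zr, ro < ‖zz ρ - zz p0‖ → ro < ‖zz ρ - (-conj (zz p0))‖ → F (zz ρ) = 0) ∧
      ∀ z : ℂ, |z.re| ≤ 1 / 2 → ‖τ z‖ ≤ Real.exp (-(δ * X)) / (1 + |z.im|) := by
  have hpi := Real.pi_pos
  -- the ratio of the two lengths
  obtain ⟨κ, hκ0, hκ1, hc'⟩ : ∃ κ : ℝ, 0 < κ ∧ κ < 1 ∧ c / κ < 4 * Real.pi := by
    have hc4 : c / (4 * Real.pi) < 1 := by rw [div_lt_one (by positivity)]; exact hc
    have hc40 : 0 < c / (4 * Real.pi) := by positivity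
    refine ⟨(1 + c / (4 * Real.pi)) / 2, by linarith, by linarith, ?_⟩
    rw [div_lt_iff₀ (by linarith)]
    have hκc : c / (4 * Real.pi) < (1 + c / (4 * Real.pi)) / 2 := by linarith
    rw [div_lt_iff₀ (by positivity)] at hκc
    linarith
  obtain ⟨δ0, θ1, hδ0, hθ1, hθ1', hM⟩ := Mk_low (c := c / κ) (by positivity) hc'
  obtain ⟨θ2, hθ2, hθ2', hG⟩ := Gk_tail (ε := δ0 / 8) (by positivity)
  obtain ⟨θ0, hθ0⟩ : ∃ θ0, θ0 = max θ1 θ2 := ⟨_, rfl⟩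
  have h0 : 0 < θ0 := by rw [hθ0]; exact lt_of_lt_of_le hθ1 (le_max_left _ _)
  have h1 : θ0 < Real.pi / 2 := by rw [hθ0]; exact max_lt hθ1' hθ2'
  obtain ⟨Ya, hYa, hMa⟩ := hM θ0 (by rw [hθ0]; exact le_max_left _ _) h1.le
  obtain ⟨Yb, hYb, hGb⟩ := hG θ0 (by rw [hθ0]; exact le_max_right _ _) h1
  clear hM hG hθ0 hθ1 hθ1' hθ2 hθ2' hc'
  obtain ⟨A, hA1, hA⟩ := local_lower
  obtain ⟨b, hb1, hb⟩ := wcount
  obtain ⟨C, hC1, hC⟩ := Xi0_bound
  obtain ⟨B1, hB1, hB⟩ := cf_zeta.unit_count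
  obtain ⟨CE, hCE1, hCE⟩ := EE_decay
  -- the exponent
  obtain ⟨δ, hδpos, hδ1, hδA, hδb, hδ16⟩ : ∃ δ : ℝ, 0 < δ ∧ δ ≤ 1 ∧ A * δ ≤ δ0 * κ / 16 ∧ b * δ ≤ 1 / 4 ∧
      δ ≤ δ0 * κ / 16 := by
    have g0 : 0 < min (min 1 (δ0 * κ / (16 * A))) (1 / (4 * b)) := by positivity
    have g1 : A * min (min 1 (δ0 * κ / (16 * A))) (1 / (4 * b)) ≤ δ0 * κ / 16 := by
      have : min (min 1 (δ0 * κ / (16 * A))) (1 / (4 * b)) ≤ δ0 * κ / (16 * A) :=
        (min_le_left _ _).trans (min_le_right _ _)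
      rw [le_div_iff₀ (by positivity)] at this
      linarith
    refine ⟨min (min 1 (δ0 * κ / (16 * A))) (1 / (4 * b)), g0, (min_le_left _ _).trans (min_le_left _ _), g1, ?_, ?_⟩
    · have : min (min 1 (δ0 * κ / (16 * A))) (1 / (4 * b)) ≤ 1 / (4 * b) := min_le_right _ _
      rw [le_div_iff₀ (by positivity)] at this
      linarith
    · refine le_trans ?_ g1
      exact le_mul_of_one_le_left g0.le hA1
  obtain ⟨K1, hK1⟩ : ∃ K1, K1 = 24 * B1 + 6 := ⟨_, rfl⟩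
  -- eventual inequalities
  have hev : ∀ᶠ X : ℝ in atTop,
      (8 * A * K1 / (δ0 * κ) * Real.log X ^ 3 ≤ X) ∧ (4 * b * K1 * Real.log X ^ 3 ≤ X) ∧
      (4 * CE * (2 * c + 5) * X ^ 4 ≤ Real.exp (δ0 * κ / 4 * X)) ∧
      (max (Ya / κ) (Yb / κ) ≤ X) ∧ (1024 * (20 + c) ≤ X) ∧ (1 / (-Real.log κ) ≤ X) ∧
      (1 / κ ≤ X) ∧ (Real.log (4 * C) ≤ X) ∧ 16 * (c + 3) ≤ X := by
    refine (ev_log _ 3).and ((ev_log _ 3).and ((ev_exp _ 4 (by positivity)).and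
      ((eventually_ge_atTop _).and ((eventually_ge_atTop _).and ((eventually_ge_atTop _).and
      ((eventually_ge_atTop _).and ((eventually_ge_atTop _).and (eventually_ge_atTop _))))))))
  obtain ⟨X1, hX1⟩ := eventually_atTop.mp hev
  refine ⟨δ, max X1 16, hδpos, hδ1, le_trans (by norm_num) (le_max_right _ _), fun X hX p0 hp1 hp2 => ?_⟩
  obtain ⟨x1, x2, x3, x4, x5, x6, x7, x8, x9⟩ := hX1 X ((le_max_left _ _).trans hX)
  have hX16 : 16 ≤ X := (le_max_right _ _).trans hX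
  clear hX1 hev hX
  have hX0 : 0 < X := by linarith
  have hL1 : 1 ≤ Real.log X := by
    rw [Real.le_log_iff_exp_le hX0]
    have := Real.exp_one_lt_d9
    linarith
  have hYa' : Ya ≤ κ * X := by
    have := (le_max_left _ _).trans x4
    rw [div_le_iff₀ hκ0] at this
    linarith
  have hYb' : Yb ≤ κ * X := by
    have := (le_max_right _ _).trans x4
    rw [div_le_iff₀ hκ0] at this
    linarith
  have hY1 : 1 ≤ κ * X := hYa.trans hYa'
  have hcY : c / κ * (κ * X) = c * X := by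
    field_simp
  have hpre : |(zz p0).re| < 1 / 2 := cf_zeta.re_lt p0
  have hpn : ‖zz p0‖ ≤ 1 + c * X := by
    have h2 := Complex.norm_le_abs_re_add_abs_im (zz p0)
    linarith
  have hlogc := par_log hX16 x9 hp1 (abs_nonneg _)
  have hlogT := par_logT hc0 hX16 x9
  obtain ⟨hT2, hη4, hTs, hcT, hX21⟩ := par_misc hX16 hc0 x9 hpn
  -- the gap
  have huc : UC zz ((c + 2) * X) (B1 * Real.log ((c + 2) * X)) := fun a S hS => hB _ hT2 a S hS
  have hE0 : 0 < E0 δ X := E0_pos δ X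
  have hE01 := par_E01 hδpos hX16 hL1
  have hη1 : (X ^ 3)⁻¹ ≤ 1 := by linarith
  have hη0 : 0 < (X ^ 3)⁻¹ := by positivity
  obtain ⟨k, hk, hgap⟩ := huc.scale hT2 (zz p0) (hp1.trans hcT) (h' := E0 δ X / 2) (by positivity) (by linarith)
    (η := (X ^ 3)⁻¹) hη0 hη1 (finite_zeta (16 * ((c + 2) * X)) (by positivity))
  have hlogro := par_ro (δ := δ) hX16 hL1 hB1 hk hlogT hK1
  obtain ⟨ro, hro⟩ : ∃ ro : ℝ, ro = ((X ^ 3)⁻¹) ^ k * (E0 δ X / 2) := ⟨_, rfl⟩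
  have hro0 : 0 < ro := by rw [hro]; positivity
  have hroE : ro ≤ E0 δ X / 2 := by
    rw [hro]
    exact mul_le_of_le_one_left (by positivity) (pow_le_one₀ hη0.le hη1)
  have hgap' : ∀ ρ, ‖zz ρ - zz p0‖ ≤ ro → ‖zz ρ - zz p0‖ ≤ (X ^ 3)⁻¹ * ro := by
    intro ρ hρ
    rw [hro] at hρ ⊢
    have := hgap ρ hρ
    rw [← mul_assoc, ← pow_succ']
    exact this
  rw [← hro] at hlogro
  clear hgap huc hk hro
  have hlogro0 : 0 ≤ Real.log (1 / ro) := Real.log_nonneg (by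
    rw [le_div_iff₀ hro0]
    linarith)
  -- lower bound
  have hVbound := par_V hA1 hδ0 hκ0 hX0 hL1 hδA hlogc (by linarith) hlogro0 x1
  have hlow : ∀ (Γ : Finset Zr) (B : ℂ → ℂ), Differentiable ℂ B → (∀ z, Xi0 z = PG Γ z * B z) →
      (∀ ρ ∈ Γ, ‖zz ρ - zz p0‖ ≤ 2) → (∀ ρ, ρ ∉ Γ → ro ≤ ‖zz ρ - zz p0‖) →
      Real.exp (δ0 * (κ * X) / 2) ≤ ‖B (zz p0)‖ * ‖Mk (κ * X) θ0 (zz p0)‖ := by
    intro Γ B hBd hBf h2 h3
    have h4 := hA (zz p0) Γ B ro (by linarith) (abs_lt.mp hpre).2.le hro0 (by linarith) hBd hBf h2 h3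
    have h5 := hMa (κ * X) hYa' (zz p0) (by linarith) (by rw [hcY]; exact hp1)
    calc Real.exp (δ0 * (κ * X) / 2) ≤
          Real.exp (-(A * Real.log (3 + |(zz p0).im|) * (1 + Real.log (1 / ro))) - Real.pi * |(zz p0).im| / 4) *
            Real.exp (δ0 * (κ * X) + Real.pi * |(zz p0).im| / 4) := by
          rw [← Real.exp_add]
          apply Real.exp_le_exp.mpr
          linarith
      _ ≤ _ := by gcongr
  -- counting
  have hN : ∀ Γ : Finset Zr, (∀ ρ ∈ Γ, |(zz ρ).im - (zz p0).im| ≤ 1) → ∑ ρ ∈ Γ, mm ρ ≤ 2 * b * Real.log X := by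
    intro Γ hΓ
    refine (hb (zz p0).im Γ hΓ).trans ?_
    calc b * Real.log (3 + |(zz p0).im|) ≤ b * (2 * Real.log X) := by gcongr
      _ = _ := by ring
  have hYX : κ * X ≤ X := mul_le_of_le_one_left hX0.le hκ1.le
  have hMu := par_Mu hb1 hX16 hL1 hro0 hC1 hδb hlogro x2 x8 hYX (by linarith) hpn
  have hη2 := par_eta hX16 x5
  obtain ⟨g, F, τ, g1, g2, g3, g4, g5, g6, g7⟩ := single2 (Y := κ * X) (θ0 := θ0) (ε := δ0 / 8) (Ts := X ^ 2)
    (η := (X ^ 3)⁻¹) (ro := ro) (N := 2 * b * Real.log X) (V := δ0 * (κ * X) / 2) (Mu := (20 + c) * X) (C := C) p0 h0 h1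
    hY1 (fun x hx => hGb (κ * X) hYb' x hx) hro0 (by linarith) hη0 hη4 hgap' hN (by positivity) hlow hC (by linarith)
    (by positivity) hMu hη2 hTs
  have hsupp := par_supp hκ0 hκ1 hX16 x6
  refine ⟨g, F, τ, ro, g1, fun x hx => g2 x fun hx2 => hx ?_, hro0, by linarith, g3, g4, g5, g6, fun z hz => ?_⟩
  · constructor
    · linarith [hx2.1]
    · linarith [hx2.2]
  · -- the error
    refine (g7 z hz).trans ?_
    have h2 := hCE (X ^ 2) hX21 z hz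
    exact tau_arith hX16 hδ0 hκ0 hκ1 hc0 hCE1 hδpos hδ16 x3 (by linarith) (par_rep hδpos hX16 hL1 hp2) hpn
      (norm_nonneg _) (by positivity) h2 (norm_nonneg _)

end Pool.Agent.Helper76.EX
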