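import Pool.Agent.Helper76.EX.Par
import Pool.Agent.Helper68.EX.M2
import Pool.Agent.Helper76.EW.PartA

set_option autoImplicit false

/-!
# Separated zeros off the line up to height `c X`, `c < 4 π`, give negative squares
-/

namespace Pool.Agent.Helper76.EX

open Complex Filter Topology Set MeasureTheory Metric
open scoped ComplexConjugate ContDiff
open Pool.Agent.V11271.LI (Zr zz mm mm_one_le zz_re zz_im)
open Pool.Agent.Helper76.LW (cf_zeta UC UC.card_le)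
open Pool.Agent.Helper76.EW (FF TF_sum LT_sum re_weil)
open Pool.Agent.Helper61.W (LT TF corr tm LT_corr summable_tm)

lemma sum_arith {n T ε S X K : ℝ} (hn0 : 0 ≤ n) (hn : n ≤ K * X ^ 3) (hT : T + 1 ≤ K * X ^ 1) (hT0 : 0 ≤ T) (hε : 0 < ε)
    (hε1 : ε ≤ 1) (hS : 0 ≤ S) (hK : 1 ≤ K) (hX : 1 ≤ X) (x : 20 * (S + 1) * K ^ 2 * X ^ 4 ≤ ε⁻¹) :
    n * (4 * ε * (2 * T + 2) + ε ^ 2) * S < 1 / 2 := by
  have h1 : 20 * (S + 1) * K ^ 2 * X ^ 4 * ε ≤ 1 := by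
    calc 20 * (S + 1) * K ^ 2 * X ^ 4 * ε ≤ ε⁻¹ * ε := by gcongr
      _ = 1 := inv_mul_cancel₀ hε.ne'
  have h2 : 4 * ε * (2 * T + 2) + ε ^ 2 ≤ 9 * (K * X) * ε := by
    have h3 : ε ^ 2 ≤ (K * X) * ε := by
      have : 1 ≤ K * X := by nlinarith
      nlinarith
    rw [pow_one] at hT
    nlinarith
  have hKX : 0 < K ^ 2 * X ^ 4 := by positivity
  calc n * (4 * ε * (2 * T + 2) + ε ^ 2) * S ≤ (K * X ^ 3) * (9 * (K * X) * ε) * S := by gcongr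
    _ = 9 * (S * (K ^ 2 * X ^ 4 * ε)) := by ring
    _ ≤ 9 * ((S + 1) * (K ^ 2 * X ^ 4 * ε)) := by gcongr; linarith
    _ < 10 * ((S + 1) * (K ^ 2 * X ^ 4 * ε)) := by
        have : 0 < (S + 1) * (K ^ 2 * X ^ 4 * ε) := by positivity
        linarith
    _ = (20 * (S + 1) * K ^ 2 * X ^ 4 * ε) / 2 := by ring
    _ ≤ _ := by linarith

theorem index_ge2 {c : ℝ} (hc0 : 0 < c) (hc : c < 4 * Real.pi) : ∃ δ X0 : ℝ, 0 < δ ∧ 3 ≤ X0 ∧
    ∀ X : ℝ, X0 ≤ X → ∀ S : Finset Zr,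
    (∀ ρ ∈ S, |(ρ : ℂ).im| ≤ c * X ∧ 1 / 2 + Real.exp (-(δ * X / Real.log X)) ≤ (ρ : ℂ).re) →
    (∀ ρ ∈ S, ∀ ρ' ∈ S, ρ ≠ ρ' → Real.exp (-(δ * X / Real.log X)) ≤ ‖(ρ : ℂ) - ρ'‖) →
    ∃ g : Zr → ℝ → ℂ, (∀ ρ ∈ S, TF (g ρ) ∧ ∀ x, x ∉ Icc (-(Real.log X / 2)) (Real.log X / 2) → g ρ x = 0) ∧
      ∀ a : Zr → ℂ, (∃ ρ ∈ S, a ρ ≠ 0) →
        (∑' ρ : Zr, tm (corr (fun x => ∑ q ∈ S, a q * g q x)) ρ).re < 0 := by
  classical
  obtain ⟨δ, X1, hδ, hδ1, hX1, h⟩ := single3 hc0 hc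
  obtain ⟨B1, hB1, hB⟩ := cf_zeta.unit_count
  set S0 := ∑' ρ : Zr, mm ρ / (1 + |(zz ρ).im|) ^ 2 with hS0
  have hS00 : 0 ≤ S0 := tsum_nonneg fun ρ => div_nonneg (by linarith [mm_one_le ρ]) (by positivity)
  obtain ⟨K, hK⟩ : ∃ K, K = 4 * B1 * (16 * (c + 2) + 1) * (c + 2) + (c + 3) := ⟨_, rfl⟩
  have hK1 : 1 ≤ K := by
    rw [hK]
    have : 0 ≤ 4 * B1 * (16 * (c + 2) + 1) * (c + 2) := by positivity
    linarith
  obtain ⟨X2, hX2⟩ := eventually_atTop.mp (ev_exp (20 * (S0 + 1) * K ^ 2) 4 hδ)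
  refine ⟨δ, max (max X1 X2) 3, hδ, le_max_right _ _, fun X hX S hS hsep => ?_⟩
  have hXX1 : X1 ≤ X := ((le_max_left _ _).trans (le_max_left _ _)).trans hX
  have hXX2 : X2 ≤ X := ((le_max_right _ _).trans (le_max_left _ _)).trans hX
  have hX3 : 3 ≤ X := (le_max_right _ _).trans hX
  have hx2 := hX2 X hXX2
  have hE4 : 4 * E0 δ X = Real.exp (-(δ * X / Real.log X)) := by
    unfold E0
    ring
  have hlog1 : 1 ≤ Real.log X := by
    rw [Real.le_log_iff_exp_le (by linarith)]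
    have := Real.exp_one_lt_d9
    linarith
  have hE01 : E0 δ X ≤ 1 / 2 := by
    have : Real.exp (-(δ * X / Real.log X)) ≤ 1 := by
      rw [Real.exp_le_one_iff, neg_nonpos]
      have : 0 < X := by linarith
      positivity
    linarith
  have hsing : ∀ p0 ∈ S, ∃ (g : ℝ → ℂ) (F τ : ℂ → ℂ) (ro : ℝ), TF g ∧
      (∀ x, x ∉ Icc (-(Real.log X / 2)) (Real.log X / 2) → g x = 0) ∧ 0 < ro ∧ ro ≤ E0 δ X ∧
      (∀ z : ℂ, |z.re| ≤ 1 / 2 → LT g z = F z + τ z) ∧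
      (FF F (zz p0)).re ≤ -(1 / 2) ∧
      (∀ ρ : Zr, ‖zz ρ - zz p0‖ ≤ ro → (FF F (zz ρ)).re ≤ 0 ∧ ‖F (zz ρ)‖ ≤ 2 ∧ ‖F (-conj (zz ρ))‖ ≤ 2) ∧
      (∀ ρ : Zr, ro < ‖zz ρ - zz p0‖ → ro < ‖zz ρ - (-conj (zz p0))‖ → F (zz ρ) = 0) ∧
      ∀ z : ℂ, |z.re| ≤ 1 / 2 → ‖τ z‖ ≤ Real.exp (-(δ * X)) / (1 + |z.im|) := fun p0 hp0 =>
    h X hXX1 p0 (by rw [zz_im]; exact (hS p0 hp0).1) (by
      rw [hE4, zz_re]
      linarith [(hS p0 hp0).2])
  choose! g F τ ro h1 h2 h3 h4 h5 h6 h7 h8 h9 using hsing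
  refine ⟨g, fun ρ hρ => ⟨h1 ρ hρ, h2 ρ hρ⟩, fun a ha => ?_⟩
  obtain ⟨k1, k2⟩ := TF_sum S (g := g) (r := Real.log X / 2) a h1 h2
  rw [re_weil k1 (F := fun z => LT (fun x => ∑ q ∈ S, a q * g q x) z) fun _ => rfl]
  set T : ℝ := (c + 2) * X with hT
  have hT2 : 2 ≤ T := by rw [hT]; nlinarith
  have huc : UC zz T (B1 * Real.log T) := fun a S hS => hB T hT2 a S hS
  have hlogT0 : 0 ≤ Real.log T := Real.log_nonneg (by linarith)
  have hcard : (S.card : ℝ) ≤ K * X ^ 3 := by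
    have hc1 := huc.card_le (by positivity) hT2 S (fun i hi => by
      rw [zz_im]
      have := (hS i hi).1
      rw [hT]
      nlinarith)
    have hlT : Real.log T ≤ T := (Real.log_le_sub_one_of_pos (by linarith)).trans (by linarith)
    refine hc1.trans ?_
    calc 4 * (B1 * Real.log T) * (16 * T + 1) ≤ 4 * (B1 * T) * (16 * T + 1) := by gcongr
      _ ≤ 4 * (B1 * T) * ((16 * (c + 2) + 1) * X) := by
          gcongr
          rw [hT]
          nlinarith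
      _ = (4 * B1 * (16 * (c + 2) + 1) * (c + 2)) * X ^ 2 := by rw [hT]; ring
      _ ≤ K * X ^ 3 := by
          have hle : 4 * B1 * (16 * (c + 2) + 1) * (c + 2) ≤ K := by rw [hK]; linarith
          have hX23 : X ^ 2 ≤ X ^ 3 := pow_le_pow_right₀ (by linarith) (by norm_num)
          gcongr
  have hm := multi2 (u := zz) (m := mm) cf_zeta (T := T) (E0 := E0 δ X) (ε := Real.exp (-(δ * X))) (n := S.card)
    hT2 (E0_pos δ X) hE01 (Real.exp_pos _) S (fun i hi => by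
      rw [zz_im, zz_re, hE4]
      refine ⟨?_, by linarith [(hS i hi).2]⟩
      have := (hS i hi).1
      rw [hT]
      nlinarith) le_rfl (fun i hi j hj hij => by
      rw [hE4]
      refine (hsep i hi j hj hij).trans (le_of_eq ?_)
      congr 1
      unfold V11271.LI.zz
      ring) F τ ro h3 h4 h6 h7 h8 h9 (by
      refine sum_arith (K := K) (X := X) (by positivity) hcard ?_ (by linarith) (Real.exp_pos _) ?_ hS00 hK1
        (by linarith) ?_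
      · rw [hT, hK, pow_one]
        have : 0 ≤ 4 * B1 * (16 * (c + 2) + 1) * (c + 2) * X := by positivity
        nlinarith
      · rw [Real.exp_le_one_iff]
        have : 0 < X := by linarith
        have : 0 < δ * X := by positivity
        linarith
      · rw [← Real.exp_neg, neg_neg]
        exact hx2) a ha
  refine lt_of_le_of_lt (le_of_eq ?_) hm
  refine tsum_congr fun ρ => ?_
  have hz : |(zz ρ).re| ≤ 1 / 2 := (cf_zeta.re_lt ρ).le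
  have e1 : ∀ z : ℂ, |z.re| ≤ 1 / 2 → LT (fun x => ∑ q ∈ S, a q * g q x) z = ∑ q ∈ S, a q * (F q z + τ q z) := by
    intro z hz
    rw [LT_sum S a h1]
    exact Finset.sum_congr rfl fun q hq => by rw [h5 q hq z hz]
  congr 2
  unfold EW.FF
  simp only
  rw [e1 _ hz, e1 _ (by simpa using hz)]

end Pool.Agent.Helper76.EX
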