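import Pool.Agent.Helper76.EX.Par
import Pool.Agent.Helper42.WB.Er

set_option autoImplicit false

/-!
# The bottom of Weil's form is exponentially small
-/

namespace Pool.Agent.Helper76.EX

open Complex Filter Topology Set MeasureTheory Metric
open scoped ComplexConjugate ContDiff
open Pool.Agent.V11271.LI (Zr zz mm mm_one_le)
open Pool.Agent.Helper76.LW (cf_zeta)
open Pool.Agent.Helper76.EW (FF EE EE_zero)
open Pool.Agent.Helper61.W (LT TF corr tm LT_corr summable_tm)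
open Pool.Agent.Helper42.WB (en LT_sq_le en_eq_sq en_nonneg)

lemma Xi0_zz (ρ : Zr) : Xi0 (zz ρ) = 0 := by
  obtain ⟨B1, -, hB1, -⟩ := exists_B {ρ}
  rw [hB1]
  unfold PG
  have hne : analyticOrderNatAt riemannZeta (ρ : ℂ) ≠ 0 := by
    intro h6
    have := mm_one_le ρ
    unfold V11271.LI.mm at this
    rw [h6] at this
    norm_num at this
  rw [Finset.prod_singleton, sub_self, zero_pow hne, zero_mul]

/-- an almost extremal function -/
theorem bottom_core {Y θ0 ε Ts : ℝ} (h0 : 0 < θ0) (h1 : θ0 < Real.pi / 2) (hY : 1 ≤ Y)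
    (htail : ∀ x : ℝ, Real.log Y / 2 ≤ |x| →
      ‖Gk Y θ0 x‖ ≤ Real.exp (ε * Y) * Real.exp (-2 * (|x| - Real.log Y / 2))) (hTs : 1 ≤ Ts)
    {CE : ℝ} (hCE : ∀ (T : ℝ), 1 ≤ T → ∀ z : ℂ, |z.re| ≤ 1 / 2 → ‖EE (z / T)‖ ≤ CE * T / (1 + |z.im|)) :
    ∃ g : ℝ → ℂ, TF g ∧
      (∀ x, x ∉ Icc (-(Real.log Y / 2 + 1 / 4 / Ts)) (Real.log Y / 2 + 1 / 4 / Ts) → g x = 0) ∧
      ‖Xi0 0‖ * ‖Mk Y θ0 0‖ - 2 * Real.exp (ε * Y) * Y ≤ ‖LT g 0‖ ∧
      |(∑' ρ : Zr, tm (corr g) ρ).re| ≤ (2 * Real.exp (ε * Y) * Y * (CE * Ts)) ^ 2 *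
        ∑' ρ : Zr, mm ρ / (1 + |(zz ρ).im|) ^ 2 := by
  have hTs0 : 0 < Ts := by linarith
  have hlogY : 0 ≤ Real.log Y / 2 := div_nonneg (Real.log_nonneg hY) (by norm_num)
  have hTl : Tl (Real.log Y / 2) (Real.exp (ε * Y)) (Gk Y θ0) := ⟨Gk_cont h0 h1, htail⟩
  obtain ⟨g, hg, hgs, τ, hτ1, hτ2⟩ := hTl.smooth hlogY (Real.exp_pos _).le hTs0
  have hLT : ∀ z : ℂ, LT (Gk Y θ0) z = Xi0 z * Mk Y θ0 z := fun z => (Gk_transform h0 h1 z).2
  have hexp : Real.exp (2 * (Real.log Y / 2)) = Y := by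
    rw [show 2 * (Real.log Y / 2) = Real.log Y by ring, Real.exp_log (by linarith)]
  rw [hexp] at hτ2
  refine ⟨g, hg, hgs, ?_, ?_⟩
  · have h2 := hτ1 0 (by simp)
    have h3 := hτ2 0 (by simp)
    rw [zero_div, EE_zero, mul_one, hLT] at h2
    rw [zero_div, EE_zero, norm_one, mul_one] at h3
    rw [h2]
    have h4 : ‖Xi0 0 * Mk Y θ0 0‖ ≤ ‖Xi0 0 * Mk Y θ0 0 + τ 0‖ + ‖τ 0‖ := by
      calc ‖Xi0 0 * Mk Y θ0 0‖ = ‖(Xi0 0 * Mk Y θ0 0 + τ 0) - τ 0‖ := by ring_nf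
        _ ≤ _ := norm_sub_le _ _
    rw [norm_mul] at h4
    linarith
  · set K : ℝ := 2 * Real.exp (ε * Y) * Y * (CE * Ts) with hK
    have hb : ∀ z : ℂ, |z.re| ≤ 1 / 2 → Xi0 z = 0 → ‖LT g z‖ ≤ K / (1 + |z.im|) := by
      intro z hz hz0
      rw [hτ1 z hz, hLT, hz0, zero_mul, zero_mul, zero_add]
      refine (hτ2 z hz).trans ?_
      calc 2 * Real.exp (ε * Y) * Y * ‖EE (z / Ts)‖ ≤ 2 * Real.exp (ε * Y) * Y * (CE * Ts / (1 + |z.im|)) := by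
            gcongr
            exact hCE Ts hTs z hz
        _ = _ := by
            rw [hK]
            ring
    have hS := summable_tm hg.corr
    have hterm : ∀ ρ : Zr, ‖tm (corr g) ρ‖ ≤ K ^ 2 * (mm ρ / (1 + |(zz ρ).im|) ^ 2) := by
      intro ρ
      have hre : |(zz ρ).re| ≤ 1 / 2 := (cf_zeta.re_lt ρ).le
      have hm : 0 ≤ mm ρ := by linarith [mm_one_le ρ]
      have e1 : tm (corr g) ρ = (mm ρ : ℂ) * (LT g (zz ρ) * conj (LT g (-conj (zz ρ)))) := by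
        unfold Helper61.W.tm
        rw [LT_corr hg]
        rfl
      have h2 := hb (zz ρ) hre (Xi0_zz ρ)
      have h3 := hb (-conj (zz ρ)) (by simpa using hre) (by rw [Xi0_refl, Xi0_zz, map_zero])
      have e2 : (-conj (zz ρ)).im = (zz ρ).im := by simp
      rw [e2] at h3
      rw [e1, norm_mul, Complex.norm_real, Real.norm_of_nonneg hm, norm_mul, Complex.norm_conj]
      have h0' : 0 < 1 + |(zz ρ).im| := by positivity
      have hK0 : 0 ≤ K / (1 + |(zz ρ).im|) := (norm_nonneg _).trans h2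
      calc mm ρ * (‖LT g (zz ρ)‖ * ‖LT g (-conj (zz ρ))‖) ≤
            mm ρ * ((K / (1 + |(zz ρ).im|)) * (K / (1 + |(zz ρ).im|))) := by gcongr
        _ = _ := by
            field_simp
    calc |(∑' ρ : Zr, tm (corr g) ρ).re| ≤ ‖∑' ρ : Zr, tm (corr g) ρ‖ := Complex.abs_re_le_norm _
      _ ≤ ∑' ρ : Zr, K ^ 2 * (mm ρ / (1 + |(zz ρ).im|) ^ 2) :=
          tsum_of_norm_bounded (cf_zeta.sum2.mul_left _).hasSum hterm
      _ = _ := tsum_mul_left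

lemma en_smul (g : ℝ → ℂ) (r : ℝ) : en (fun x => (r : ℂ) * g x) = r ^ 2 * en g := by
  rw [en_eq_sq, en_eq_sq, ← integral_const_mul]
  congr 1
  funext x
  rw [norm_mul, Complex.norm_real, Real.norm_eq_abs, mul_pow, sq_abs]

lemma TF_smul {g : ℝ → ℂ} (h : TF g) (c : ℂ) : TF (fun x => c * g x) :=
  ⟨contDiff_const.mul h.smooth, h.supp.mul_left⟩

lemma weil_smul {g : ℝ → ℂ} (h : TF g) (r : ℝ) :
    (∑' ρ : Zr, tm (corr (fun x => (r : ℂ) * g x)) ρ).re = r ^ 2 * (∑' ρ : Zr, tm (corr g) ρ).re := by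
  have h1 : ∀ ρ : Zr, tm (corr (fun x => (r : ℂ) * g x)) ρ = ((r ^ 2 : ℝ) : ℂ) * tm (corr g) ρ := by
    intro ρ
    unfold Helper61.W.tm
    have e : ∀ z, LT (fun x => (r : ℂ) * g x) z = r * LT g z := by
      intro z
      unfold Helper61.W.LT
      rw [← integral_const_mul]
      congr 1
      funext x
      ring
    rw [LT_corr (TF_smul h r), LT_corr h, e, e, map_mul, Complex.conj_ofReal]
    push_cast
    ring
  simp_rw [h1]
  rw [tsum_mul_left, Complex.re_ofReal_mul]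

lemma bot_arith {π' ε κ X a S CE N W e : ℝ} (hπ : 3 < π') (hπ4 : π' < 4) (hε : 0 < ε) (hε1 : ε ≤ 1)
    (hκ : κ = 1 - ε / 64) (hX : 16 ≤ X)
    (ha : 0 < a) (hS : 0 ≤ S) (hCE : 1 ≤ CE)
    (x1 : 4 / a * (κ * X) ^ 1 ≤ Real.exp (1 * (κ * X)))
    (x2 : 16 * CE ^ 2 * S / a ^ 2 * X ^ 8 ≤ Real.exp (ε / 4 * X))
    (hN : a * Real.exp ((2 * π' - ε / 8) * (κ * X)) - 2 * Real.exp (ε / 8 * (κ * X)) * (κ * X) ≤ N) (hN2 : N ^ 2 ≤ X ^ 2 * e)
    (hW : W ≤ (2 * Real.exp (ε / 8 * (κ * X)) * (κ * X) * (CE * X ^ 2)) ^ 2 * S) :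
    0 < e ∧ W / e ≤ Real.exp (-((4 * π' - ε) * X)) := by
  have hX0 : 0 < X := by linarith
  have hκ0 : 0 < κ := by rw [hκ]; linarith
  have hκ1 : κ ≤ 1 := by rw [hκ]; linarith
  obtain ⟨Y, hY⟩ : ∃ Y, Y = κ * X := ⟨_, rfl⟩
  rw [← hY] at x1 hN hW
  have hY0 : 0 < Y := by rw [hY]; positivity
  have hYX : Y ≤ X := by rw [hY]; nlinarith
  rw [pow_one, one_mul] at x1
  have h1 : 2 * Real.exp (ε / 8 * Y) * Y ≤ a / 2 * Real.exp ((2 * π' - ε / 8) * Y) := by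
    have h2 : Real.exp (ε / 8 * Y) * Real.exp Y ≤ Real.exp ((2 * π' - ε / 8) * Y) := by
      rw [← Real.exp_add]
      apply Real.exp_le_exp.mpr
      nlinarith
    have h3 : Y ≤ a / 4 * Real.exp Y := by
      rw [div_mul_eq_mul_div, div_le_iff₀ ha] at x1
      linarith
    calc 2 * Real.exp (ε / 8 * Y) * Y ≤ 2 * Real.exp (ε / 8 * Y) * (a / 4 * Real.exp Y) := by gcongr
      _ = a / 2 * (Real.exp (ε / 8 * Y) * Real.exp Y) := by ring
      _ ≤ _ := by gcongr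
  have h2 : a / 2 * Real.exp ((2 * π' - ε / 8) * Y) ≤ N := by linarith
  have h3 : (a / 2 * Real.exp ((2 * π' - ε / 8) * Y)) ^ 2 ≤ X ^ 2 * e := le_trans (by gcongr) hN2
  have h4 : 0 < (a / 2 * Real.exp ((2 * π' - ε / 8) * Y)) ^ 2 := by positivity
  have he : 0 < e := by
    by_contra hc
    push Not at hc
    have : X ^ 2 * e ≤ 0 := mul_nonpos_of_nonneg_of_nonpos (by positivity) hc
    linarith
  refine ⟨he, ?_⟩
  rw [div_le_iff₀ he]
  have h5 : (a / 2 * Real.exp ((2 * π' - ε / 8) * Y)) ^ 2 / X ^ 2 ≤ e := by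
    rw [div_le_iff₀ (by positivity)]
    linarith
  refine hW.trans ?_
  refine le_trans ?_ (mul_le_mul_of_nonneg_left h5 (Real.exp_pos _).le)
  have e1 : (2 * Real.exp (ε / 8 * Y) * Y * (CE * X ^ 2)) ^ 2 * S =
      (4 * CE ^ 2 * S) * (Y ^ 2 * X ^ 4) * Real.exp (ε / 4 * Y) := by
    have : Real.exp (ε / 4 * Y) = Real.exp (ε / 8 * Y) ^ 2 := by
      rw [← Real.exp_nat_mul]
      congr 1
      push_cast
      ring
    rw [this]
    ring
  have e2 : Real.exp (-((4 * π' - ε) * X)) * ((a / 2 * Real.exp ((2 * π' - ε / 8) * Y)) ^ 2 / X ^ 2) =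
      a ^ 2 / 4 / X ^ 2 * Real.exp (-((4 * π' - ε) * X) + (4 * π' - ε / 4) * Y) := by
    have : Real.exp (-((4 * π' - ε) * X) + (4 * π' - ε / 4) * Y) =
        Real.exp (-((4 * π' - ε) * X)) * Real.exp ((2 * π' - ε / 8) * Y) ^ 2 := by
      rw [← Real.exp_nat_mul, ← Real.exp_add]
      congr 1
      push_cast
      ring
    rw [this]
    field_simp
    norm_num
  rw [e1, e2]
  have h6 : ε / 4 * X + ε / 4 * Y ≤ -((4 * π' - ε) * X) + (4 * π' - ε / 4) * Y := by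
    rw [hY, hκ]
    nlinarith [mul_pos hε hX0]
  have h7 : Real.exp (ε / 4 * X) * Real.exp (ε / 4 * Y) ≤ Real.exp (-((4 * π' - ε) * X) + (4 * π' - ε / 4) * Y) := by
    rw [← Real.exp_add]
    exact Real.exp_le_exp.mpr h6
  calc (4 * CE ^ 2 * S) * (Y ^ 2 * X ^ 4) * Real.exp (ε / 4 * Y) ≤
        (4 * CE ^ 2 * S) * (X ^ 2 * X ^ 4) * Real.exp (ε / 4 * Y) := by gcongr
    _ = a ^ 2 / 4 / X ^ 2 * ((16 * CE ^ 2 * S / a ^ 2 * X ^ 8) * Real.exp (ε / 4 * Y)) := by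
        field_simp
        ring
    _ ≤ a ^ 2 / 4 / X ^ 2 * (Real.exp (ε / 4 * X) * Real.exp (ε / 4 * Y)) := by gcongr
    _ ≤ _ := by gcongr

/-- **The bottom of Weil's form.** -/
theorem bottom_le {ε : ℝ} (hε : 0 < ε) (hε1 : ε ≤ 1) : ∃ X0 : ℝ, 3 ≤ X0 ∧ ∀ X : ℝ, X0 ≤ X → ∃ g : ℝ → ℂ, TF g ∧
    (∀ x, x ∉ Icc (-(Real.log X / 2)) (Real.log X / 2) → g x = 0) ∧ en g = 1 ∧
    |(∑' ρ : Zr, tm (corr g) ρ).re| ≤ Real.exp (-((4 * Real.pi - ε) * X)) := by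
  obtain ⟨κ, hκ⟩ : ∃ κ, κ = 1 - ε / 64 := ⟨_, rfl⟩
  have hκ0 : 0 < κ := by rw [hκ]; linarith
  have hκ1 : κ < 1 := by rw [hκ]; linarith
  obtain ⟨θ0, h0, h1, hG⟩ := Gk_tail (ε := ε / 8) (by positivity)
  obtain ⟨Yb, hYb, hGb⟩ := hG θ0 le_rfl h1
  obtain ⟨Ya, hYa, hMa⟩ := Mk_zero_low (ε := ε / 8) (by positivity) h0 h1.le
  obtain ⟨CE, hCE1, hCE⟩ := EE_decay
  obtain ⟨a, ha, hXa⟩ := Xi0_zero_pos
  set S := ∑' ρ : Zr, mm ρ / (1 + |(zz ρ).im|) ^ 2 with hS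
  have hS0 : 0 ≤ S := tsum_nonneg fun ρ => div_nonneg (by linarith [mm_one_le ρ]) (by positivity)
  have hev1 : ∀ᶠ X : ℝ in atTop, 4 / a * (κ * X) ^ 1 ≤ Real.exp (1 * (κ * X)) :=
    (tendsto_id.const_mul_atTop hκ0).eventually (ev_exp (4 / a) 1 one_pos)
  have hev : ∀ᶠ X : ℝ in atTop, (4 / a * (κ * X) ^ 1 ≤ Real.exp (1 * (κ * X))) ∧
      (16 * CE ^ 2 * S / a ^ 2 * X ^ 8 ≤ Real.exp (ε / 4 * X)) ∧
      (max (Ya / κ) (Yb / κ) ≤ X) ∧ (1 / (-Real.log κ) ≤ X) := by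
    refine hev1.and ((ev_exp _ 8 (by positivity)).and ((eventually_ge_atTop _).and (eventually_ge_atTop _)))
  obtain ⟨X1, hX1⟩ := eventually_atTop.mp hev
  refine ⟨max X1 16, le_trans (by norm_num) (le_max_right _ _), fun X hX => ?_⟩
  obtain ⟨x1, x2, x4, x6⟩ := hX1 X ((le_max_left _ _).trans hX)
  have hX16 : 16 ≤ X := (le_max_right _ _).trans hX
  have hX0 : 0 < X := by linarith
  have hYa' : Ya ≤ κ * X := by
    have := (le_max_left _ _).trans x4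
    rw [div_le_iff₀ hκ0] at this
    linarith
  have hYb' : Yb ≤ κ * X := by
    have := (le_max_right _ _).trans x4
    rw [div_le_iff₀ hκ0] at this
    linarith
  have hY1 : 1 ≤ κ * X := hYa.trans hYa'
  obtain ⟨g, hg, hgs, hg1, hg2⟩ := bottom_core (ε := ε / 8) (Ts := X ^ 2) h0 h1 hY1
    (fun x hx => hGb (κ * X) hYb' x hx) (by nlinarith) hCE
  have hgs' : ∀ x, x ∉ Icc (-(Real.log X / 2)) (Real.log X / 2) → g x = 0 := by
    intro x hx
    refine hgs x fun hx2 => hx ?_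
    have hlκ : Real.log κ < 0 := Real.log_neg hκ0 hκ1
    have h2 : Real.log (κ * X) / 2 + 1 / 4 / X ^ 2 ≤ Real.log X / 2 := by
      rw [Real.log_mul hκ0.ne' hX0.ne']
      have h3 : 1 / X ≤ -Real.log κ := by
        rw [div_le_iff₀ (by linarith)] at x6
        rw [div_le_iff₀ hX0]
        linarith
      have h4 : 1 / 4 / X ^ 2 ≤ 1 / X / 2 := by
        rw [div_div, div_div, div_le_div_iff₀ (by positivity) (by positivity)]
        nlinarith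
      linarith
    constructor <;> linarith [hx2.1, hx2.2]
  have hlogX : 0 < Real.log X := Real.log_pos (by linarith)
  have hN2 : ‖LT g 0‖ ^ 2 ≤ X ^ 2 * en g := by
    refine (LT_sq_le hg (c := Real.log X / 2) (by positivity) hgs' (by simp)).trans ?_
    have h2 : Real.exp (Real.log X / 2) ≤ X := by
      calc Real.exp (Real.log X / 2) ≤ Real.exp (Real.log X) := Real.exp_le_exp.mpr (by linarith)
        _ = X := Real.exp_log hX0
    have h3 : Real.log X ≤ X := (Real.log_le_sub_one_of_pos hX0).trans (by linarith)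
    have h4 := en_nonneg g
    calc 2 * (Real.log X / 2) * Real.exp (Real.log X / 2) * en g = Real.log X * Real.exp (Real.log X / 2) * en g := by
          ring
      _ ≤ X * X * en g := by gcongr
      _ = _ := by ring
  have hN : a * Real.exp ((2 * Real.pi - ε / 8) * (κ * X)) - 2 * Real.exp (ε / 8 * (κ * X)) * (κ * X) ≤
      ‖LT g 0‖ := by
    refine le_trans ?_ hg1
    rw [hXa]
    have := hMa (κ * X) hYa'
    gcongr
  obtain ⟨he, hfin⟩ := bot_arith Real.pi_gt_three (by linarith [Real.pi_lt_d2]) hε hε1 hκ hX16 ha hS0 hCE1 x1 x2 hN hN2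
    hg2
  have hsq : 0 < Real.sqrt (en g) := Real.sqrt_pos.mpr he
  have hsq2 : ((Real.sqrt (en g))⁻¹) ^ 2 = (en g)⁻¹ := by
    rw [inv_pow, Real.sq_sqrt he.le]
  refine ⟨fun x => (((Real.sqrt (en g))⁻¹ : ℝ) : ℂ) * g x, TF_smul hg _, fun x hx => ?_, ?_, ?_⟩
  · show (((Real.sqrt (en g))⁻¹ : ℝ) : ℂ) * g x = 0
    rw [hgs' x hx, mul_zero]
  · rw [en_smul, hsq2, inv_mul_cancel₀ he.ne']
  · rw [weil_smul hg, hsq2, abs_mul, abs_of_pos (inv_pos.mpr he), inv_mul_eq_div]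
    exact hfin

end Pool.Agent.Helper76.EX
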