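import Pool.Agent.Helper76.EX.Rem
import Pool.Agent.Helper76.EW.Base

set_option autoImplicit false

/-!
# Cut off and smoothing
-/

namespace Pool.Agent.Helper76.EX

open Complex Filter Topology Set MeasureTheory
open scoped ComplexConjugate ContDiff Convolution
open Pool.Agent.Helper61.W (LT TF)
open Pool.Agent.Helper76.EW (EE PW tf_of_supp PW_EE)

variable {l E : ℝ} {G : ℝ → ℂ}

lemma integral_exp_neg_abs' : ∫ x : ℝ, Real.exp (-|x|) = 2 := by
  rw [integral_comp_abs (f := fun x => Real.exp (-x)), integral_exp_neg_Ioi_zero, mul_one]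

/-- the transform of the cut off function -/
lemma Tl.cut (h : Tl l E G) (hl : 0 ≤ l) (hE : 0 ≤ E) {z : ℂ} (hz : |z.re| ≤ 1 / 2) :
    ‖LT (indicator (Icc (-l) l) G) z - LT G z‖ ≤ 2 * E * Real.exp (2 * l) := by
  have hi := h.integrable (z := z) (by linarith)
  have e1 : ∀ x : ℝ, indicator (Icc (-l) l) G x * cexp (z * x) =
      indicator (Icc (-l) l) (fun x : ℝ => G x * cexp (z * x)) x := by
    intro x
    by_cases hx : x ∈ Icc (-l) l
    · rw [indicator_of_mem hx, indicator_of_mem hx]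
    · rw [indicator_of_notMem hx, indicator_of_notMem hx, zero_mul]
  unfold Helper61.W.LT
  simp_rw [e1]
  rw [← integral_sub (hi.indicator measurableSet_Icc) hi]
  have hb : ∀ x : ℝ, ‖indicator (Icc (-l) l) (fun x : ℝ => G x * cexp (z * x)) x - G x * cexp (z * x)‖ ≤
      E * Real.exp (2 * l) * Real.exp (-|x|) := by
    intro x
    by_cases hx : x ∈ Icc (-l) l
    · rw [indicator_of_mem hx, sub_self, norm_zero]
      positivity
    · rw [indicator_of_notMem hx, zero_sub, norm_neg, norm_mul, Complex.norm_exp]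
      have hx2 : l ≤ |x| := by
        by_contra hc
        push Not at hc
        exact hx ⟨(abs_lt.mp hc).1.le, (abs_lt.mp hc).2.le⟩
      have e2 : (z * x).re = z.re * x := by simp
      have h1 : z.re * x ≤ |x| := by
        calc z.re * x ≤ |z.re * x| := le_abs_self _
          _ = |z.re| * |x| := abs_mul _ _
          _ ≤ 1 * |x| := by gcongr; linarith
          _ = |x| := one_mul _
      rw [e2]
      calc ‖G x‖ * Real.exp (z.re * x) ≤ (E * Real.exp (-2 * (|x| - l))) * Real.exp |x| := by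
            gcongr
            exact h.tail x hx2
        _ = _ := by
            rw [mul_assoc, mul_assoc, ← Real.exp_add, ← Real.exp_add]
            ring_nf
  refine (norm_integral_le_of_norm_le (integrable_exp_neg_abs'.const_mul _) (Eventually.of_forall hb)).trans ?_
  rw [integral_const_mul, integral_exp_neg_abs']
  linarith

lemma conv_TF {g φ : ℝ → ℂ} {r : ℝ} (hg : Integrable g) (hgs : ∀ x, x ∉ Icc (-l) l → g x = 0) (hφ : TF φ)
    (hφs : ∀ x, x ∉ Icc (-r) r → φ x = 0) :
    TF (g ⋆[ContinuousLinearMap.mul ℝ ℂ, volume] φ) ∧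
      (∀ x, x ∉ Icc (-(l + r)) (l + r) → (g ⋆[ContinuousLinearMap.mul ℝ ℂ, volume] φ) x = 0) := by
  have h1 : ContDiff ℝ ∞ (g ⋆[ContinuousLinearMap.mul ℝ ℂ, volume] φ) :=
    hφ.supp.contDiff_convolution_right _ hg.locallyIntegrable hφ.smooth
  have h2 : ∀ x, x ∉ Icc (-(l + r)) (l + r) → (g ⋆[ContinuousLinearMap.mul ℝ ℂ, volume] φ) x = 0 := by
    intro x hx
    rw [convolution_def]
    apply integral_eq_zero_of_ae
    refine Eventually.of_forall fun t => ?_
    simp only [ContinuousLinearMap.mul_apply', Pi.zero_apply]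
    by_cases ht : t ∈ Icc (-l) l
    · rw [hφs, mul_zero]
      intro h3
      exact hx ⟨by linarith [h3.1, ht.1], by linarith [h3.2, ht.2]⟩
    · rw [hgs t ht, zero_mul]
  exact ⟨tf_of_supp h1 h2, h2⟩

lemma conv_LT {g φ : ℝ → ℂ} {z : ℂ} (hg : Integrable fun x : ℝ => g x * cexp (z * x)) (hφ : TF φ) :
    LT (g ⋆[ContinuousLinearMap.mul ℝ ℂ, volume] φ) z = LT g z * LT φ z := by
  have h1 := integral_convolution (ContinuousLinearMap.mul ℝ ℂ) (μ := volume) (ν := volume) hg (hφ.integrable z)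
  rw [ContinuousLinearMap.mul_apply'] at h1
  unfold Helper61.W.LT
  rw [← h1]
  congr 1
  funext x
  rw [convolution_def, convolution_def, ← integral_mul_const]
  congr 1
  funext t
  simp only [ContinuousLinearMap.mul_apply']
  have : cexp (z * x) = cexp (z * t) * cexp (z * ((x - t : ℝ) : ℂ)) := by
    rw [← Complex.exp_add]
    congr 1
    push_cast
    ring
  rw [this]
  ring

/-- cut off and smoothing -/
theorem Tl.smooth (h : Tl l E G) (hl : 0 ≤ l) (hE : 0 ≤ E) {T : ℝ} (hT : 0 < T) :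
    ∃ f : ℝ → ℂ, TF f ∧ (∀ x, x ∉ Icc (-(l + 1 / 4 / T)) (l + 1 / 4 / T) → f x = 0) ∧
      ∃ τ : ℂ → ℂ, (∀ z : ℂ, |z.re| ≤ 1 / 2 → LT f z = LT G z * EE (z / T) + τ z) ∧
        ∀ z : ℂ, |z.re| ≤ 1 / 2 → ‖τ z‖ ≤ 2 * E * Real.exp (2 * l) * ‖EE (z / T)‖ := by
  obtain ⟨φ, hφ, hφs, hφL⟩ := PW_EE.scale hT
  set g : ℝ → ℂ := indicator (Icc (-l) l) G with hg
  have hgi : ∀ z : ℂ, |z.re| ≤ 1 → Integrable fun x : ℝ => g x * cexp (z * x) := by
    intro z hz
    have e1 : (fun x : ℝ => g x * cexp (z * x)) = indicator (Icc (-l) l) (fun x : ℝ => G x * cexp (z * x)) := by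
      funext x
      by_cases hx : x ∈ Icc (-l) l
      · rw [hg, indicator_of_mem hx, indicator_of_mem hx]
      · rw [hg, indicator_of_notMem hx, indicator_of_notMem hx, zero_mul]
    rw [e1]
    exact (h.integrable hz).indicator measurableSet_Icc
  have hgi0 : Integrable g := by
    have := hgi 0 (by simp)
    simpa using this
  have hgs : ∀ x, x ∉ Icc (-l) l → g x = 0 := fun x hx => indicator_of_notMem hx _
  obtain ⟨h1, h2⟩ := conv_TF hgi0 hgs hφ hφs
  refine ⟨_, h1, h2, fun z => (LT g z - LT G z) * EE (z / T), fun z hz => ?_, fun z hz => ?_⟩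
  · rw [conv_LT (hgi z (by linarith)) hφ, hφL]
    ring
  · simp only
    rw [norm_mul]
    gcongr
    exact h.cut hl hE hz

end Pool.Agent.Helper76.EX
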