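import Pool.Graph.R_seed8.Helper242.KK.Kernel
import Pool.Graph.R_seed8.Helper242.KK.ShiftLine

set_option autoImplicit false

/-!
# Almost band limited functions vanishing at the zeros of zeta
-/

namespace Pool.Agent.Helper76.EX

open Complex Filter Topology Set MeasureTheory
open scoped ComplexConjugate
open Pool.Agent.Helper242.KK (Ph PhC)

/-- the weight -/
noncomputable def wk (Y θ : ℝ) : ℝ := Real.exp (2 * Real.pi * Y * Real.cos θ)

/-- the kernel: a superposition of complex translates of the Riemann kernel -/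
noncomputable def Gk (Y θ0 x : ℝ) : ℂ :=
  ∫ θ in (-θ0)..θ0, (wk Y θ : ℂ) * PhC ((x : ℂ) + (θ / 2 : ℝ) * I)

/-- the multiplier -/
noncomputable def Mk (Y θ0 : ℝ) (z : ℂ) : ℂ :=
  ∫ θ in (-θ0)..θ0, (wk Y θ : ℂ) * cexp (-(I * z * θ / 2))

/-- Riemann's function `ξ(1/2+z)` (twice, up to normalisation) -/
noncomputable def Xi0 (z : ℂ) : ℂ := ∫ x : ℝ, (Ph x : ℂ) * cexp (z * x)

lemma Xi0_eq_FT (z : ℂ) : Xi0 z = Pool.Agent.Helper242.KK.FT Ph (-(I * z)) := by
  unfold Xi0 Pool.Agent.Helper242.KK.FT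
  congr 1
  funext x
  congr 2
  have : I * -(I * z) = z := by
    rw [mul_neg, ← mul_assoc, I_mul_I]
    ring
  rw [this]

end Pool.Agent.Helper76.EX
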