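import Pool.Agent.Helper76.EX.Ass

set_option autoImplicit false

/-!
# Isolated zeros off the line are seen much further
-/

namespace Pool.Agent.Helper76.EX

open Complex Filter Topology Set MeasureTheory Metric
open scoped ComplexConjugate ContDiff
open Pool.Agent.V11271.LI (Zr zz mm mm_one_le zz_re zz_im reflE)
open Pool.Agent.Helper76.LW (cf_zeta)
open Pool.Agent.Helper76.EW (FF EE PW PW_EE PW.scale PW.shift PW.add PW.smul tf_of_supp re_weil eta_nonneg eta_int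
  eta_supp eta_integrable etc etc_tf)
open Pool.Agent.Helper61.W (LT TF corr tm LT_corr summable_tm)

section pw

variable {r s : ℝ} {F G : ℂ → ℂ}

lemma PW_mul (h1 : PW r F) (h2 : PW s G) : PW (r + s) (fun z => F z * G z) := by
  obtain ⟨f, a1, a2, a3⟩ := h1
  obtain ⟨g, b1, b2, b3⟩ := h2
  have hfi : Integrable f := by simpa using a1.integrable 0
  obtain ⟨k1, k2⟩ := conv_TF (l := r) (r := s) hfi a2 b1 b2
  exact ⟨_, k1, k2, fun z => by rw [conv_LT (a1.integrable z) b1, a3, b3]⟩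

lemma PW_pow (h : PW r F) (n : ℕ) : PW ((n + 1) * r) (fun z => F z ^ (n + 1)) := by
  induction n with
  | zero => simpa using h
  | succ n ih =>
      have h2 := PW_mul ih h
      have e : ((n : ℝ) + 1) * r + r = (((n + 1 : ℕ) : ℝ) + 1) * r := by
        push_cast
        ring
      rw [e] at h2
      simpa only [pow_succ] using h2

lemma PW_vshift (h : PW r F) (y : ℝ) : PW r (fun z => F (z - y * I)) := by
  obtain ⟨f, a1, a2, a3⟩ := h
  have hs : ∀ x, x ∉ Icc (-r) r → (fun x : ℝ => f x * cexp (-(y * I) * x)) x = 0 := fun x hx => by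
    show f x * cexp (-(y * I) * x) = 0
    rw [a2 x hx, zero_mul]
  have hsm : ContDiff ℝ ∞ (fun x : ℝ => f x * cexp (-(y * I) * x)) := by
    refine a1.smooth.mul ?_
    exact (contDiff_const.mul Complex.ofRealCLM.contDiff).cexp
  refine ⟨_, tf_of_supp hsm hs, hs, fun z => ?_⟩
  show _ = F (z - y * I)
  rw [← a3]
  unfold Helper61.W.LT
  congr 1
  funext x
  rw [mul_assoc, ← Complex.exp_add]
  congr 2
  ring

end pw

lemma EE_norm_le (z : ℂ) : ‖EE z‖ ≤ Real.exp (|z.re| / 4) := by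
  unfold EW.EE EW.LTr Pool.Agent.Helper61.W.LT
  have hb : ∀ x : ℝ, ‖etc x * cexp (z * x)‖ ≤ Real.exp (|z.re| / 4) * EW.eta x := by
    intro x
    by_cases hx : 1 / 4 ≤ |x|
    · unfold EW.etc
      rw [eta_supp hx]
      simp
    · push Not at hx
      rw [norm_mul]
      have h1 : ‖etc x‖ = EW.eta x := by
        unfold EW.etc
        rw [Complex.norm_real, Real.norm_of_nonneg (eta_nonneg x)]
      have h2 : ‖cexp (z * x)‖ ≤ Real.exp (|z.re| / 4) := by
        rw [Complex.norm_exp]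
        apply Real.exp_le_exp.mpr
        have : (z * x).re = z.re * x := by simp
        rw [this]
        calc z.re * x ≤ |z.re * x| := le_abs_self _
          _ = |z.re| * |x| := abs_mul _ _
          _ ≤ |z.re| * (1 / 4) := by gcongr
          _ = _ := by ring
      rw [h1, mul_comm]
      have := eta_nonneg x
      gcongr
  refine (norm_integral_le_of_norm_le (eta_integrable.const_mul _) (Eventually.of_forall hb)).trans ?_
  rw [integral_const_mul, eta_int, mul_one]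

lemma EE_conj (z : ℂ) : EE (conj z) = conj (EE z) := by
  unfold EW.EE EW.LTr Pool.Agent.Helper61.W.LT
  rw [← integral_conj]
  congr 1
  funext x
  rw [map_mul, ← Complex.exp_conj, map_mul, Complex.conj_ofReal]
  unfold EW.etc
  rw [Complex.conj_ofReal]

/-- real values of the transform of the bump -/
noncomputable def Er (x : ℝ) : ℝ := ∫ y : ℝ, EW.eta y * Real.exp (x * y)

lemma EE_real (x : ℝ) : EE (x : ℂ) = (Er x : ℂ) := by
  unfold EW.EE EW.LTr Pool.Agent.Helper61.W.LT Er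
  rw [← integral_complex_ofReal]
  congr 1
  funext y
  unfold EW.etc
  push_cast
  rfl

lemma Er_ge (x : ℝ) : Real.exp (-(|x| / 4)) ≤ Er x := by
  have h1 : Real.exp (-(|x| / 4)) = ∫ y : ℝ, Real.exp (-(|x| / 4)) * EW.eta y := by
    rw [integral_const_mul, eta_int, mul_one]
  rw [h1]
  have hint : Integrable fun y : ℝ => EW.eta y * Real.exp (x * y) := by
    have h2 := (etc_tf.integrable (x : ℂ)).re
    refine h2.congr (Eventually.of_forall fun y => ?_)
    show (etc y * cexp (x * y)).re = _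
    unfold EW.etc
    rw [← Complex.ofReal_mul, ← Complex.ofReal_exp, ← Complex.ofReal_mul, Complex.ofReal_re]
  unfold Er
  refine integral_mono (eta_integrable.const_mul _) hint fun y => ?_
  show Real.exp (-(|x| / 4)) * EW.eta y ≤ EW.eta y * Real.exp (x * y)
  by_cases hy : 1 / 4 ≤ |y|
  · rw [eta_supp hy]
    simp
  · push Not at hy
    rw [mul_comm]
    have := eta_nonneg y
    have h3 : -(|x| / 4) ≤ x * y := by
      have h4 : -|x * y| ≤ x * y := neg_abs_le _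
      rw [abs_mul] at h4
      have h5 : |x| * |y| ≤ |x| * (1 / 4) := by gcongr
      linarith
    gcongr

/-- a window -/
noncomputable def Bw (n : ℕ) (z : ℂ) : ℂ := EE (z / ((n + 1 : ℕ) : ℝ)) ^ (n + 1) * EE z ^ 2

lemma Bw_PW (n : ℕ) : PW (3 / 4) (Bw n) := by
  have hn : (0 : ℝ) < ((n + 1 : ℕ) : ℝ) := by positivity
  have h1 := PW_pow (PW_EE.scale hn) n
  have h2 := PW_pow PW_EE 1
  have h3 := PW_mul h1 h2
  have e : ((n : ℝ) + 1) * (1 / 4 / ((n + 1 : ℕ) : ℝ)) + (((1 : ℕ) : ℝ) + 1) * (1 / 4) = 3 / 4 := by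
    push_cast
    field_simp
    norm_num
  rw [e] at h3
  exact h3

lemma Bw_conj (n : ℕ) (z : ℂ) : Bw n (conj z) = conj (Bw n z) := by
  unfold Bw
  rw [map_mul, map_pow, map_pow, ← EE_conj, ← EE_conj, map_div₀, Complex.conj_ofReal]

lemma Bw_le {CE : ℝ} (hCE1 : 1 ≤ CE)
    (hCE : ∀ (T : ℝ), 1 ≤ T → ∀ z : ℂ, |z.re| ≤ 1 / 2 → ‖EE (z / T)‖ ≤ CE * T / (1 + |z.im|)) (n : ℕ) {z : ℂ}
    (hz : |z.re| ≤ 1 / 2) : ‖Bw n z‖ ≤ 2 * CE ^ 2 / (1 + |z.im|) ^ 2 := by
  have hn : (0 : ℝ) < ((n + 1 : ℕ) : ℝ) := by positivity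
  unfold Bw
  rw [norm_mul, norm_pow, norm_pow]
  have h1 : ‖EE (z / ((n + 1 : ℕ) : ℝ))‖ ^ (n + 1) ≤ 2 := by
    calc ‖EE (z / ((n + 1 : ℕ) : ℝ))‖ ^ (n + 1) ≤ Real.exp (|(z / ((n + 1 : ℕ) : ℝ)).re| / 4) ^ (n + 1) := by
          gcongr
          exact EE_norm_le _
      _ = Real.exp (|z.re| / 4) := by
          rw [← Real.exp_nat_mul]
          congr 1
          have : (z / (((n + 1 : ℕ) : ℝ) : ℂ)).re = z.re / ((n + 1 : ℕ) : ℝ) := Complex.div_ofReal_re _ _
          rw [this, abs_div, abs_of_pos hn]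
          field_simp
      _ ≤ Real.exp (1 / 4) := by
          apply Real.exp_le_exp.mpr
          linarith
      _ ≤ 2 := EW.exp_quarter_le
  have h2 : ‖EE z‖ ≤ CE / (1 + |z.im|) := by
    have := hCE 1 le_rfl z hz
    simpa using this
  calc ‖EE (z / ((n + 1 : ℕ) : ℝ))‖ ^ (n + 1) * ‖EE z‖ ^ 2 ≤ 2 * (CE / (1 + |z.im|)) ^ 2 := by gcongr
    _ = _ := by rw [div_pow]; ring

lemma Bw_le_far {CE : ℝ} (hCE1 : 1 ≤ CE)
    (hCE : ∀ (T : ℝ), 1 ≤ T → ∀ z : ℂ, |z.re| ≤ 1 / 2 → ‖EE (z / T)‖ ≤ CE * T / (1 + |z.im|)) (n : ℕ) {z : ℂ}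
    (hz : |z.re| ≤ 1 / 2) (hfar : 3 * CE * (n + 1) ≤ |z.im|) :
    ‖Bw n z‖ ≤ Real.exp (-(n + 1)) * (2 * CE ^ 2 / (1 + |z.im|) ^ 2) := by
  have hn : (1 : ℝ) ≤ ((n + 1 : ℕ) : ℝ) := by
    push_cast
    have : (0 : ℝ) ≤ n := Nat.cast_nonneg n
    linarith
  unfold Bw
  rw [norm_mul, norm_pow, norm_pow]
  have h0 : 0 ≤ |z.im| := abs_nonneg _
  have h1 : ‖EE (z / ((n + 1 : ℕ) : ℝ))‖ ^ (n + 1) ≤ Real.exp (-(n + 1)) := by
    have h3 := hCE _ hn z hz
    have h4 : CE * ((n + 1 : ℕ) : ℝ) / (1 + |z.im|) ≤ Real.exp (-1) := by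
      have h5 : Real.exp 1 ≤ 3 := by
        have := Real.exp_one_lt_d9
        linarith
      rw [Real.exp_neg, div_le_iff₀ (by positivity), inv_mul_eq_div, le_div_iff₀ (Real.exp_pos _)]
      push_cast
      calc CE * ((n : ℝ) + 1) * Real.exp 1 ≤ CE * ((n : ℝ) + 1) * 3 := by gcongr
        _ ≤ _ := by linarith
    calc ‖EE (z / ((n + 1 : ℕ) : ℝ))‖ ^ (n + 1) ≤ Real.exp (-1) ^ (n + 1) := by
          gcongr
          exact h3.trans h4
      _ = _ := by
          rw [← Real.exp_nat_mul]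
          congr 1
          push_cast
          ring
  have h2 : ‖EE z‖ ≤ CE / (1 + |z.im|) := by
    have := hCE 1 le_rfl z hz
    simpa using this
  calc ‖EE (z / ((n + 1 : ℕ) : ℝ))‖ ^ (n + 1) * ‖EE z‖ ^ 2 ≤ Real.exp (-(n + 1)) * (CE / (1 + |z.im|)) ^ 2 := by gcongr
    _ ≤ Real.exp (-(n + 1)) * (2 * CE ^ 2 / (1 + |z.im|) ^ 2) := by
        gcongr
        rw [div_pow]
        have : 0 ≤ CE ^ 2 / (1 + |z.im|) ^ 2 := by positivity
        have h5 : 2 * CE ^ 2 / (1 + |z.im|) ^ 2 = 2 * (CE ^ 2 / (1 + |z.im|) ^ 2) := by ring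
        rw [h5]
        linarith

lemma Bw_real (n : ℕ) (x : ℝ) : Bw n (x : ℂ) = ((Er (x / ((n + 1 : ℕ) : ℝ)) ^ (n + 1) * Er x ^ 2 : ℝ) : ℂ) := by
  unfold Bw
  rw [← Complex.ofReal_div, EE_real, EE_real]
  push_cast
  rfl

lemma Bw_real_ge (n : ℕ) {x : ℝ} (hx : |x| ≤ 1 / 2) :
    Real.exp (-(3 / 8)) ≤ Er (x / ((n + 1 : ℕ) : ℝ)) ^ (n + 1) * Er x ^ 2 := by
  have hn : (0 : ℝ) < ((n + 1 : ℕ) : ℝ) := by positivity
  have h1 := Er_ge (x / ((n + 1 : ℕ) : ℝ))
  have h2 := Er_ge x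
  have h3 : 0 ≤ Er (x / ((n + 1 : ℕ) : ℝ)) := (Real.exp_pos _).le.trans h1
  calc Real.exp (-(3 / 8)) ≤ Real.exp (-(|x| / 4)) * Real.exp (-(|x| / 4)) ^ 2 := by
        rw [← Real.exp_nat_mul, ← Real.exp_add]
        apply Real.exp_le_exp.mpr
        push_cast
        linarith
    _ = Real.exp (-(|x / ((n + 1 : ℕ) : ℝ)| / 4)) ^ (n + 1) * Real.exp (-(|x| / 4)) ^ 2 := by
        congr 1
        rw [← Real.exp_nat_mul]
        congr 1
        rw [abs_div, abs_of_pos hn]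
        field_simp
    _ ≤ _ := by gcongr

/-- zeros near a height, with decaying weights -/
lemma local_sum : ∃ C : ℝ, 1 ≤ C ∧ ∀ t : ℝ, Summable (fun ρ : Zr => mm ρ / (1 + |(zz ρ).im - t|) ^ 4) ∧
    ∑' ρ : Zr, mm ρ / (1 + |(zz ρ).im - t|) ^ 4 ≤ C * Real.log (3 + |t|) := by
  classical
  obtain ⟨C, hC1, hC⟩ := cnt
  have hsumZ : Summable fun k : ℤ => 1 / (1 + |(k : ℝ)|) ^ 2 := by
    have h1 := (Real.summable_one_div_int_add_rpow (1 / 2) 2).mpr (by norm_num)
    refine Summable.of_nonneg_of_le (fun k => by positivity) (fun k => ?_) h1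
    have hk : (k : ℝ) + 1 / 2 ≠ 0 := by
      intro h0
      have h2 : ((2 * k + 1 : ℤ) : ℝ) = 0 := by
        push_cast
        linarith
      have h3 : (2 * k + 1 : ℤ) = 0 := by exact_mod_cast h2
      omega
    have h2 : 0 < |(k : ℝ) + 1 / 2| := abs_pos.mpr hk
    have h3 : |(k : ℝ) + 1 / 2| ≤ 1 + |(k : ℝ)| := by
      calc |(k : ℝ) + 1 / 2| ≤ |(k : ℝ)| + |(1 / 2 : ℝ)| := abs_add_le _ _
        _ ≤ _ := by
          rw [abs_of_pos (by norm_num : (0 : ℝ) < 1 / 2)]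
          linarith
    rw [Real.rpow_two]
    gcongr
  set A := ∑' k : ℤ, 1 / (1 + |(k : ℝ)|) ^ 2 with hA
  have hA0 : 0 ≤ A := tsum_nonneg fun k => by positivity
  have key : ∀ (t : ℝ) (S : Finset Zr), ∑ ρ ∈ S, mm ρ / (1 + |(zz ρ).im - t|) ^ 4 ≤
      16 * C * A * Real.log (3 + |t|) := by
    intro t S
    have ht := abs_nonneg t
    have hL1 : 1 ≤ Real.log (3 + |t|) := by
      rw [Real.le_log_iff_exp_le (by linarith)]
      have := Real.exp_one_lt_d9
      linarith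
    have hmaps : ∀ ρ ∈ S, ⌊(zz ρ).im - t⌋ ∈ S.image fun ρ => ⌊(zz ρ).im - t⌋ := fun ρ hρ =>
      Finset.mem_image_of_mem _ hρ
    rw [← Finset.sum_fiberwise_of_maps_to hmaps]
    have h5 : ∀ k ∈ S.image fun ρ => ⌊(zz ρ).im - t⌋,
        ∑ ρ ∈ S.filter (fun ρ => ⌊(zz ρ).im - t⌋ = k), mm ρ / (1 + |(zz ρ).im - t|) ^ 4 ≤
          16 * C * Real.log (3 + |t|) * (1 / (1 + |(k : ℝ)|) ^ 2) := by
      intro k _
      have hk0 := abs_nonneg (k : ℝ)
      have h6 : ∀ ρ ∈ S.filter (fun ρ => ⌊(zz ρ).im - t⌋ = k),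
          (k : ℝ) ≤ (zz ρ).im - t ∧ (zz ρ).im - t < k + 1 := fun ρ hρ => by
        have h7 := (Finset.mem_filter.mp hρ).2
        have h8 := Int.floor_le ((zz ρ).im - t)
        have h9 := Int.lt_floor_add_one ((zz ρ).im - t)
        rw [h7] at h8 h9
        exact ⟨h8, h9⟩
      have h10 : ∑ ρ ∈ S.filter (fun ρ => ⌊(zz ρ).im - t⌋ = k), mm ρ ≤ C * Real.log (3 + |t + k|) := by
        refine hC (t + k) _ fun ρ hρ => ?_
        obtain ⟨h8, h9⟩ := h6 ρ hρ
        rw [abs_le]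
        constructor <;> linarith
      have h11 : Real.log (3 + |t + k|) ≤ Real.log (3 + |t|) * (1 + |(k : ℝ)|) := by
        have h12 : 3 + |t + k| ≤ (3 + |t|) * (1 + |(k : ℝ)|) := by
          have := abs_add_le t (k : ℝ)
          nlinarith
        calc Real.log (3 + |t + k|) ≤ Real.log ((3 + |t|) * (1 + |(k : ℝ)|)) :=
              Real.log_le_log (by positivity) h12
          _ = Real.log (3 + |t|) + Real.log (1 + |(k : ℝ)|) := Real.log_mul (by positivity) (by positivity)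
          _ ≤ Real.log (3 + |t|) + |(k : ℝ)| := by
              have := Real.log_le_sub_one_of_pos (show 0 < 1 + |(k : ℝ)| by positivity)
              linarith
          _ ≤ _ := by nlinarith
      calc ∑ ρ ∈ S.filter (fun ρ => ⌊(zz ρ).im - t⌋ = k), mm ρ / (1 + |(zz ρ).im - t|) ^ 4 ≤
            ∑ ρ ∈ S.filter (fun ρ => ⌊(zz ρ).im - t⌋ = k), mm ρ * (16 / (1 + |(k : ℝ)|) ^ 4) := by
            refine Finset.sum_le_sum fun ρ hρ => ?_
            obtain ⟨h8, h9⟩ := h6 ρ hρ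
            have hm : 0 ≤ mm ρ := by linarith [mm_one_le ρ]
            have h13 : (1 + |(k : ℝ)|) / 2 ≤ 1 + |(zz ρ).im - t| := by
              have h14 : |(k : ℝ)| ≤ |(zz ρ).im - t| + 1 := by
                have h15 := le_abs_self ((zz ρ).im - t)
                have h16 := neg_abs_le ((zz ρ).im - t)
                rw [abs_le]
                constructor <;> linarith
              have := abs_nonneg ((zz ρ).im - t)
              linarith
            rw [div_eq_mul_inv]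
            refine mul_le_mul_of_nonneg_left ?_ hm
            calc ((1 + |(zz ρ).im - t|) ^ 4)⁻¹ ≤ (((1 + |(k : ℝ)|) / 2) ^ 4)⁻¹ := by gcongr
              _ = 16 / (1 + |(k : ℝ)|) ^ 4 := by
                  field_simp
                  norm_num
        _ = (∑ ρ ∈ S.filter (fun ρ => ⌊(zz ρ).im - t⌋ = k), mm ρ) * (16 / (1 + |(k : ℝ)|) ^ 4) := by
            rw [Finset.sum_mul]
        _ ≤ (C * (Real.log (3 + |t|) * (1 + |(k : ℝ)|))) * (16 / (1 + |(k : ℝ)|) ^ 4) := by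
            gcongr
            refine h10.trans ?_
            gcongr
        _ = 16 * C * Real.log (3 + |t|) * (1 / (1 + |(k : ℝ)|) ^ 3) := by
            field_simp
        _ ≤ 16 * C * Real.log (3 + |t|) * (1 / (1 + |(k : ℝ)|) ^ 2) := by
            gcongr
            · linarith
            · norm_num
    refine (Finset.sum_le_sum h5).trans ?_
    rw [← Finset.mul_sum]
    calc 16 * C * Real.log (3 + |t|) * ∑ k ∈ S.image (fun ρ => ⌊(zz ρ).im - t⌋), 1 / (1 + |(k : ℝ)|) ^ 2 ≤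
          16 * C * Real.log (3 + |t|) * A := by
          gcongr
          exact hsumZ.sum_le_tsum _ fun k _ => by positivity
      _ = _ := by ring
  refine ⟨16 * C * A + 1, by linarith [show 0 ≤ 16 * C * A by positivity], fun t => ?_⟩
  have hnn : ∀ ρ : Zr, 0 ≤ mm ρ / (1 + |(zz ρ).im - t|) ^ 4 := fun ρ =>
    div_nonneg (by linarith [mm_one_le ρ]) (by positivity)
  refine ⟨summable_of_sum_le hnn (key t), ?_⟩
  have hL0 : 0 ≤ Real.log (3 + |t|) := Real.log_nonneg (by linarith [abs_nonneg t])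
  refine (Real.tsum_le_of_sum_le hnn (key t)).trans ?_
  have : 16 * C * A * Real.log (3 + |t|) ≤ (16 * C * A + 1) * Real.log (3 + |t|) := by
    gcongr
    linarith
  exact this

/-- the two translates of the window -/
noncomputable def Pf (n : ℕ) (t : ℝ) (z : ℂ) : ℂ := Bw n z * (cexp (t * z) - cexp (-(t * z)))

lemma Pf_PW (n : ℕ) {t r : ℝ} (ht : 0 ≤ t) (hr : t + 3 / 4 ≤ r) : PW r (Pf n t) := by
  have h1 := (Bw_PW n).shift (b := t) (R := r) (by linarith) hr
  have h2 := ((Bw_PW n).shift (b := -t) (R := r) (by linarith) (by linarith)).smul (-1)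
  have h3 := h1.add h2
  convert h3 using 1
  funext z
  unfold Pf
  have e : ((-t : ℝ) : ℂ) * z = -(t * z) := by
    push_cast
    ring
  rw [e]
  ring

lemma FF_Pf (n : ℕ) (t : ℝ) (ζ : ℂ) : FF (Pf n t) ζ = -(Bw n ζ * Bw n (-ζ) * (cexp (t * ζ) - cexp (-(t * ζ))) ^ 2) := by
  unfold EW.FF Pf
  have e1 : conj (Bw n (-conj ζ)) = Bw n (-ζ) := by
    rw [← Bw_conj, map_neg, Complex.conj_conj]
  have e2 : conj (cexp (t * -conj ζ)) = cexp (-(t * ζ)) := by
    rw [← Complex.exp_conj, map_mul, map_neg, Complex.conj_conj, Complex.conj_ofReal]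
    ring_nf
  have e3 : conj (cexp (-(t * -conj ζ))) = cexp (t * ζ) := by
    rw [← Complex.exp_conj, map_neg, map_mul, map_neg, Complex.conj_conj, Complex.conj_ofReal]
    ring_nf
  rw [map_mul, map_sub, e1, e2, e3]
  ring

lemma exp_diff_le {t X : ℝ} (hX : 1 ≤ X) (ht0 : 0 ≤ t) (ht : 2 * t ≤ Real.log X) (ζ : ℂ) :
    ‖(cexp (t * ζ) - cexp (-(t * ζ))) ^ 2‖ ≤ 4 * X ^ |ζ.re| := by
  have hX0 : 0 < X := by linarith
  have h1 : ‖cexp (t * ζ) - cexp (-(t * ζ))‖ ≤ 2 * Real.exp (t * |ζ.re|) := by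
    refine (norm_sub_le _ _).trans ?_
    rw [Complex.norm_exp, Complex.norm_exp]
    have e1 : ((t : ℂ) * ζ).re = t * ζ.re := by simp
    have e2 : (-((t : ℂ) * ζ)).re = -(t * ζ.re) := by simp
    rw [e1, e2]
    have h2 : t * ζ.re ≤ t * |ζ.re| := mul_le_mul_of_nonneg_left (le_abs_self _) ht0
    have h3 : -(t * ζ.re) ≤ t * |ζ.re| := by
      rw [← mul_neg]
      exact mul_le_mul_of_nonneg_left (neg_le_abs _) ht0
    have h4 := Real.exp_le_exp.mpr h2
    have h5 := Real.exp_le_exp.mpr h3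
    linarith
  rw [norm_pow]
  calc ‖cexp (t * ζ) - cexp (-(t * ζ))‖ ^ 2 ≤ (2 * Real.exp (t * |ζ.re|)) ^ 2 := by gcongr
    _ = 4 * Real.exp (2 * t * |ζ.re|) := by
        rw [mul_pow, ← Real.exp_nat_mul]
        push_cast
        ring_nf
    _ ≤ 4 * Real.exp (Real.log X * |ζ.re|) := by gcongr
    _ = _ := by rw [Real.rpow_def_of_pos hX0]

lemma FF_shift (n : ℕ) (t y : ℝ) (w : ℂ) : FF (fun z => Pf n t (z - y * I)) w = FF (Pf n t) (w - y * I) := by
  unfold EW.FF
  have : -conj w - y * I = -conj (w - y * I) := by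
    rw [map_sub, map_mul, Complex.conj_ofReal, Complex.conj_I]
    ring
  show Pf n t (w - y * I) * conj (Pf n t (-conj w - y * I)) = _
  rw [this]

/-- **Isolated zeros are seen.** -/
theorem iso_neg : ∃ C : ℝ, 3 ≤ C ∧ ∀ X : ℝ, C ≤ X → ∀ (ρ0 : Zr) (b : ℝ), 0 ≤ b →
    C * X ^ b * Real.log (3 + |(ρ0 : ℂ).im|) ≤ X ^ ((ρ0 : ℂ).re - 1 / 2) →
    (∀ ρ : Zr, ρ ≠ ρ0 → ρ ≠ reflE ρ0 → |(ρ : ℂ).im - (ρ0 : ℂ).im| ≤ C * Real.log X →
      |(ρ : ℂ).re - 1 / 2| ≤ b) →
    ∃ g : ℝ → ℂ, TF g ∧ (∀ x, x ∉ Icc (-(Real.log X / 2)) (Real.log X / 2) → g x = 0) ∧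
      (∑' ρ : Zr, tm (corr g) ρ).re < 0 := by
  classical
  obtain ⟨CE, hCE1, hCE⟩ := EE_decay
  obtain ⟨CL, hCL1, hCL⟩ := local_sum
  obtain ⟨C, hC⟩ : ∃ C, C = 12 * CE + 128 * CE ^ 4 * CL + 100 := ⟨_, rfl⟩
  have hCE4 : 1 ≤ CE ^ 4 := one_le_pow₀ hCE1
  have hC1 : 12 * CE ≤ C := by
    rw [hC]
    have : 0 < CE ^ 4 * CL := by positivity
    linarith
  have hC2 : 128 * CE ^ 4 * CL + 100 ≤ C := by
    rw [hC]
    linarith
  have hC100 : 100 ≤ C := by
    have : 0 < CE ^ 4 * CL := by positivity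
    linarith
  refine ⟨C, by linarith, fun X hX ρ0 b hb hbig hiso => ?_⟩
  have hX100 : 100 ≤ X := hC100.trans hX
  have hX0 : 0 < X := by linarith
  have hX1 : 1 ≤ X := by linarith
  have hlog : 2 ≤ Real.log X := by
    rw [Real.le_log_iff_exp_le hX0]
    have h1 := Real.exp_one_lt_d9
    have h2 : Real.exp 2 = Real.exp 1 * Real.exp 1 := by
      rw [← Real.exp_add]
      norm_num
    rw [h2]
    have := Real.exp_pos 1
    nlinarith
  obtain ⟨t0, ht0⟩ : ∃ t0, t0 = (ρ0 : ℂ).im := ⟨_, rfl⟩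
  obtain ⟨a, ha⟩ : ∃ a, a = (ρ0 : ℂ).re - 1 / 2 := ⟨_, rfl⟩
  rw [← ht0, ← ha] at hbig
  have hXb1 : 1 ≤ X ^ b := Real.one_le_rpow hX1 hb
  have hL1 : 1 ≤ Real.log (3 + |t0|) := by
    rw [Real.le_log_iff_exp_le (by positivity)]
    have := Real.exp_one_lt_d9
    have := abs_nonneg t0
    linarith
  have hXa : C ≤ X ^ a := by
    refine le_trans ?_ hbig
    calc C = C * 1 * 1 := by ring
      _ ≤ _ := by gcongr
  have ha0 : 0 < a := by
    by_contra hc
    push Not at hc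
    have := Real.rpow_le_one_of_one_le_of_nonpos hX1 hc
    linarith
  have ha1 : a ≤ 1 / 2 := by
    have := ρ0.2.2.2
    rw [ha]
    linarith
  -- the length of the window
  obtain ⟨n, hn⟩ : ∃ n : ℕ, n = ⌈2 * Real.log X⌉₊ := ⟨_, rfl⟩
  have hn1 : 2 * Real.log X ≤ n := by
    rw [hn]
    exact Nat.le_ceil _
  have hn2 : (n : ℝ) ≤ 2 * Real.log X + 1 := by
    rw [hn]
    exact (Nat.ceil_lt_add_one (by linarith)).le
  obtain ⟨t, ht⟩ : ∃ t, t = Real.log X / 2 - 3 / 4 := ⟨_, rfl⟩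
  have htn : 0 ≤ t := by
    rw [ht]
    linarith
  obtain ⟨g, hg, hgs, hgF⟩ := PW_vshift (Pf_PW n (r := Real.log X / 2) htn (by linarith)) t0
  refine ⟨g, hg, hgs, ?_⟩
  rw [re_weil hg hgF]
  simp_rw [FF_shift]
  obtain ⟨hsum4, hle4⟩ := hCL t0
  obtain ⟨K, hK⟩ : ∃ K, K = 16 * CE ^ 4 * X ^ b := ⟨_, rfl⟩
  have hK0 : 0 ≤ K := by rw [hK]; positivity
  -- the shifted zeros
  have hre : ∀ ρ : Zr, (zz ρ - t0 * I).re = (ρ : ℂ).re - 1 / 2 := by
    intro ρ
    rw [Complex.sub_re, zz_re]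
    simp
  have him : ∀ ρ : Zr, (zz ρ - t0 * I).im = (zz ρ).im - t0 := by
    intro ρ
    rw [Complex.sub_im]
    simp
  have hrelt : ∀ ρ : Zr, |(ρ : ℂ).re - 1 / 2| ≤ 1 / 2 := by
    intro ρ
    have := (cf_zeta.re_lt ρ).le
    rwa [zz_re] at this
  -- the bound for the other zeros
  have hoth : ∀ ρ : Zr, ρ ≠ ρ0 → ρ ≠ reflE ρ0 → ‖FF (Pf n t) (zz ρ - t0 * I)‖ ≤
      K * (1 / (1 + |(zz ρ).im - t0|) ^ 4) := by
    intro ρ h1 h2
    have hz1 : |(zz ρ - t0 * I).re| ≤ 1 / 2 := by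
      rw [hre]
      exact hrelt ρ
    have hz2 : |(-(zz ρ - t0 * I)).re| ≤ 1 / 2 := by
      rw [Complex.neg_re, abs_neg]
      exact hz1
    have hi2 : |(-(zz ρ - t0 * I)).im| = |(zz ρ - t0 * I).im| := by
      rw [Complex.neg_im, abs_neg]
    have he := exp_diff_le hX1 htn (show 2 * t ≤ Real.log X by rw [ht]; linarith) (zz ρ - t0 * I)
    rw [FF_Pf, norm_neg, norm_mul, norm_mul]
    obtain ⟨v, hv⟩ : ∃ v, v = |(zz ρ).im - t0| := ⟨_, rfl⟩
    have hv0 : 0 ≤ v := by rw [hv]; exact abs_nonneg _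
    rw [← hv]
    by_cases hcl : |(ρ : ℂ).im - (ρ0 : ℂ).im| ≤ C * Real.log X
    · have h3 := hiso ρ h1 h2 hcl
      have b1 := Bw_le hCE1 hCE n hz1
      have b2 := Bw_le hCE1 hCE n hz2
      rw [hi2] at b2
      rw [him, ← hv] at b1 b2
      rw [hre] at he
      have h4 : X ^ |(ρ : ℂ).re - 1 / 2| ≤ X ^ b := Real.rpow_le_rpow_of_exponent_le hX1 h3
      calc ‖Bw n (zz ρ - t0 * I)‖ * ‖Bw n (-(zz ρ - t0 * I))‖ *
            ‖(cexp (t * (zz ρ - t0 * I)) - cexp (-(t * (zz ρ - t0 * I)))) ^ 2‖ ≤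
            (2 * CE ^ 2 / (1 + v) ^ 2) * (2 * CE ^ 2 / (1 + v) ^ 2) * (4 * X ^ b) := by
            gcongr
            exact he.trans (by gcongr)
        _ = _ := by
            rw [hK]
            field_simp
            norm_num
    · push Not at hcl
      have hcl2 : C * Real.log X ≤ v := by
        rw [hv, zz_im, ht0]
        exact hcl.le
      have hfar : 3 * CE * ((n : ℝ) + 1) ≤ v := by
        refine le_trans ?_ hcl2
        have h5 : (n : ℝ) + 1 ≤ 4 * Real.log X := by linarith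
        calc 3 * CE * ((n : ℝ) + 1) ≤ 3 * CE * (4 * Real.log X) := by gcongr
          _ = 12 * CE * Real.log X := by ring
          _ ≤ _ := by gcongr
      have b1 := Bw_le_far hCE1 hCE n hz1 (by rw [him, ← hv]; exact hfar)
      have b2 := Bw_le_far hCE1 hCE n hz2 (by rw [hi2, him, ← hv]; exact hfar)
      rw [hi2] at b2
      rw [him, ← hv] at b1 b2
      rw [hre] at he
      have h4 : X ^ |(ρ : ℂ).re - 1 / 2| ≤ X := by
        calc X ^ |(ρ : ℂ).re - 1 / 2| ≤ X ^ (1 : ℝ) :=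
              Real.rpow_le_rpow_of_exponent_le hX1 (by linarith [hrelt ρ])
          _ = X := Real.rpow_one X
      have h6 : Real.exp (-((n : ℝ) + 1)) ≤ 1 / X := by
        rw [one_div, ← Real.exp_log (inv_pos.mpr hX0), Real.log_inv]
        apply Real.exp_le_exp.mpr
        linarith
      have h7 : 1 / X * (1 / X) * X ≤ 1 := by
        rw [show 1 / X * (1 / X) * X = 1 / X by field_simp, div_le_one hX0]
        exact hX1
      calc ‖Bw n (zz ρ - t0 * I)‖ * ‖Bw n (-(zz ρ - t0 * I))‖ *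
            ‖(cexp (t * (zz ρ - t0 * I)) - cexp (-(t * (zz ρ - t0 * I)))) ^ 2‖ ≤
            (1 / X * (2 * CE ^ 2 / (1 + v) ^ 2)) * (1 / X * (2 * CE ^ 2 / (1 + v) ^ 2)) * (4 * X) := by
            gcongr
            · exact b1.trans (by gcongr)
            · exact b2.trans (by gcongr)
            · exact he.trans (by gcongr)
        _ = (16 * CE ^ 4 / (1 + v) ^ 4) * (1 / X * (1 / X) * X) := by
            field_simp
            norm_num
        _ ≤ (16 * CE ^ 4 / (1 + v) ^ 4) * 1 := by gcongr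
        _ ≤ (16 * CE ^ 4 / (1 + v) ^ 4) * X ^ b := by gcongr
        _ = _ := by
            rw [hK]
            ring
  -- the zero itself
  have hself : (FF (Pf n t) (zz ρ0 - t0 * I)).re ≤ -(X ^ a / 8) := by
    have e1 : zz ρ0 - t0 * I = (a : ℂ) := by
      apply Complex.ext
      · rw [hre, Complex.ofReal_re, ha]
      · rw [him, Complex.ofReal_im, zz_im, ht0, sub_self]
    have e2 : cexp (t * (a : ℂ)) - cexp (-(t * (a : ℂ))) = ((Real.exp (t * a) - Real.exp (-(t * a)) : ℝ) : ℂ) := by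
      push_cast
      rfl
    have ha2 : |a| ≤ 1 / 2 := by rw [abs_of_pos ha0]; exact ha1
    have ha3 : |-a| ≤ 1 / 2 := by rw [abs_neg]; exact ha2
    have q1 := Bw_real_ge n ha2
    have q2 := Bw_real_ge n ha3
    have e3 : (-(a : ℂ)) = ((-a : ℝ) : ℂ) := by push_cast; rfl
    rw [e1, FF_Pf, e2, e3, Bw_real, Bw_real, ← Complex.ofReal_mul, ← Complex.ofReal_pow, ← Complex.ofReal_mul,
      ← Complex.ofReal_neg, Complex.ofReal_re]
    set q := Er (a / ((n + 1 : ℕ) : ℝ)) ^ (n + 1) * Er a ^ 2 with hq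
    set q' := Er (-a / ((n + 1 : ℕ) : ℝ)) ^ (n + 1) * Er (-a) ^ 2 with hq'
    have hq0 : 0 ≤ q := (Real.exp_pos _).le.trans q1
    have hqq : Real.exp (-(3 / 4)) ≤ q * q' := by
      calc Real.exp (-(3 / 4)) = Real.exp (-(3 / 8)) * Real.exp (-(3 / 8)) := by
            rw [← Real.exp_add]
            norm_num
        _ ≤ _ := by gcongr
    have h34 : (2 / 5 : ℝ) ≤ Real.exp (-(3 / 4)) := by
      rw [Real.exp_neg, le_inv_comm₀ (by norm_num) (Real.exp_pos _)]
      have h5 : Real.exp (3 / 4) ^ 4 = Real.exp 1 ^ 3 := by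
        rw [← Real.exp_nat_mul, ← Real.exp_nat_mul]
        norm_num
      have h6 : Real.exp 1 ^ 3 ≤ (5 / 2 : ℝ) ^ 4 := by
        have := Real.exp_one_lt_d9
        calc Real.exp 1 ^ 3 ≤ (2.7182818286 : ℝ) ^ 3 := by
              have := Real.exp_pos 1
              gcongr
          _ ≤ _ := by norm_num
      rw [← h5] at h6
      have := le_of_pow_le_pow_left₀ (by norm_num) (by norm_num) h6
      linarith
    have hsq : 2 / 5 * X ^ a - 2 ≤ (Real.exp (t * a) - Real.exp (-(t * a))) ^ 2 := by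
      have e4 : (Real.exp (t * a) - Real.exp (-(t * a))) ^ 2 = Real.exp (2 * t * a) - 2 + Real.exp (-(t * a)) ^ 2 := by
        have h7 : Real.exp (t * a) * Real.exp (-(t * a)) = 1 := by
          rw [← Real.exp_add]
          simp
        have h8 : Real.exp (2 * t * a) = Real.exp (t * a) ^ 2 := by
          rw [← Real.exp_nat_mul]
          push_cast
          ring_nf
        rw [h8]
        nlinarith
      have e5 : Real.exp (2 * t * a) = X ^ a * Real.exp (-(3 / 2 * a)) := by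
        rw [Real.rpow_def_of_pos hX0, ← Real.exp_add, ht]
        ring_nf
      have h9 : (2 / 5 : ℝ) ≤ Real.exp (-(3 / 2 * a)) := by
        refine h34.trans (Real.exp_le_exp.mpr ?_)
        linarith
      rw [e4, e5]
      have h10 : 0 ≤ X ^ a := Real.rpow_nonneg hX0.le _
      have h11 : X ^ a * (2 / 5) ≤ X ^ a * Real.exp (-(3 / 2 * a)) := by gcongr
      have h12 : 0 ≤ Real.exp (-(t * a)) ^ 2 := by positivity
      linarith
    have hXa100 : 100 ≤ X ^ a := hC100.trans hXa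
    have h13 : 2 / 5 * (2 / 5 * X ^ a - 2) ≤ q * q' * (Real.exp (t * a) - Real.exp (-(t * a))) ^ 2 := by
      have h14 : 0 ≤ 2 / 5 * X ^ a - 2 := by linarith
      have h15 : (2 / 5 : ℝ) ≤ q * q' := h34.trans hqq
      gcongr
    linarith
  have hrefl : (FF (Pf n t) (zz (reflE ρ0) - t0 * I)).re ≤ 0 := by
    have e1 : zz (reflE ρ0) - t0 * I = -conj (zz ρ0 - t0 * I) := by
      have e2 : ((reflE ρ0 : Zr) : ℂ) = 1 - conj (ρ0 : ℂ) := rfl
      apply Complex.ext
      · rw [hre, e2, Complex.neg_re, Complex.conj_re, hre]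
        simp
        ring
      · rw [him, zz_im, e2, Complex.neg_im, Complex.conj_im, him, zz_im]
        simp
    rw [e1, EW.FF_refl, Complex.conj_re]
    have : 0 ≤ X ^ a := Real.rpow_nonneg hX0.le _
    linarith
  -- comparison
  have hpt : ∀ ρ : Zr, mm ρ * (FF (Pf n t) (zz ρ - t0 * I)).re ≤
      K * (mm ρ / (1 + |(zz ρ).im - t0|) ^ 4) - (if ρ = ρ0 then X ^ a / 8 else 0) := by
    intro ρ
    have hm := mm_one_le ρ
    have hm0 : 0 ≤ mm ρ := by linarith
    have hpos : 0 ≤ K * (mm ρ / (1 + |(zz ρ).im - t0|) ^ 4) := by positivity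
    have hXa0 : 0 ≤ X ^ a := Real.rpow_nonneg hX0.le _
    split_ifs with h1
    · rw [h1] at hm ⊢
      rw [h1] at hpos
      nlinarith
    · rw [sub_zero]
      by_cases h2 : ρ = reflE ρ0
      · have : mm ρ * (FF (Pf n t) (zz ρ - t0 * I)).re ≤ 0 := by
          rw [h2] at hm0 ⊢
          exact mul_nonpos_of_nonneg_of_nonpos hm0 hrefl
        linarith
      · calc mm ρ * (FF (Pf n t) (zz ρ - t0 * I)).re ≤ mm ρ * (K * (1 / (1 + |(zz ρ).im - t0|) ^ 4)) := by
              gcongr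
              exact (Complex.re_le_norm _).trans (hoth ρ h1 h2)
          _ = _ := by ring
  have hsumL : Summable fun ρ : Zr => mm ρ * (FF (Pf n t) (zz ρ - t0 * I)).re := by
    have h1 := Complex.reCLM.summable (summable_tm hg.corr)
    refine h1.congr fun ρ => ?_
    rw [Complex.reCLM_apply]
    unfold Helper61.W.tm
    rw [LT_corr hg, hgF, hgF, Complex.re_ofReal_mul, ← FF_shift]
    rfl
  have hsumR : Summable fun ρ : Zr => K * (mm ρ / (1 + |(zz ρ).im - t0|) ^ 4) - (if ρ = ρ0 then X ^ a / 8 else 0) :=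
    (hsum4.mul_left K).sub (summable_of_hasFiniteSupport (Set.Finite.subset (Set.finite_singleton ρ0) fun ρ hρ => by
      rw [Function.mem_support] at hρ
      by_contra hc
      exact hρ (if_neg hc)))
  refine lt_of_le_of_lt (hsumL.tsum_le_tsum hpt hsumR) ?_
  rw [Summable.tsum_sub (hsum4.mul_left K) (summable_of_hasFiniteSupport (Set.Finite.subset (Set.finite_singleton ρ0) fun ρ hρ => by
      rw [Function.mem_support] at hρ
      by_contra hc
      exact hρ (if_neg hc))), tsum_mul_left, tsum_ite_eq]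
  have h1 : K * ∑' ρ : Zr, mm ρ / (1 + |(zz ρ).im - t0|) ^ 4 ≤ K * (CL * Real.log (3 + |t0|)) := by gcongr
  have h2 : K * (CL * Real.log (3 + |t0|)) = 16 * CE ^ 4 * CL * (X ^ b * Real.log (3 + |t0|)) := by
    rw [hK]
    ring
  have h3 : (128 * CE ^ 4 * CL + 100) * (X ^ b * Real.log (3 + |t0|)) ≤ X ^ a := by
    refine le_trans ?_ hbig
    rw [mul_assoc C]
    gcongr
  have h4 : 0 < X ^ b * Real.log (3 + |t0|) := by positivity
  rw [h2] at h1
  linarith

end Pool.Agent.Helper76.EX
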