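import Pool.Agent.Helper76.EX.Ass
import Pool.Agent.Helper76.EX.Bot
import Pool.Agent.Helper76.EX.Iso
import Pool.Agent.Helper76.EW.Neg
import Pool.Agent.Helper82.EX.BA
import Pool.Agent.Helper68.EX.BB

set_option autoImplicit false

/-!
# The arithmetic form of Weil's form and its negative squares
-/

namespace Pool.Agent.Helper76.EX

open Complex Filter Topology Set MeasureTheory
open scoped ComplexConjugate ContDiff
open Pool.Agent.V11271.LI (Zr zz mm reflE)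
open Pool.Agent.Helper76.EW (Tst TT TT_eq TT_sum wt wt_eq wt_summable off off_finite TF_sum)
open Pool.Agent.Helper61.W (TF LT corr tm JJ weil_eq)
open Pool.Agent.Helper42.WB (en en_eq_sq)

/-- Weil's form, by the arithmetic side of the explicit formula -/
noncomputable def Ar (g : ℝ → ℂ) : ℝ := JJ fun u => (corr g u).re

lemma Ar_eq {g : ℝ → ℂ} (h : TF g) : Ar g = (∑' ρ : Zr, tm (corr g) ρ).re := by
  rw [weil_eq h, Complex.ofReal_re]
  rfl

lemma Ar_hasSum {g : ℝ → ℂ} (h : TF g) : HasSum (wt g) (Ar g : ℂ) := by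
  have h1 := (wt_summable h).hasSum
  have h2 : ∑' ρ : Zr, wt g ρ = (Ar g : ℂ) := by
    simp_rw [wt_eq h]
    rw [weil_eq h]
    rfl
  rwa [h2] at h1

lemma corr_vanish {X : ℝ} {g : ℝ → ℂ} (h : Tst X g) {u : ℝ} (hu : Real.log X < u) : corr g u = 0 := by
  unfold Helper61.W.corr
  have : ∀ y : ℝ, g y * conj (g (y - u)) = 0 := by
    intro y
    by_cases hy : y ∈ Icc (-(Real.log X / 2)) (Real.log X / 2)
    · have h2 : y - u ∉ Icc (-(Real.log X / 2)) (Real.log X / 2) := fun h3 => by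
        have := h3.1
        have := hy.2
        linarith
      rw [h.2 _ h2, map_zero, mul_zero]
    · rw [h.2 _ hy, zero_mul]
  simp_rw [this]
  exact integral_zero _ _

/-- the form is negative definite on a space of dimension `k` -/
def NegA (X : ℝ) (k : ℕ) : Prop :=
  ∃ h : Fin k → ℝ → ℂ, (∀ j, Tst X (h j)) ∧
    ∀ a : Fin k → ℂ, a ≠ 0 → Ar (fun x => ∑ j, a j * h j x) < 0

/-- separated zeros off the line give negative squares -/
theorem negA_ge {c : ℝ} (hc0 : 0 < c) (hc : c < 4 * Real.pi) : ∃ δ X0 : ℝ, 0 < δ ∧ 1 < X0 ∧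
    ∀ X : ℝ, X0 ≤ X → ∀ S : Finset Zr,
    (∀ ρ ∈ S, |(ρ : ℂ).im| ≤ c * X ∧ 1 / 2 + Real.exp (-(δ * X / Real.log X)) ≤ (ρ : ℂ).re) →
    (∀ ρ ∈ S, ∀ ρ' ∈ S, ρ ≠ ρ' → Real.exp (-(δ * X / Real.log X)) ≤ ‖(ρ : ℂ) - ρ'‖) →
    NegA X S.card := by
  classical
  obtain ⟨δ, X0, hδ, hX0, h⟩ := index_ge2 hc0 hc
  refine ⟨δ, X0, hδ, by linarith, fun X hX S hS hsep => ?_⟩
  obtain ⟨g, hg, hneg⟩ := h X hX S hS hsep
  refine ⟨fun j => g (S.equivFin.symm j), fun j => ?_, fun a ha => ?_⟩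
  · have := hg _ (S.equivFin.symm j).2
    exact ⟨this.1.smooth, this.2⟩
  · obtain ⟨j0, hj0⟩ := Function.ne_iff.mp ha
    set b : Zr → ℂ := fun ρ => if hρ : ρ ∈ S then a (S.equivFin ⟨ρ, hρ⟩) else 0 with hb
    have e : ∀ x : ℝ, ∑ j, a j * g (S.equivFin.symm j) x = ∑ q ∈ S, b q * g q x := by
      intro x
      rw [← Finset.sum_coe_sort S (fun q => b q * g q x), ← Equiv.sum_comp S.equivFin.symm]
      refine Finset.sum_congr rfl fun j _ => ?_
      rw [hb]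
      simp
    simp_rw [e]
    have hTF : TF (fun x => ∑ q ∈ S, b q * g q x) :=
      (TF_sum S (r := Real.log X / 2) b (fun ρ hρ => (hg ρ hρ).1) (fun ρ hρ => (hg ρ hρ).2)).1
    rw [Ar_eq hTF]
    apply hneg b
    refine ⟨(S.equivFin.symm j0 : Zr), (S.equivFin.symm j0).2, ?_⟩
    rw [hb]
    simp only [Finset.coe_mem, dite_true, Subtype.coe_eta, Equiv.apply_symm_apply]
    exact hj0

/-- positivity on the functions whose transform vanishes at the zeros to the right of the line -/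
theorem posA {ε : ℝ} (hε : 0 < ε) : ∃ X0 : ℝ, 1 < X0 ∧ ∀ X : ℝ, X0 ≤ X → ∀ g : ℝ → ℂ, Tst X g → g ≠ 0 →
    (∀ ρ ∈ off (Real.exp ((1 + ε) * Real.sqrt X)), TT g (ρ : ℂ) = 0) → 0 < Ar g := by
  have hW : WL2 := fun ε' hε' => weil_lower2 hε'
  obtain ⟨L0, hL0, h⟩ := partB2 hW hε
  have h1e : 1 < Real.exp L0 := by
    rw [Real.one_lt_exp_iff]
    linarith
  refine ⟨Real.exp L0, h1e, fun X hX g hg hne hz => ?_⟩
  have hX0 : 0 < X := (Real.exp_pos _).trans_le hX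
  have hlog : L0 ≤ Real.log X := by
    rw [Real.le_log_iff_exp_le hX0]
    exact hX
  rw [Ar_eq hg.tf]
  apply h (Real.log X) hlog g hg.tf hg.2 hne
  intro ρ hρ hoff
  rw [EW.exp_sqrt hX0] at hρ
  rcases lt_or_gt_of_ne hoff with h1 | h1
  · right
    have h2 := hz (reflE ρ) ⟨by
      show 1 / 2 < (1 - conj (ρ : ℂ)).re
      simp only [Complex.sub_re, Complex.one_re, Complex.conj_re]
      linarith, by
      show |(1 - conj (ρ : ℂ)).im| < _
      simpa using hρ⟩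
    rw [TT_eq] at h2
    have e : ((reflE ρ : Zr) : ℂ) - 1 / 2 = 1 / 2 - conj (ρ : ℂ) := by
      show 1 - conj (ρ : ℂ) - 1 / 2 = _
      ring
    rw [e] at h2
    exact h2
  · left
    have h2 := hz ρ ⟨h1, hρ⟩
    rwa [TT_eq] at h2

lemma Ar_zero : Ar 0 = 0 := by
  have h : TF (0 : ℝ → ℂ) := ⟨contDiff_const, HasCompactSupport.zero⟩
  rw [Ar_eq h]
  have : ∀ ρ : Zr, tm (corr (0 : ℝ → ℂ)) ρ = 0 := by
    intro ρ
    rw [← wt_eq h]
    unfold EW.wt EW.TT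
    simp
  simp_rw [this]
  simp

/-- the number of negative squares is at most the number of zeros to the right of the line -/
theorem negA_le {H X : ℝ} (h : ∀ g : ℝ → ℂ, Tst X g → g ≠ 0 → (∀ ρ ∈ off H, TT g (ρ : ℂ) = 0) → 0 < Ar g)
    {k : ℕ} (hk : NegA X k) : k ≤ (off H).ncard := by
  classical
  obtain ⟨f, hf, hneg⟩ := hk
  by_contra hlt
  push Not at hlt
  set Z := off H with hZ
  have hfin : Z.Finite := off_finite _
  haveI := hfin.fintype
  let E : (Fin k → ℂ) →ₗ[ℂ] (Z → ℂ) :=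
    { toFun := fun a ρ => ∑ j, a j * TT (f j) ((ρ : Zr) : ℂ)
      map_add' := fun a b => by
        funext ρ
        simp only [Pi.add_apply, add_mul, Finset.sum_add_distrib]
      map_smul' := fun c a => by
        funext ρ
        simp only [Pi.smul_apply, smul_eq_mul, RingHom.id_apply, Finset.mul_sum, mul_assoc] }
  have hker : LinearMap.ker E ≠ ⊥ := by
    apply E.ker_ne_bot_of_finrank_lt
    rw [Module.finrank_fintype_fun_eq_card, Module.finrank_fintype_fun_eq_card, Fintype.card_fin,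
      ← Nat.card_eq_fintype_card]
    exact hlt
  obtain ⟨a, ha, ha0⟩ := (Submodule.ne_bot_iff _).mp hker
  have h1 := hneg a ha0
  have hT : Tst X (fun x => ∑ j, a j * f j x) := Tst.sum Finset.univ a fun j _ => hf j
  have h2 := h (fun x => ∑ j, a j * f j x) hT (by
    intro h0
    rw [h0] at h1
    exact absurd h1 (by rw [Ar_zero]; exact lt_irrefl _)) (by
    intro ρ hρ
    rw [TT_sum Finset.univ a fun j _ => (hf j).tf]
    have h3 : E a = 0 := ha
    exact congrFun h3 ⟨ρ, hρ⟩)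
  linarith

/-- monotonicity in the length of the interval -/
lemma Tst_mono {X Y : ℝ} (hX : 0 < X) (hXY : X ≤ Y) {g : ℝ → ℂ} (h : Tst X g) : Tst Y g := by
  refine ⟨h.1, fun x hx => h.2 x fun hx2 => hx ?_⟩
  have := Real.log_le_log hX hXY
  exact ⟨by linarith [hx2.1], by linarith [hx2.2]⟩

/-- the Riemann hypothesis up to height `H` gives positivity for `X ≤ (1 - ε) (log H) ^ 2` -/
theorem pos_of_height {ε : ℝ} (hε : 0 < ε) : ∃ T0 : ℝ, ∀ H : ℝ, T0 ≤ H →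
    (∀ ρ : Zr, |(ρ : ℂ).im| < H → (ρ : ℂ).re = 1 / 2) →
    ∀ X : ℝ, 1 < X → X ≤ (1 - ε) * Real.log H ^ 2 → ∀ g : ℝ → ℂ, Tst X g → g ≠ 0 → 0 < Ar g := by
  rcases le_or_gt 1 ε with h1 | h1
  · refine ⟨0, fun H _ _ X hX1 hX => ?_⟩
    exfalso
    have : (1 - ε) * Real.log H ^ 2 ≤ 0 := mul_nonpos_of_nonpos_of_nonneg (by linarith) (sq_nonneg _)
    linarith
  · -- `(1 + η) √(1 - ε) ≤ 1`
    obtain ⟨X0, hX0, h⟩ := posA (ε := ε / 2) (by positivity)
    refine ⟨Real.exp (Real.sqrt (X0 / (1 - ε))), fun H hH hRH X hX1 hX g hg hne => ?_⟩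
    have h1e : 0 < 1 - ε := by linarith
    have hH0 : 0 < H := (Real.exp_pos _).trans_le hH
    have hlog : Real.sqrt (X0 / (1 - ε)) ≤ Real.log H := by
      rw [Real.le_log_iff_exp_le hH0]
      exact hH
    have hlog0 : 0 ≤ Real.log H := (Real.sqrt_nonneg _).trans hlog
    set Y := (1 - ε) * Real.log H ^ 2 with hY
    have hXY : X0 ≤ Y := by
      have h2 : X0 / (1 - ε) ≤ Real.log H ^ 2 := by
        calc X0 / (1 - ε) = Real.sqrt (X0 / (1 - ε)) ^ 2 := (Real.sq_sqrt (by positivity)).symm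
          _ ≤ _ := by gcongr
      rw [div_le_iff₀ h1e] at h2
      rw [hY]
      linarith
    refine h Y hXY g (Tst_mono (by linarith) hX hg) hne fun ρ hρ => ?_
    exfalso
    have h3 : (1 + ε / 2) * Real.sqrt Y ≤ Real.log H := by
      have h4 : Real.sqrt Y = Real.sqrt (1 - ε) * Real.log H := by
        rw [hY, Real.sqrt_mul h1e.le, Real.sqrt_sq hlog0]
      have h5 : (1 + ε / 2) * Real.sqrt (1 - ε) ≤ 1 := by
        have h6 : Real.sqrt (1 - ε) ≤ 1 - ε / 2 := by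
          rw [Real.sqrt_le_left (by linarith)]
          nlinarith
        nlinarith [Real.sqrt_nonneg (1 - ε)]
      rw [h4, ← mul_assoc]
      calc (1 + ε / 2) * Real.sqrt (1 - ε) * Real.log H ≤ 1 * Real.log H := by gcongr
        _ = _ := one_mul _
    have h7 : Real.exp ((1 + ε / 2) * Real.sqrt Y) ≤ H := by
      calc Real.exp ((1 + ε / 2) * Real.sqrt Y) ≤ Real.exp (Real.log H) := Real.exp_le_exp.mpr h3
        _ = H := Real.exp_log hH0
    have h8 := hRH ρ (hρ.2.trans_le h7)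
    have h9 := hρ.1
    rw [h8] at h9
    exact lt_irrefl _ h9

/-- isolated zeros off the line are seen much further -/
theorem isoA : ∃ C : ℝ, 1 < C ∧ ∀ X : ℝ, C ≤ X → ∀ (ρ0 : Zr) (b : ℝ), 0 ≤ b →
    C * X ^ b * Real.log (3 + |(ρ0 : ℂ).im|) ≤ X ^ ((ρ0 : ℂ).re - 1 / 2) →
    (∀ ρ : Zr, ρ ≠ ρ0 → (ρ : ℂ) ≠ 1 - conj (ρ0 : ℂ) → |(ρ : ℂ).im - (ρ0 : ℂ).im| ≤ C * Real.log X →
      |(ρ : ℂ).re - 1 / 2| ≤ b) →
    ∃ g : ℝ → ℂ, Tst X g ∧ Ar g < 0 := by
  obtain ⟨C, hC, h⟩ := iso_neg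
  refine ⟨C, by linarith, fun X hX ρ0 b hb h1 h2 => ?_⟩
  obtain ⟨g, hg, hgs, hneg⟩ := h X hX ρ0 b hb h1 fun ρ h3 h4 => h2 ρ h3 fun h5 => h4 (Subtype.ext h5)
  exact ⟨g, ⟨hg.smooth, hgs⟩, by rw [Ar_eq hg]; exact hneg⟩

/-- the bottom of the form -/
theorem bottomA {ε : ℝ} (hε : 0 < ε) : ∃ X0 : ℝ, 1 < X0 ∧ ∀ X : ℝ, X0 ≤ X → ∃ g : ℝ → ℂ, Tst X g ∧
    ∫ x, ‖g x‖ ^ 2 = 1 ∧ |Ar g| ≤ Real.exp (-((4 * Real.pi - ε) * X)) := by
  obtain ⟨X0, hX0, h⟩ := bottom_le (ε := min ε 1) (lt_min hε one_pos) (min_le_right _ _)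
  refine ⟨X0, by linarith, fun X hX => ?_⟩
  obtain ⟨g, hg, hgs, hen, hW⟩ := h X hX
  refine ⟨g, ⟨hg.smooth, hgs⟩, ?_, ?_⟩
  · rw [← en_eq_sq]
    exact hen
  · rw [Ar_eq hg]
    refine hW.trans (Real.exp_le_exp.mpr ?_)
    have h1 : min ε 1 ≤ ε := min_le_left _ _
    have h2 : 0 ≤ X := by linarith
    have h3 : (4 * Real.pi - ε) * X ≤ (4 * Real.pi - min ε 1) * X := by gcongr
    linarith

end Pool.Agent.Helper76.EX
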