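import Pool.Agent.Helper61.W.LT

set_option autoImplicit false

/-!
# Division of a transform by linear factors, keeping the bound of the tail
-/

namespace Pool.Agent.Helper76.EX

open Complex Filter Topology Set MeasureTheory
open scoped ComplexConjugate
open Pool.Agent.Helper61.W (LT hasDerivAt_exp)

/-- continuous functions which are small outside `[-l, l]` -/
structure Tl (l E : ℝ) (G : ℝ → ℂ) : Prop where
  cont : Continuous G
  tail : ∀ x, l ≤ |x| → ‖G x‖ ≤ E * Real.exp (-2 * (|x| - l))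

variable {l E : ℝ} {G : ℝ → ℂ}

lemma Tl.bound (h : Tl l E G) : ∃ K : ℝ, 0 < K ∧ ∀ x, ‖G x‖ ≤ K * Real.exp (-2 * |x|) := by
  obtain ⟨M, hM⟩ := (isCompact_Icc (a := -l) (b := l)).exists_bound_of_continuousOn h.cont.continuousOn
  refine ⟨max 1 (max (E * Real.exp (2 * l)) (M * Real.exp (2 * l))), by positivity, fun x => ?_⟩
  rcases le_total l |x| with hx | hx
  · refine (h.tail x hx).trans ?_
    have : E * Real.exp (-2 * (|x| - l)) = E * Real.exp (2 * l) * Real.exp (-2 * |x|) := by
      rw [mul_assoc, ← Real.exp_add]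
      ring_nf
    rw [this]
    gcongr
    exact (le_max_left _ _).trans (le_max_right _ _)
  · have h1 := hM x (abs_le.mp hx)
    have h0 : 0 ≤ M := (norm_nonneg _).trans h1
    have h2 : 1 ≤ Real.exp (2 * l) * Real.exp (-2 * |x|) := by
      rw [← Real.exp_add]
      apply Real.one_le_exp
      linarith
    calc ‖G x‖ ≤ M * 1 := by linarith
      _ ≤ M * (Real.exp (2 * l) * Real.exp (-2 * |x|)) := by gcongr
      _ = M * Real.exp (2 * l) * Real.exp (-2 * |x|) := by ring
      _ ≤ _ := by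
        gcongr
        exact (le_max_right _ _).trans (le_max_right _ _)

lemma integrable_exp_neg_abs' : Integrable fun x : ℝ => Real.exp (-|x|) := by
  have h1 : IntegrableOn (fun x : ℝ => Real.exp (-|x|)) (Ioi 0) := by
    refine (integrableOn_exp_neg_Ioi 0).congr_fun (fun x hx => ?_) measurableSet_Ioi
    simp only
    rw [abs_of_pos hx]
  have h2 : IntegrableOn (fun x : ℝ => Real.exp (-|x|)) (Iic 0) := by
    have h3 : IntegrableOn (fun x : ℝ => Real.exp x) (Iic 0) := integrableOn_exp_Iic 0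
    refine h3.congr_fun (fun x hx => ?_) measurableSet_Iic
    simp only
    rw [abs_of_nonpos hx, neg_neg]
  have := h2.union h1
  rwa [Iic_union_Ioi, integrableOn_univ] at this

lemma Tl.norm_mul_exp (h : Tl l E G) : ∃ K : ℝ, 0 < K ∧ ∀ z : ℂ, |z.re| ≤ 1 → ∀ x : ℝ,
    ‖G x * cexp (z * x)‖ ≤ K * Real.exp (-|x|) := by
  obtain ⟨K, hK, hb⟩ := h.bound
  refine ⟨K, hK, fun z hz x => ?_⟩
  rw [norm_mul, Complex.norm_exp]
  have e : (z * x).re = z.re * x := by simp
  rw [e]
  have h1 : z.re * x ≤ |x| := by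
    calc z.re * x ≤ |z.re * x| := le_abs_self _
      _ = |z.re| * |x| := abs_mul _ _
      _ ≤ 1 * |x| := by gcongr
      _ = |x| := one_mul _
  calc ‖G x‖ * Real.exp (z.re * x) ≤ (K * Real.exp (-2 * |x|)) * Real.exp |x| := by
        gcongr
        exact hb x
    _ = K * Real.exp (-|x|) := by
        rw [mul_assoc, ← Real.exp_add]
        ring_nf

lemma Tl.integrable (h : Tl l E G) {z : ℂ} (hz : |z.re| ≤ 1) : Integrable fun x : ℝ => G x * cexp (z * x) := by
  obtain ⟨K, hK, hb⟩ := h.norm_mul_exp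
  refine Integrable.mono' (integrable_exp_neg_abs'.const_mul K) ?_ (Eventually.of_forall (hb z hz))
  have := h.cont
  exact Continuous.aestronglyMeasurable (by fun_prop)

lemma Tl.LT_cont (h : Tl l E G) {z : ℂ} (hz : |z.re| < 1) : ContinuousAt (LT G) z := by
  obtain ⟨K, hK, hb⟩ := h.norm_mul_exp
  unfold Helper61.W.LT
  apply continuousAt_of_dominated (bound := fun u : ℝ => K * Real.exp (-|u|))
  · exact Eventually.of_forall fun w => by
      have := h.cont
      exact Continuous.aestronglyMeasurable (by fun_prop)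
  · have h1 : ∀ᶠ w : ℂ in 𝓝 z, |w.re| < 1 := by
      have : Continuous fun w : ℂ => |w.re| := by fun_prop
      exact this.continuousAt.eventually_lt continuousAt_const hz
    filter_upwards [h1] with w hw
    exact Eventually.of_forall fun u => hb w hw.le u
  · exact integrable_exp_neg_abs'.const_mul K
  · exact Eventually.of_forall fun u => by fun_prop

lemma integral_exp_tail {a b : ℝ} (hb : b < 0) : ∫ u in Ioi a, Real.exp (b * u) = -Real.exp (b * a) / b := by
  have := integral_exp_mul_Ioi hb a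
  rw [this]

/-- the primitive -/
noncomputable def prim (G : ℝ → ℂ) (w : ℂ) (x : ℝ) : ℂ := cexp (-w * x) * ∫ u in Ioi x, G u * cexp (w * u)

lemma hasDerivAt_tail {f : ℝ → ℂ} (hf : Continuous f) (hi : Integrable f) (x : ℝ) :
    HasDerivAt (fun x => ∫ u in Ioi x, f u) (-f x) x := by
  have h1 : ∀ y : ℝ, ∫ u in Ioi y, f u = (∫ u in Ioi (0 : ℝ), f u) - ∫ u in (0 : ℝ)..y, f u := by
    intro y
    rw [← intervalIntegral.integral_interval_add_Ioi (a := 0) (b := y) hi.integrableOn hi.integrableOn]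
    ring
  rw [show (fun x => ∫ u in Ioi x, f u) = fun y => (∫ u in Ioi (0 : ℝ), f u) - ∫ u in (0 : ℝ)..y, f u from
    funext h1]
  have h2 : HasDerivAt (fun y => ∫ u in (0 : ℝ)..y, f u) (f x) x :=
    intervalIntegral.integral_hasDerivAt_right (hf.intervalIntegrable _ _)
      hf.stronglyMeasurable.stronglyMeasurableAtFilter hf.continuousAt
  exact h2.const_sub _

lemma Tl.prim_deriv (h : Tl l E G) {w : ℂ} (hw : |w.re| ≤ 1 / 2) (x : ℝ) :
    HasDerivAt (prim G w) (-w * prim G w x - G x) x := by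
  have hc : Continuous fun u : ℝ => G u * cexp (w * u) := by
    have := h.cont
    fun_prop
  have h1 := hasDerivAt_tail hc (h.integrable (by linarith)) x
  have h2 := hasDerivAt_exp (-w) x
  have h3 := h2.mul h1
  refine h3.congr_deriv ?_
  unfold prim
  have h4 : cexp (-w * x) * cexp (w * x) = 1 := by
    rw [← Complex.exp_add]
    simp
  linear_combination (-(G x)) * h4

lemma Tl.prim_tail (h : Tl l E G) (hE : 0 ≤ E) (hl : 0 ≤ l) {w : ℂ} (hw : |w.re| ≤ 1 / 2) (h0 : LT G w = 0) (x : ℝ)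
    (hx : l ≤ |x|) : ‖prim G w x‖ ≤ E * Real.exp (-2 * (|x| - l)) := by
  have hwr := abs_le.mp hw
  have hi := h.integrable (z := w) (by linarith)
  rcases le_total 0 x with hx0 | hx0
  · rw [abs_of_nonneg hx0] at hx ⊢
    unfold prim
    rw [norm_mul, Complex.norm_exp]
    have e1 : (-w * (x : ℂ)).re = -w.re * x := by simp
    rw [e1]
    have hb : ∀ u ∈ Ioi x, ‖G u * cexp (w * u)‖ ≤ E * Real.exp (2 * l) * Real.exp ((w.re - 2) * u) := by
      intro u hu
      have hu' : x < u := hu
      have h1 := h.tail u (by rw [abs_of_nonneg (by linarith)]; linarith)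
      rw [abs_of_nonneg (by linarith : (0 : ℝ) ≤ u)] at h1
      rw [norm_mul, Complex.norm_exp]
      have e2 : (w * (u : ℂ)).re = w.re * u := by simp
      rw [e2]
      calc ‖G u‖ * Real.exp (w.re * u) ≤ E * Real.exp (-2 * (u - l)) * Real.exp (w.re * u) := by gcongr
        _ = _ := by
          rw [mul_assoc, mul_assoc, ← Real.exp_add, ← Real.exp_add]
          ring_nf
    have hint : IntegrableOn (fun u : ℝ => E * Real.exp (2 * l) * Real.exp ((w.re - 2) * u)) (Ioi x) :=
      (integrableOn_exp_mul_Ioi (by linarith : w.re - 2 < 0) x).const_mul _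
    have h2 : ‖∫ u in Ioi x, G u * cexp (w * u)‖ ≤
        ∫ u in Ioi x, E * Real.exp (2 * l) * Real.exp ((w.re - 2) * u) := by
      refine (norm_integral_le_integral_norm _).trans ?_
      exact setIntegral_mono_on hi.norm.integrableOn hint measurableSet_Ioi hb
    rw [integral_const_mul, integral_exp_tail (by linarith)] at h2
    have hc : 0 < 2 - w.re := by linarith
    have h3 : -Real.exp ((w.re - 2) * x) / (w.re - 2) ≤ Real.exp ((w.re - 2) * x) := by
      have : -Real.exp ((w.re - 2) * x) / (w.re - 2) = Real.exp ((w.re - 2) * x) / (2 - w.re) := by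
        rw [← neg_sub 2 w.re, div_neg, neg_div, neg_neg]
      rw [this, div_le_iff₀ hc]
      have := Real.exp_pos ((w.re - 2) * x)
      nlinarith
    calc Real.exp (-w.re * x) * ‖∫ u in Ioi x, G u * cexp (w * u)‖ ≤
        Real.exp (-w.re * x) * (E * Real.exp (2 * l) * Real.exp ((w.re - 2) * x)) := by
          gcongr
          exact h2.trans (by gcongr)
      _ = E * (Real.exp (-w.re * x) * Real.exp (2 * l) * Real.exp ((w.re - 2) * x)) := by ring
      _ = _ := by
          rw [← Real.exp_add, ← Real.exp_add]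
          ring_nf
  · rw [abs_of_nonpos hx0] at hx ⊢
    have hsplit : (∫ u in Iic x, G u * cexp (w * u)) + ∫ u in Ioi x, G u * cexp (w * u) = 0 := by
      rw [intervalIntegral.integral_Iic_add_Ioi hi.integrableOn hi.integrableOn]
      exact h0
    have hneg : ∫ u in Ioi x, G u * cexp (w * u) = -∫ u in Iic x, G u * cexp (w * u) := by
      linear_combination hsplit
    unfold prim
    rw [hneg, norm_mul, norm_neg, Complex.norm_exp]
    have e1 : (-w * (x : ℂ)).re = -w.re * x := by simp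
    rw [e1]
    have hb : ∀ u ∈ Iic x, ‖G u * cexp (w * u)‖ ≤ E * Real.exp (2 * l) * Real.exp ((w.re + 2) * u) := by
      intro u hu
      have hu' : u ≤ x := hu
      have h1 := h.tail u (by rw [abs_of_nonpos (by linarith)]; linarith)
      rw [abs_of_nonpos (by linarith : u ≤ (0 : ℝ))] at h1
      rw [norm_mul, Complex.norm_exp]
      have e2 : (w * (u : ℂ)).re = w.re * u := by simp
      rw [e2]
      calc ‖G u‖ * Real.exp (w.re * u) ≤ E * Real.exp (-2 * (-u - l)) * Real.exp (w.re * u) := by gcongr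
        _ = _ := by
          rw [mul_assoc, mul_assoc, ← Real.exp_add, ← Real.exp_add]
          ring_nf
    have hint : IntegrableOn (fun u : ℝ => E * Real.exp (2 * l) * Real.exp ((w.re + 2) * u)) (Iic x) :=
      (integrableOn_exp_mul_Iic (by linarith : 0 < w.re + 2) x).const_mul _
    have h2 : ‖∫ u in Iic x, G u * cexp (w * u)‖ ≤
        ∫ u in Iic x, E * Real.exp (2 * l) * Real.exp ((w.re + 2) * u) := by
      refine (norm_integral_le_integral_norm _).trans ?_
      exact setIntegral_mono_on hi.norm.integrableOn hint measurableSet_Iic hb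
    rw [integral_const_mul, integral_exp_mul_Iic (by linarith : 0 < w.re + 2)] at h2
    have hc : 0 < w.re + 2 := by linarith
    have h3 : Real.exp ((w.re + 2) * x) / (w.re + 2) ≤ Real.exp ((w.re + 2) * x) := by
      rw [div_le_iff₀ hc]
      have := Real.exp_pos ((w.re + 2) * x)
      nlinarith
    calc Real.exp (-w.re * x) * ‖∫ u in Iic x, G u * cexp (w * u)‖ ≤
        Real.exp (-w.re * x) * (E * Real.exp (2 * l) * Real.exp ((w.re + 2) * x)) := by
          gcongr
          exact h2.trans (by gcongr)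
      _ = E * (Real.exp (-w.re * x) * Real.exp (2 * l) * Real.exp ((w.re + 2) * x)) := by ring
      _ = _ := by
          rw [← Real.exp_add, ← Real.exp_add]
          ring_nf

lemma Tl.prim (h : Tl l E G) (hE : 0 ≤ E) (hl : 0 ≤ l) {w : ℂ} (hw : |w.re| ≤ 1 / 2) (h0 : LT G w = 0) :
    Tl l E (prim G w) :=
  ⟨continuous_iff_continuousAt.mpr fun x => (h.prim_deriv hw x).continuousAt,
    fun x hx => h.prim_tail hE hl hw h0 x hx⟩

lemma Tl.prim_LT (h : Tl l E G) (hE : 0 ≤ E) (hl : 0 ≤ l) {w : ℂ} (hw : |w.re| ≤ 1 / 2) (h0 : LT G w = 0)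
    {z : ℂ} (hz : |z.re| ≤ 1) : (z - w) * LT (EX.prim G w) z = LT G z := by
  have hp := h.prim hE hl hw h0
  have i1 := hp.integrable hz
  have i2 := h.integrable hz
  have hd : ∀ x : ℝ, HasDerivAt (fun x : ℝ => EX.prim G w x * cexp (z * x))
      ((-w * EX.prim G w x - G x) * cexp (z * x) + EX.prim G w x * (z * cexp (z * x))) x := fun x =>
    (h.prim_deriv hw x).mul (hasDerivAt_exp z x)
  have e : ∀ x : ℝ, (-w * EX.prim G w x - G x) * cexp (z * x) + EX.prim G w x * (z * cexp (z * x)) =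
      (z - w) * (EX.prim G w x * cexp (z * x)) - G x * cexp (z * x) := fun x => by ring
  simp_rw [e] at hd
  have h1 := integral_eq_zero_of_hasDerivAt_of_integrable hd ((i1.const_mul _).sub i2) i1
  rw [integral_sub (i1.const_mul _) i2, integral_const_mul] at h1
  unfold Helper61.W.LT
  linear_combination h1

/-- one step -/
lemma Tl.step (h : Tl l E G) (hE : 0 ≤ E) (hl : 0 ≤ l) {w : ℂ} (hw : |w.re| ≤ 1 / 2) {F : ℂ → ℂ} (hF : Continuous F)
    (hLT : ∀ z : ℂ, |z.re| < 1 → LT G z = (z - w) * F z) :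
    ∃ G' : ℝ → ℂ, Tl l E G' ∧ ∀ z : ℂ, |z.re| < 1 → LT G' z = F z := by
  have h0 : LT G w = 0 := by
    rw [hLT w (by linarith), sub_self, zero_mul]
  refine ⟨EX.prim G w, h.prim hE hl hw h0, ?_⟩
  have hne : ∀ z : ℂ, |z.re| < 1 → z ≠ w → LT (EX.prim G w) z = F z := by
    intro z hz hzw
    have h1 := h.prim_LT hE hl hw h0 hz.le
    rw [hLT z hz] at h1
    exact mul_left_cancel₀ (sub_ne_zero.mpr hzw) h1
  intro z hz
  rcases eq_or_ne z w with rfl | hzw
  · have hc := (h.prim hE hl hw h0).LT_cont (z := z) hz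
    have hev : LT (EX.prim G z) =ᶠ[𝓝[≠] z] F := by
      have h1 : ∀ᶠ v : ℂ in 𝓝[≠] z, |v.re| < 1 := by
        have : Continuous fun w : ℂ => |w.re| := by fun_prop
        exact (this.continuousAt.eventually_lt continuousAt_const hz).filter_mono nhdsWithin_le_nhds
      filter_upwards [h1, self_mem_nhdsWithin] with v hv hvz
      exact hne v hv hvz
    have l1 : Tendsto (LT (EX.prim G z)) (𝓝[≠] z) (𝓝 (LT (EX.prim G z) z)) := hc.mono_left nhdsWithin_le_nhds
    have l2 : Tendsto F (𝓝[≠] z) (𝓝 (F z)) := hF.continuousAt.mono_left nhdsWithin_le_nhds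
    exact tendsto_nhds_unique (l1.congr' hev) l2
  · exact hne z hz hzw

/-- the product of the linear factors -/
noncomputable def LP (s : Multiset ℂ) (z : ℂ) : ℂ := (s.map fun w => z - w).prod

lemma LP_cons (w : ℂ) (s : Multiset ℂ) (z : ℂ) : LP (w ::ₘ s) z = (z - w) * LP s z := by
  unfold LP
  rw [Multiset.map_cons, Multiset.prod_cons]

lemma LP_zero (z : ℂ) : LP 0 z = 1 := by
  unfold LP
  simp

lemma LP_cont (s : Multiset ℂ) : Continuous (LP s) := by
  induction s using Multiset.induction_on with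
  | empty =>
    have : LP 0 = fun _ => 1 := funext LP_zero
    rw [this]
    exact continuous_const
  | cons w s ih =>
    have : LP (w ::ₘ s) = fun z => (z - w) * LP s z := funext (LP_cons w s)
    rw [this]
    exact (continuous_id.sub continuous_const).mul ih

/-- division by several linear factors -/
theorem Tl.rem (hE : 0 ≤ E) (hl : 0 ≤ l) (s : Multiset ℂ) : ∀ {G : ℝ → ℂ}, Tl l E G → (∀ w ∈ s, |w.re| ≤ 1 / 2) →
    ∀ {F : ℂ → ℂ}, Continuous F → (∀ z : ℂ, |z.re| < 1 → LT G z = LP s z * F z) →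
    ∃ G' : ℝ → ℂ, Tl l E G' ∧ ∀ z : ℂ, |z.re| < 1 → LT G' z = F z := by
  induction s using Multiset.induction_on with
  | empty =>
    intro G h _ F _ hLT
    refine ⟨G, h, fun z hz => ?_⟩
    rw [hLT z hz, LP_zero, one_mul]
  | cons w s ih =>
    intro G h hs F hF hLT
    obtain ⟨G1, h1, h2⟩ := h.step hE hl (w := w) (hs w (Multiset.mem_cons_self w s)) (F := fun z => LP s z * F z)
      ((LP_cont s).mul hF) (fun z hz => by rw [hLT z hz, LP_cons]; ring)
    exact ih h1 (fun v hv => hs v (Multiset.mem_cons_of_mem hv)) hF h2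

lemma LT_lin {G1 G2 : ℝ → ℂ} {a b z : ℂ} (h1 : Integrable fun x : ℝ => G1 x * cexp (z * x))
    (h2 : Integrable fun x : ℝ => G2 x * cexp (z * x)) :
    LT (fun x => a * G1 x + b * G2 x) z = a * LT G1 z + b * LT G2 z := by
  unfold Helper61.W.LT
  have e : ∀ x : ℝ, (a * G1 x + b * G2 x) * cexp (z * x) =
      a * (G1 x * cexp (z * x)) + b * (G2 x * cexp (z * x)) := fun x => by ring
  simp_rw [e]
  rw [integral_add (h1.const_mul a) (h2.const_mul b), integral_const_mul, integral_const_mul]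

lemma Tl.lin {E1 E2 : ℝ} {G1 G2 : ℝ → ℂ} (h1 : Tl l E1 G1) (h2 : Tl l E2 G2) (a b : ℂ) :
    Tl l (‖a‖ * E1 + ‖b‖ * E2) (fun x => a * G1 x + b * G2 x) := by
  refine ⟨(continuous_const.mul h1.cont).add (continuous_const.mul h2.cont), fun x hx => ?_⟩
  calc ‖a * G1 x + b * G2 x‖ ≤ ‖a‖ * ‖G1 x‖ + ‖b‖ * ‖G2 x‖ := by
        refine (norm_add_le _ _).trans ?_
        rw [norm_mul, norm_mul]
    _ ≤ ‖a‖ * (E1 * Real.exp (-2 * (|x| - l))) + ‖b‖ * (E2 * Real.exp (-2 * (|x| - l))) := by
        gcongr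
        · exact h1.tail x hx
        · exact h2.tail x hx
    _ = _ := by ring

/-- division by several linear factors and multiplication by one -/
theorem Tl.rem_lin (hE : 0 ≤ E) (hl : 0 ≤ l) {s : Multiset ℂ} (hs0 : s ≠ 0) {G : ℝ → ℂ} (h : Tl l E G)
    (hs : ∀ w ∈ s, |w.re| ≤ 1 / 2) {R : ℝ} (hR : ∀ w ∈ s, ‖w‖ ≤ R)
    {F : ℂ → ℂ} (hF : Continuous F) (hLT : ∀ z : ℂ, |z.re| < 1 → LT G z = LP s z * F z) (a b : ℂ) :
    ∃ G' : ℝ → ℂ, Tl l ((‖a‖ + ‖b‖ * (R + 1)) * E) G' ∧
      ∀ z : ℂ, |z.re| < 1 → LT G' z = (a + b * z) * F z := by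
  obtain ⟨w, hw⟩ := Multiset.exists_mem_of_ne_zero hs0
  obtain ⟨t, rfl⟩ := Multiset.exists_cons_of_mem hw
  have hw2 := hs w hw
  obtain ⟨G1, h1, h2⟩ := Tl.rem hE hl t h (fun v hv => hs v (Multiset.mem_cons_of_mem hv))
    (F := fun z => (z - w) * F z) ((continuous_id.sub continuous_const).mul hF)
    (fun z hz => by rw [hLT z hz, LP_cons]; ring)
  obtain ⟨G2, h3, h4⟩ := h1.step hE hl hw2 hF h2
  have h5 := h1.lin h3 b (a + b * w)
  refine ⟨_, ⟨h5.cont, fun x hx => (h5.tail x hx).trans ?_⟩, fun z hz => ?_⟩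
  · have hRw := hR w hw
    have h6 : ‖a + b * w‖ ≤ ‖a‖ + ‖b‖ * R := by
      refine (norm_add_le _ _).trans ?_
      rw [norm_mul]
      gcongr
    gcongr
    calc ‖b‖ * E + ‖a + b * w‖ * E ≤ ‖b‖ * E + (‖a‖ + ‖b‖ * R) * E := by gcongr
      _ = _ := by ring
  · rw [LT_lin (h1.integrable hz.le) (h3.integrable hz.le), h2 z hz, h4 z hz]
    ring

end Pool.Agent.Helper76.EX
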