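import Pool.Graph.R_seed8.Helper242.RK.Harnack

set_option autoImplicit false

/-!
# Variation of a zero-free function
-/

namespace Pool.Agent.Helper76.EX

open Complex Filter Topology Set MeasureTheory Metric
open Pool.Agent.Helper242.RK (exists_log)

/-- A zero-free function which is not too large compared with its value at the centre is almost constant
near the centre. -/
lemma var_le {f : ℂ → ℂ} {c : ℂ} {r M : ℝ} (hr : 0 < r) (hf : DifferentiableOn ℂ f (ball c r))
    (h0 : ∀ z ∈ ball c r, f z ≠ 0) (hM : 0 < M) (hup : ∀ z ∈ ball c r, ‖f z‖ ≤ Real.exp M * ‖f c‖)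
    {z : ℂ} (hz : ‖z - c‖ ≤ r / 2) (hs : 4 * M * ‖z - c‖ / r ≤ 1) :
    ‖f z / f c - 1‖ ≤ 8 * M * ‖z - c‖ / r := by
  obtain ⟨L, hLd, hL⟩ := exists_log (convex_ball c r) isOpen_ball ⟨c, mem_ball_self hr⟩ hf h0
  have hmem : ∀ w ∈ ball (0 : ℂ) r, c + w ∈ ball c r := by
    intro w hw
    simpa [mem_ball, dist_eq_norm] using hw
  have hcm : c ∈ ball c r := mem_ball_self hr
  have hc0 : 0 < ‖f c‖ := norm_pos_iff.mpr (h0 c hcm)
  have hre : ∀ w ∈ ball c r, (L w).re = Real.log ‖f w‖ := by
    intro w hw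
    rw [← hL w hw, norm_exp, Real.log_exp]
  have hd : DifferentiableOn ℂ (fun w => L (c + w) - L c) (ball 0 r) := by
    refine DifferentiableOn.sub_const ?_ _
    refine DifferentiableOn.comp hLd (by fun_prop) hmem
  have hmaps : Set.MapsTo (fun w => L (c + w) - L c) (ball 0 r) {z | z.re ≤ M} := by
    intro w hw
    simp only [Set.mem_ofPred_eq, sub_re]
    have h1 : (L (c + w)).re ≤ M + Real.log ‖f c‖ := by
      rw [hre _ (hmem w hw), ← Real.log_exp M, ← Real.log_mul (Real.exp_pos M).ne' hc0.ne']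
      exact Real.log_le_log (norm_pos_iff.2 (h0 _ (hmem w hw))) (hup _ (hmem w hw))
    rw [hre c hcm]
    linarith
  have hzc : z ∈ ball c r := by
    rw [mem_ball, dist_eq_norm]
    linarith
  have hzm : z - c ∈ ball (0 : ℂ) r := by
    simpa [mem_ball, dist_eq_norm] using hzc
  have h := borelCaratheodory_zero hM hd hmaps hr hzm (by simp)
  simp only [add_sub_cancel] at h
  have h1 : ‖L z - L c‖ ≤ 4 * M * ‖z - c‖ / r := by
    refine h.trans ?_
    rw [div_le_div_iff₀ (by linarith) hr]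
    have h2 : 0 ≤ M * ‖z - c‖ := by positivity
    nlinarith
  have h3 : f z / f c = cexp (L z - L c) := by
    rw [exp_sub, hL z hzc, hL c hcm]
  rw [h3]
  have h4 := Complex.norm_exp_sub_one_le (h1.trans hs)
  refine h4.trans ?_
  calc 2 * ‖L z - L c‖ ≤ 2 * (4 * M * ‖z - c‖ / r) := by gcongr
    _ = _ := by ring

end Pool.Agent.Helper76.EX
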