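import Pool.Agent.Helper76.EX.Str
import Pool.Agent.Helper76.EX.Cut
import Pool.Agent.Helper76.EX.Var
import Pool.Agent.Helper76.EW.Multi
import Pool.Agent.Helper36.EX.K12
import Pool.Agent.Helper36.EX.K3

set_option autoImplicit false

/-!
# The test function of one zero off the line
-/

namespace Pool.Agent.Helper76.EX

open Complex Filter Topology Set MeasureTheory Metric
open scoped ComplexConjugate ContDiff
open Pool.Agent.V11271.LI (Zr zz mm reflE zz_refl mm_refl mm_one_le)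
open Pool.Agent.Helper76.LW (cf_zeta Near finite_zeta)
open Pool.Agent.Helper76.EW (FF EE EE_near_one)
open Pool.Agent.Helper61.W (LT TF)

/-- the cluster of a zero and its mirror image -/
lemma exists_cluster (p : ℂ) (ro : ℝ) (hro1 : ro ≤ 1) : ∃ Γ : Finset Zr,
    ∀ ρ : Zr, ρ ∈ Γ ↔ ‖zz ρ - p‖ ≤ ro ∨ ‖zz ρ - (-conj p)‖ ≤ ro := by
  classical
  have hfin := finite_zeta (|p.im| + 1) (by positivity)
  refine ⟨hfin.toFinset.filter fun ρ => ‖zz ρ - p‖ ≤ ro ∨ ‖zz ρ - (-conj p)‖ ≤ ro, fun ρ => ?_⟩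
  rw [Finset.mem_filter, Set.Finite.mem_toFinset]
  refine ⟨fun h => h.2, fun h => ⟨?_, h⟩⟩
  show |(zz ρ).im| ≤ |p.im| + 1
  have key : |(zz ρ).im - p.im| ≤ 1 := by
    rcases h with h | h
    · have := Complex.abs_im_le_norm (zz ρ - p)
      rw [Complex.sub_im] at this
      linarith
    · have := Complex.abs_im_le_norm (zz ρ - (-conj p))
      rw [Complex.sub_im, Complex.neg_im, Complex.conj_im, neg_neg] at this
      linarith
  calc |(zz ρ).im| = |((zz ρ).im - p.im) + p.im| := by ring_nf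
    _ ≤ |(zz ρ).im - p.im| + |p.im| := abs_add_le _ _
    _ ≤ _ := by linarith

lemma norm_refl_sub (z p : ℂ) : ‖-conj z - p‖ = ‖z - (-conj p)‖ := by
  have : -conj z - p = -conj (z - (-conj p)) := by
    rw [map_sub, map_neg, Complex.conj_conj]
    ring
  rw [this, norm_neg, Complex.norm_conj]

lemma near_lin {a b p w u : ℂ} {h e : ℝ} (hu : u ≠ 0) (hp : a + b * p = u) (hb : ‖b‖ ≤ ‖u‖ / h) (hh : 0 < h)
    (he : ‖w - p‖ ≤ e * h) : Near ((a + b * w) / u) e := by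
  apply Near.of_le
  have e1 : (a + b * w) / u - 1 = b * (w - p) / u := by
    rw [div_sub_one hu]
    congr 1
    linear_combination hp
  have hu' : 0 < ‖u‖ := norm_pos_iff.mpr hu
  rw [e1, norm_div, norm_mul, div_le_iff₀ hu']
  calc ‖b‖ * ‖w - p‖ ≤ (‖u‖ / h) * (e * h) := by gcongr
    _ = e * ‖u‖ := by field_simp

lemma near_norm {x : ℂ} {a : ℝ} (h : Near x a) (ha : a ≤ 1 / 4) : ‖x‖ ≤ 2 ∧ 1 / 2 ≤ x.re := by
  have h1 := h.mono ha
  unfold Near at h1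
  have h2 : Real.exp (1 / 4) ≤ 3 / 2 := by
    have h3 : Real.exp (1 / 4) ^ (4 : ℕ) = Real.exp 1 := by
      rw [← Real.exp_nat_mul]
      norm_num
    by_contra hc
    push Not at hc
    have h4 : (3 / 2 : ℝ) ^ 4 < Real.exp (1 / 4) ^ 4 := by gcongr
    have := Real.exp_one_lt_d9
    rw [h3] at h4
    norm_num at h4
    linarith
  have h3 : ‖x - 1‖ ≤ 1 / 2 := by linarith
  constructor
  · have : ‖x‖ ≤ ‖x - 1‖ + ‖(1 : ℂ)‖ := by
      calc ‖x‖ = ‖(x - 1) + 1‖ := by ring_nf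
        _ ≤ _ := norm_add_le _ _
    rw [norm_one] at this
    linarith
  · have := Complex.abs_re_le_norm (x - 1)
    rw [Complex.sub_re, Complex.one_re] at this
    have := (abs_le.mp this).1
    linarith

theorem single2 {Y θ0 ε Ts η ro N V Mu C : ℝ} (p0 : Zr) (h0 : 0 < θ0) (h1 : θ0 < Real.pi / 2) (hY : 1 ≤ Y)
    (htail : ∀ x : ℝ, Real.log Y / 2 ≤ |x| →
      ‖Gk Y θ0 x‖ ≤ Real.exp (ε * Y) * Real.exp (-2 * (|x| - Real.log Y / 2)))
    (hro : 0 < ro) (hroh : 8 * ro ≤ (zz p0).re) (hη : 0 < η) (hη1 : η ≤ 1 / 4)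
    (hgap : ∀ ρ, ‖zz ρ - zz p0‖ ≤ ro → ‖zz ρ - zz p0‖ ≤ η * ro)
    (hN : ∀ Γ : Finset Zr, (∀ ρ ∈ Γ, |(zz ρ).im - (zz p0).im| ≤ 1) → ∑ ρ ∈ Γ, mm ρ ≤ N)
    (hV : 0 ≤ V) (hlow : ∀ (Γ : Finset Zr) (B : ℂ → ℂ), Differentiable ℂ B → (∀ z, Xi0 z = PG Γ z * B z) →
      (∀ ρ ∈ Γ, ‖zz ρ - zz p0‖ ≤ 2) → (∀ ρ, ρ ∉ Γ → ro ≤ ‖zz ρ - zz p0‖) →
      Real.exp V ≤ ‖B (zz p0)‖ * ‖Mk Y θ0 (zz p0)‖)
    (hC : ∀ z : ℂ, |z.re| ≤ 1 → ‖Xi0 z‖ ≤ C) (hC0 : 0 ≤ C)
    (hMu0 : 0 < Mu) (hMu : C * Real.exp (N * Real.log (1 / (ro / 4))) *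
      (4 * Real.exp (2 * Real.pi * Y + (‖zz p0‖ + 1))) ≤ Real.exp Mu)
    (hη2 : 16 * Mu * η ≤ 1 / 64) (hTs : 16 * (‖zz p0‖ + 1) ≤ Ts) :
    ∃ (g : ℝ → ℂ) (F τ : ℂ → ℂ), TF g ∧
      (∀ x, x ∉ Icc (-(Real.log Y / 2 + 1 / 4 / Ts)) (Real.log Y / 2 + 1 / 4 / Ts) → g x = 0) ∧
      (∀ z : ℂ, |z.re| ≤ 1 / 2 → LT g z = F z + τ z) ∧
      (FF F (zz p0)).re ≤ -(1 / 2) ∧
      (∀ ρ : Zr, ‖zz ρ - zz p0‖ ≤ ro → (FF F (zz ρ)).re ≤ 0 ∧ ‖F (zz ρ)‖ ≤ 2 ∧ ‖F (-conj (zz ρ))‖ ≤ 2) ∧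
      (∀ ρ : Zr, ro < ‖zz ρ - zz p0‖ → ro < ‖zz ρ - (-conj (zz p0))‖ → F (zz ρ) = 0) ∧
      ∀ z : ℂ, |z.re| ≤ 1 / 2 → ‖τ z‖ ≤ 2 * (Real.exp (-V) * (1 + (2 * ‖zz p0‖ + 2) / (zz p0).re) *
        Real.exp (ε * Y)) * Y * ‖EE (z / Ts)‖ := by
  classical
  set p := zz p0 with hp
  set q : ℂ := -conj p with hq
  set h := p.re with hh
  have hh0 : 0 < h := by linarith
  have hpre : |p.re| < 1 / 2 := cf_zeta.re_lt p0
  have hh1 : h < 1 / 2 := (abs_lt.mp hpre).2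
  have hro1 : ro ≤ 1 / 16 := by linarith
  have hpq : ‖p - q‖ = 2 * h := by
    have : p - q = ((2 * h : ℝ) : ℂ) := by
      apply Complex.ext
      · rw [hq]
        simp
        ring
      · rw [hq]
        simp
    rw [this, Complex.norm_real, Real.norm_of_nonneg (by linarith)]
  have hqp : p - q = 2 * (h : ℂ) := by
    apply Complex.ext
    · rw [hq]
      simp
      ring
    · rw [hq]
      simp
  have hqre : q.re = -h := by
    rw [hq]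
    simp [hh]
  have hqim : q.im = p.im := by
    rw [hq]
    simp
  have hqn : ‖q‖ = ‖p‖ := by
    rw [hq, norm_neg, Complex.norm_conj]
  have hTs0 : 0 < Ts := by
    have := norm_nonneg p
    linarith
  -- the cluster
  obtain ⟨Γ, hΓ⟩ := exists_cluster p ro (by linarith)
  have hgapq : ∀ ρ, ‖zz ρ - q‖ ≤ ro → ‖zz ρ - q‖ ≤ η * ro := by
    intro ρ hρ
    have e := norm_refl_sub (zz ρ) p
    rw [← zz_refl] at e
    rw [hq, ← e] at hρ ⊢
    exact hgap _ hρ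
  have hΓr : ∀ ρ, ρ ∈ Γ → reflE ρ ∈ Γ := by
    intro ρ hρ
    rw [hΓ] at hρ ⊢
    have e1 := norm_refl_sub (zz ρ) p
    have e2 := norm_refl_sub (zz ρ) q
    rw [← zz_refl] at e1 e2
    have e3 : -conj q = p := by
      rw [hq, map_neg, Complex.conj_conj, neg_neg]
    rw [e3] at e2
    rw [e1]
    rw [← hq]
    rw [e2]
    exact hρ.symm
  have hp0Γ : p0 ∈ Γ := by
    rw [hΓ]
    left
    rw [← hp, sub_self, norm_zero]
    exact hro.le
  obtain ⟨B, hB, hBf, hB0⟩ := exists_B Γ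
  have hΓ2 : ∀ ρ ∈ Γ, ‖zz ρ - p‖ ≤ 2 := by
    intro ρ hρ
    rcases (hΓ ρ).mp hρ with h3 | h3
    · linarith
    · have h4 : ‖zz ρ - p‖ ≤ ‖zz ρ - q‖ + ‖p - q‖ := by
        calc ‖zz ρ - p‖ = ‖(zz ρ - q) - (p - q)‖ := by ring_nf
          _ ≤ _ := norm_sub_le _ _
      rw [hpq] at h4
      change ‖zz ρ - q‖ ≤ ro at h3
      linarith
  have hΓi : ∀ ρ ∈ Γ, |(zz ρ).im - p.im| ≤ 1 := by
    intro ρ hρ
    rcases (hΓ ρ).mp hρ with h3 | h3
    · have := Complex.abs_im_le_norm (zz ρ - p)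
      rw [Complex.sub_im] at this
      linarith
    · change ‖zz ρ - q‖ ≤ ro at h3
      have := Complex.abs_im_le_norm (zz ρ - q)
      rw [Complex.sub_im, hqim] at this
      linarith
  have hΓout : ∀ ρ, ρ ∉ Γ → ro < ‖zz ρ - p‖ ∧ ro < ‖zz ρ - q‖ := by
    intro ρ hρ
    rw [hΓ] at hρ
    push Not at hρ
    exact hρ
  have hNΓ := hN Γ hΓi
  have hlowB := hlow Γ B hB hBf hΓ2 (fun ρ hρ => (hΓout ρ hρ).1.le)
  -- the function
  set B0 : ℂ → ℂ := fun z => B z * Mk Y θ0 z with hB0def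
  have hB0d : Differentiable ℂ B0 := hB.mul (Mk_diff Y θ0)
  have hB0p : Real.exp V ≤ ‖B0 p‖ := by
    rw [hB0def]
    simp only
    rw [norm_mul]
    exact hlowB
  have hB0q : ‖B0 q‖ = ‖B0 p‖ := by
    rw [hB0def]
    simp only
    rw [norm_mul, norm_mul, hq, B_symm hB.continuous hΓr hBf, Mk_refl, Complex.norm_conj]
  have hV1 : 1 ≤ Real.exp V := Real.one_le_exp hV
  have hd_p : ∀ z : ℂ, ‖z - p‖ = ro / 2 → ∀ ρ ∈ Γ, ro / 4 ≤ ‖z - zz ρ‖ := by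
    intro z hz ρ hρ
    rcases (hΓ ρ).mp hρ with h3 | h3
    · have h4 := hgap ρ h3
      have h5 : ‖z - p‖ ≤ ‖z - zz ρ‖ + ‖zz ρ - p‖ := by
        calc ‖z - p‖ = ‖(z - zz ρ) + (zz ρ - p)‖ := by ring_nf
          _ ≤ _ := norm_add_le _ _
      have h6 : η * ro ≤ 1 / 4 * ro := by gcongr
      change ‖zz ρ - p‖ ≤ η * ro at h4
      linarith
    · change ‖zz ρ - q‖ ≤ ro at h3
      have h5 : ‖p - q‖ ≤ ‖z - p‖ + ‖z - zz ρ‖ + ‖zz ρ - q‖ := by
        calc ‖p - q‖ = ‖-(z - p) + (z - zz ρ) + (zz ρ - q)‖ := by ring_nf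
          _ ≤ ‖-(z - p) + (z - zz ρ)‖ + ‖zz ρ - q‖ := norm_add_le _ _
          _ ≤ _ := by
            have := norm_add_le (-(z - p)) (z - zz ρ)
            rw [norm_neg] at this
            linarith
      linarith
  have hd_q : ∀ z : ℂ, ‖z - q‖ = ro / 2 → ∀ ρ ∈ Γ, ro / 4 ≤ ‖z - zz ρ‖ := by
    intro z hz ρ hρ
    rcases (hΓ ρ).mp hρ with h3 | h3
    · have h5 : ‖p - q‖ ≤ ‖zz ρ - p‖ + ‖z - zz ρ‖ + ‖z - q‖ := by
        calc ‖p - q‖ = ‖-(zz ρ - p) + -(z - zz ρ) + (z - q)‖ := by ring_nf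
          _ ≤ ‖-(zz ρ - p) + -(z - zz ρ)‖ + ‖z - q‖ := norm_add_le _ _
          _ ≤ _ := by
            have := norm_add_le (-(zz ρ - p)) (-(z - zz ρ))
            rw [norm_neg, norm_neg] at this
            linarith
      linarith
    · change ‖zz ρ - q‖ ≤ ro at h3
      have h4 := hgapq ρ h3
      have h5 : ‖z - q‖ ≤ ‖z - zz ρ‖ + ‖zz ρ - q‖ := by
        calc ‖z - q‖ = ‖(z - zz ρ) + (zz ρ - q)‖ := by ring_nf
          _ ≤ _ := norm_add_le _ _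
      have h6 : η * ro ≤ 1 / 4 * ro := by gcongr
      linarith
  have hup : ∀ c : ℂ, |c.re| ≤ 1 / 2 → ‖c‖ = ‖p‖ → (∀ z : ℂ, ‖z - c‖ = ro / 2 → ∀ ρ ∈ Γ, ro / 4 ≤ ‖z - zz ρ‖) →
      ∀ z ∈ ball c (ro / 2), ‖B0 z‖ ≤ Real.exp Mu := by
    intro c hc hcn hd z hz
    rw [mem_ball, dist_eq_norm] at hz
    have h3 := B_up hC hB hBf (r := ro / 2) (a := ro / 4) (N := N) (by linarith) (by linarith) hc
      (by linarith) (by linarith) hd hNΓ z hz.le
    have h4 := Mk_up (by linarith : (0:ℝ) ≤ Y) h0.le h1.le z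
    have h5 : ‖z‖ ≤ ‖p‖ + 1 := by
      have : ‖z‖ ≤ ‖z - c‖ + ‖c‖ := by
        calc ‖z‖ = ‖(z - c) + c‖ := by ring_nf
          _ ≤ _ := norm_add_le _ _
      linarith
    rw [hB0def]
    simp only
    rw [norm_mul]
    refine le_trans ?_ hMu
    gcongr
    refine h4.trans ?_
    gcongr
  have hnz : ∀ c : ℂ, |c.re| ≤ 1 / 2 → (∀ ρ, ρ ∉ Γ → ro < ‖zz ρ - c‖) → ∀ z ∈ ball c (ro / 2), B0 z ≠ 0 := by
    intro c hc hout z hz h3
    rw [mem_ball, dist_eq_norm] at hz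
    rw [hB0def] at h3
    simp only at h3
    have hzre : |z.re| ≤ 1 := by
      have h4 := Complex.abs_re_le_norm (z - c)
      rw [Complex.sub_re] at h4
      have h5 : |z.re| ≤ |z.re - c.re| + |c.re| := by
        calc |z.re| = |(z.re - c.re) + c.re| := by ring_nf
          _ ≤ _ := abs_add_le _ _
      linarith
    rcases mul_eq_zero.mp h3 with h4 | h4
    · obtain ⟨ρ, hρ, hz2⟩ := hB0 z h4
      have := hout ρ hρ
      rw [← hz2] at this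
      linarith
    · exact Mk_ne h0 h1.le hzre h4
  have hvar : ∀ c : ℂ, |c.re| ≤ 1 / 2 → ‖c‖ = ‖p‖ → ‖B0 c‖ = ‖B0 p‖ →
      (∀ z : ℂ, ‖z - c‖ = ro / 2 → ∀ ρ ∈ Γ, ro / 4 ≤ ‖z - zz ρ‖) →
      (∀ ρ, ρ ∉ Γ → ro < ‖zz ρ - c‖) → ∀ w : ℂ, ‖w - c‖ ≤ η * ro → Near (B0 w / B0 c) (1 / 64) := by
    intro c hc hcn hcB hd hout w hw
    apply Near.of_le
    have h3 : 0 < ro / 2 := by linarith
    have h4 : ‖w - c‖ ≤ ro / 2 / 2 := by
      have : η * ro ≤ 1 / 4 * ro := by gcongr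
      linarith
    have h5 : ‖w - c‖ / (ro / 2) ≤ 2 * η := by
      rw [div_le_iff₀ h3]
      linarith
    have h6 : 0 ≤ ‖w - c‖ / (ro / 2) := by positivity
    have h7 := var_le h3 (hB0d.differentiableOn) (hnz c hc hout) hMu0 (fun z hz => by
      refine (hup c hc hcn hd z hz).trans ?_
      rw [hcB]
      exact le_mul_of_one_le_right (Real.exp_pos Mu).le (hV1.trans hB0p)) h4 (by
      rw [mul_div_assoc]
      nlinarith)
    refine h7.trans ?_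
    rw [mul_div_assoc]
    nlinarith
  -- the linear factor
  have hB0pn : B0 p ≠ 0 := norm_pos_iff.mp (by linarith)
  have hB0qn : B0 q ≠ 0 := norm_pos_iff.mp (by rw [hB0q]; linarith)
  set u : ℂ := (B0 p)⁻¹ with hu
  set u' : ℂ := (B0 q)⁻¹ with hu'
  have hun : ‖u‖ ≤ Real.exp (-V) := by
    rw [hu, norm_inv, Real.exp_neg]
    gcongr
  have huu : ‖u'‖ = ‖u‖ := by
    rw [hu, hu', norm_inv, norm_inv, hB0q]
  have hu0 : u ≠ 0 := inv_ne_zero hB0pn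
  have hu'0 : u' ≠ 0 := inv_ne_zero hB0qn
  have hhc : (h : ℂ) ≠ 0 := by exact_mod_cast hh0.ne'
  set b : ℂ := (u + u') / (2 * h) with hb
  set a : ℂ := u - b * p with ha
  have hbn : ‖b‖ ≤ ‖u‖ / h := by
    rw [hb, norm_div, norm_mul, Complex.norm_real, Real.norm_of_nonneg hh0.le, Complex.norm_ofNat,
      div_le_div_iff₀ (by positivity) hh0]
    have : ‖u + u'‖ ≤ 2 * ‖u‖ := by
      have := norm_add_le u u'
      linarith
    nlinarith
  have hPp : a + b * p = u := by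
    rw [ha]
    ring
  have hPq : a + b * q = -u' := by
    have e1 : b * (p - q) = u + u' := by
      rw [hqp, hb]
      field_simp
    rw [ha]
    linear_combination -e1
  -- the kernel
  obtain ⟨s, hs1, hs2, hs3⟩ := exists_LP Γ
  have hlogY : 0 ≤ Real.log Y / 2 := div_nonneg (Real.log_nonneg hY) (by norm_num)
  have hTl : Tl (Real.log Y / 2) (Real.exp (ε * Y)) (Gk Y θ0) := ⟨Gk_cont h0 h1, htail⟩
  obtain ⟨G', hG', hG'L⟩ := hTl.rem_lin (Real.exp_pos _).le hlogY (hs3 ⟨p0, hp0Γ⟩) (fun w hw => by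
    obtain ⟨ρ, -, rfl⟩ := hs2 w hw
    exact (cf_zeta.re_lt ρ).le) (R := ‖p‖ + 1) (fun w hw => by
    obtain ⟨ρ, hρ, rfl⟩ := hs2 w hw
    rcases (hΓ ρ).mp hρ with h3 | h3
    · have : ‖zz ρ‖ ≤ ‖zz ρ - p‖ + ‖p‖ := by
        calc ‖zz ρ‖ = ‖(zz ρ - p) + p‖ := by ring_nf
          _ ≤ _ := norm_add_le _ _
      linarith
    · change ‖zz ρ - q‖ ≤ ro at h3
      have : ‖zz ρ‖ ≤ ‖zz ρ - q‖ + ‖q‖ := by
        calc ‖zz ρ‖ = ‖(zz ρ - q) + q‖ := by ring_nf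
          _ ≤ _ := norm_add_le _ _
      linarith) (F := B0) hB0d.continuous (fun z hz => by
    have := (Gk_transform (Y := Y) h0 h1 z).2
    unfold Helper61.W.LT
    rw [this, hBf, hs1, hB0def]
    ring) a b
  have hE' : 0 ≤ (‖a‖ + ‖b‖ * (‖p‖ + 1 + 1)) * Real.exp (ε * Y) := by positivity
  obtain ⟨g, hg, hgs, τ, hτ1, hτ2⟩ := hG'.smooth hlogY hE' hTs0
  refine ⟨g, fun z => (a + b * z) * B0 z * EE (z / Ts), τ, hg, hgs, fun z hz => ?_, ?_, ?_, ?_, fun z hz => ?_⟩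
  · rw [hτ1 z hz, hG'L z (by linarith)]
  · -- the value at the zero
    have hEEp : Near (EE (p / Ts)) (1 / 32) := by
      apply Near.of_le
      have h3 : ‖p / (Ts : ℂ)‖ ≤ 1 / 16 := by
        rw [norm_div, Complex.norm_real, Real.norm_of_nonneg hTs0.le, div_le_iff₀ hTs0]
        linarith
      refine (EE_near_one (by linarith)).trans (by linarith)
    have hEEq : Near (EE (q / Ts)) (1 / 32) := by
      apply Near.of_le
      have h3 : ‖q / (Ts : ℂ)‖ ≤ 1 / 16 := by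
        rw [norm_div, Complex.norm_real, Real.norm_of_nonneg hTs0.le, div_le_iff₀ hTs0, hqn]
        linarith
      refine (EE_near_one (by linarith)).trans (by linarith)
    have e1 : FF (fun z => (a + b * z) * B0 z * EE (z / Ts)) p = -(EE (p / Ts) * conj (EE (q / Ts))) := by
      unfold EW.FF
      show (a + b * p) * B0 p * EE (p / Ts) * conj ((a + b * q) * B0 q * EE (q / Ts)) = _
      rw [hPp, hPq, hu, hu', inv_mul_cancel₀ hB0pn, neg_mul, inv_mul_cancel₀ hB0qn]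
      simp
    rw [e1, Complex.neg_re]
    have := (near_norm (hEEp.mul hEEq.conj) (by norm_num)).2
    linarith
  · intro ρ hρ
    have hw : ‖zz ρ - p‖ ≤ η * ro := hgap ρ hρ
    have hw' : ‖-conj (zz ρ) - q‖ ≤ η * ro := by
      have : -conj (zz ρ) - q = -conj (zz ρ - p) := by
        rw [hq, map_sub]
        ring
      rw [this, norm_neg, Complex.norm_conj]
      exact hw
    have hηro : η * ro ≤ 1 / 32 * h := by nlinarith
    have key : ∀ (c w uc : ℂ), |c.re| ≤ 1 / 2 → ‖c‖ = ‖p‖ → ‖B0 c‖ = ‖B0 p‖ →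
        (∀ z : ℂ, ‖z - c‖ = ro / 2 → ∀ ρ ∈ Γ, ro / 4 ≤ ‖z - zz ρ‖) →
        (∀ ρ, ρ ∉ Γ → ro < ‖zz ρ - c‖) → ‖uc‖ = ‖u‖ → a + b * c = uc → ‖w - c‖ ≤ η * ro →
        ∃ X : ℂ, Near X (1 / 32 + 1 / 64 + 1 / 32) ∧ (a + b * w) * B0 w * EE (w / Ts) = (uc * B0 c) * X := by
      intro c w uc hc hcn hcB hd hout huc hPc hwc
      have huc0 : uc ≠ 0 := by
        rw [← norm_pos_iff, huc, norm_pos_iff]
        exact hu0
      have hBc0 : B0 c ≠ 0 := by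
        rw [← norm_pos_iff, hcB, norm_pos_iff]
        exact hB0pn
      have n1 := near_lin (w := w) (e := 1 / 32) huc0 hPc (by rw [huc]; exact hbn) hh0 (hwc.trans hηro)
      have n2 := hvar c hc hcn hcB hd hout w hwc
      have n3 : Near (EE (w / Ts)) (1 / 32) := by
        apply Near.of_le
        have h3 : ‖w / (Ts : ℂ)‖ ≤ 1 / 16 := by
          rw [norm_div, Complex.norm_real, Real.norm_of_nonneg hTs0.le, div_le_iff₀ hTs0]
          have : ‖w‖ ≤ ‖w - c‖ + ‖c‖ := by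
            calc ‖w‖ = ‖(w - c) + c‖ := by ring_nf
              _ ≤ _ := norm_add_le _ _
          linarith
        refine (EE_near_one (by linarith)).trans (by linarith)
      refine ⟨_, (n1.mul n2).mul n3, ?_⟩
      field_simp
    obtain ⟨X1, n1, e1⟩ := key p (zz ρ) u hpre.le rfl rfl hd_p (fun ρ hρ => (hΓout ρ hρ).1) rfl hPp hw
    obtain ⟨X2, n2, e2⟩ := key q (-conj (zz ρ)) (-u') (by rw [hqre, abs_neg, abs_of_pos hh0]; exact hh1.le) hqn
      hB0q hd_q (fun ρ hρ => (hΓout ρ hρ).2) (by rw [norm_neg, huu]) hPq hw'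
    have e1' : (a + b * zz ρ) * B0 (zz ρ) * EE (zz ρ / Ts) = X1 := by
      rw [e1, hu, inv_mul_cancel₀ hB0pn, one_mul]
    have e2' : (a + b * -conj (zz ρ)) * B0 (-conj (zz ρ)) * EE (-conj (zz ρ) / Ts) = -X2 := by
      rw [e2, hu', neg_mul, inv_mul_cancel₀ hB0qn, neg_one_mul]
    refine ⟨?_, ?_, ?_⟩
    · unfold EW.FF
      show ((a + b * zz ρ) * B0 (zz ρ) * EE (zz ρ / Ts) *
        conj ((a + b * -conj (zz ρ)) * B0 (-conj (zz ρ)) * EE (-conj (zz ρ) / Ts))).re ≤ 0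
      rw [e1', e2', map_neg, mul_neg, Complex.neg_re]
      have := (n1.mul n2.conj).re_nonneg (by norm_num)
      linarith
    · show ‖(a + b * zz ρ) * B0 (zz ρ) * EE (zz ρ / Ts)‖ ≤ 2
      rw [e1']
      exact (near_norm n1 (by norm_num)).1
    · show ‖(a + b * -conj (zz ρ)) * B0 (-conj (zz ρ)) * EE (-conj (zz ρ) / Ts)‖ ≤ 2
      rw [e2', norm_neg]
      exact (near_norm n2 (by norm_num)).1
  · intro ρ h3 h4
    show (a + b * zz ρ) * B0 (zz ρ) * EE (zz ρ / Ts) = 0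
    have hnot : ρ ∉ Γ := by
      rw [hΓ]
      push Not
      exact ⟨h3, h4⟩
    have h5 : Xi0 (zz ρ) = 0 := by
      obtain ⟨B1, -, hB1, -⟩ := exists_B {ρ}
      rw [hB1]
      unfold PG
      have hne : analyticOrderNatAt riemannZeta (ρ : ℂ) ≠ 0 := by
        intro h6
        have := mm_one_le ρ
        unfold V11271.LI.mm at this
        rw [h6] at this
        norm_num at this
      rw [Finset.prod_singleton, sub_self, zero_pow hne, zero_mul]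
    have h6 : PG Γ (zz ρ) ≠ 0 := PG_ne fun σ hσ he => hnot (by rw [zz_inj he]; exact hσ)
    have h7 : B (zz ρ) = 0 := by
      have := hBf (zz ρ)
      rw [h5] at this
      exact (mul_eq_zero.mp this.symm).resolve_left h6
    rw [hB0def]
    simp only
    rw [h7]
    ring
  · refine (hτ2 z hz).trans ?_
    have h3 : Real.exp (2 * (Real.log Y / 2)) = Y := by
      rw [show 2 * (Real.log Y / 2) = Real.log Y by ring, Real.exp_log (by linarith)]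
    rw [h3]
    have h4 : ‖a‖ + ‖b‖ * (‖p‖ + 1 + 1) ≤ Real.exp (-V) * (1 + (2 * ‖p‖ + 2) / h) := by
      have h5 : ‖a‖ ≤ ‖u‖ + ‖b‖ * ‖p‖ := by
        rw [ha]
        refine (norm_sub_le _ _).trans ?_
        rw [norm_mul]
      calc ‖a‖ + ‖b‖ * (‖p‖ + 1 + 1) ≤ (‖u‖ + ‖b‖ * ‖p‖) + ‖b‖ * (‖p‖ + 1 + 1) := by gcongr
        _ = ‖u‖ + ‖b‖ * (2 * ‖p‖ + 2) := by ring
        _ ≤ ‖u‖ + (‖u‖ / h) * (2 * ‖p‖ + 2) := by gcongr
        _ = ‖u‖ * (1 + (2 * ‖p‖ + 2) / h) := by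
          field_simp
        _ ≤ _ := by gcongr
    gcongr

end Pool.Agent.Helper76.EX
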