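import Pool.Agent.Helper68.EX.L
import Pool.Agent.Helper76.EX.Rem

set_option autoImplicit false

/-!
# Structure of the quotient of `ξ` by the zeros in a finite set
-/

namespace Pool.Agent.Helper76.EX

open Complex Filter Topology Set MeasureTheory Metric
open scoped ComplexConjugate
open Pool.Agent.V11271.LI (Zr zz mm reflE zz_refl mm_refl mm_one_le)
open Pool.Agent.Helper242.KK (Ph Ph_even Ph_pos Ph_upper continuous_Ph FT FT_neg norm_FT_le_im differentiable_FT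
  integrable_FT)
open Pool.Agent.Helper76.LW (cf_zeta)

lemma Xi0_eq' : Xi0 = fun z => FT Ph (-(I * z)) := funext Xi0_eq_FT

lemma Xi0_neg (z : ℂ) : Xi0 (-z) = Xi0 z := by
  rw [Xi0_eq_FT, Xi0_eq_FT, mul_neg, neg_neg, ← FT_neg Ph_even]

lemma Xi0_conj (z : ℂ) : Xi0 (conj z) = conj (Xi0 z) := by
  unfold Xi0
  rw [← integral_conj]
  congr 1
  funext x
  rw [map_mul, Complex.conj_ofReal, ← Complex.exp_conj, map_mul, Complex.conj_ofReal]

lemma Xi0_refl (z : ℂ) : Xi0 (-conj z) = conj (Xi0 z) := by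
  rw [Xi0_neg, Xi0_conj]

lemma Xi0_bound : ∃ C : ℝ, 1 ≤ C ∧ ∀ z : ℂ, |z.re| ≤ 1 → ‖Xi0 z‖ ≤ C := by
  obtain ⟨A, -, hA⟩ := Ph_upper
  have hc : Continuous fun y : ℝ => FT Ph ((y : ℂ) * I) :=
    (differentiable_FT continuous_Ph hA).continuous.comp (by fun_prop)
  obtain ⟨M, hM⟩ := (isCompact_Icc (a := (-1 : ℝ)) (b := 1)).exists_bound_of_continuousOn hc.continuousOn
  refine ⟨max M 1, le_max_right _ _, fun z hz => ?_⟩
  rw [Xi0_eq_FT]
  refine (norm_FT_le_im continuous_Ph (fun t => (Ph_pos t).le) hA _).trans ?_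
  refine (hM _ ?_).trans (le_max_left _ _)
  have : (-(I * z)).im = -z.re := by simp
  rw [this]
  have := abs_le.mp hz
  constructor <;> linarith

lemma Xi0_zero_pos : ∃ a : ℝ, 0 < a ∧ ‖Xi0 0‖ = a := by
  refine ⟨‖Xi0 0‖, ?_, rfl⟩
  rw [norm_pos_iff]
  obtain ⟨A, -, hA⟩ := Ph_upper
  rw [Xi0_eq_FT]
  have := Pool.Agent.Helper242.KK.FT_zero_ne continuous_Ph hA Ph_pos
  simpa using this

lemma mm_nat (ρ : Zr) : ((analyticOrderNatAt riemannZeta (ρ : ℂ) : ℕ) : ℝ) = mm ρ := rfl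

lemma PG_refl {Γ : Finset Zr} (hΓ : ∀ ρ, ρ ∈ Γ → reflE ρ ∈ Γ) (z : ℂ) : ‖PG Γ (-conj z)‖ = ‖PG Γ z‖ := by
  classical
  have hinv : ∀ ρ : Zr, reflE (reflE ρ) = ρ := fun ρ => Pool.Agent.V11271.LI.refl0_refl0 ρ
  unfold PG
  rw [norm_prod, norm_prod]
  refine Finset.prod_bij' (fun ρ _ => reflE ρ) (fun ρ _ => reflE ρ) (fun ρ hρ => hΓ ρ hρ) (fun ρ hρ => hΓ ρ hρ)
    (fun ρ _ => hinv ρ) (fun ρ _ => hinv ρ) (fun ρ hρ => ?_)
  have h1 : analyticOrderNatAt riemannZeta ((reflE ρ : Zr) : ℂ) = analyticOrderNatAt riemannZeta (ρ : ℂ) := by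
    have := mm_refl ρ
    unfold mm at this
    exact_mod_cast this
  rw [h1, norm_pow, norm_pow]
  congr 1
  rw [zz_refl]
  have : -conj z - zz ρ = -conj (z - -conj (zz ρ)) := by
    rw [map_sub, map_neg, Complex.conj_conj]
    ring
  rw [this, norm_neg, Complex.norm_conj]

lemma PG_ge {Γ : Finset Zr} {z : ℂ} {a N : ℝ} (ha : 0 < a) (ha1 : a ≤ 1) (h : ∀ ρ ∈ Γ, a ≤ ‖z - zz ρ‖)
    (hN : ∑ ρ ∈ Γ, mm ρ ≤ N) : Real.exp (-(N * Real.log (1 / a))) ≤ ‖PG Γ z‖ := by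
  have hlog : 0 ≤ Real.log (1 / a) := Real.log_nonneg (by rw [le_div_iff₀ ha]; linarith)
  have h1 : ∏ ρ ∈ Γ, a ^ analyticOrderNatAt riemannZeta (ρ : ℂ) ≤ ‖PG Γ z‖ := by
    unfold PG
    rw [norm_prod]
    refine Finset.prod_le_prod (fun ρ _ => by positivity) fun ρ hρ => ?_
    rw [norm_pow]
    gcongr
    exact h ρ hρ
  refine le_trans ?_ h1
  rw [Finset.prod_pow_eq_pow_sum]
  have h2 : a = Real.exp (-Real.log (1 / a)) := by
    rw [one_div, Real.log_inv, neg_neg, Real.exp_log ha]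
  have h3 : a ^ (∑ ρ ∈ Γ, analyticOrderNatAt riemannZeta (ρ : ℂ)) =
      Real.exp (-((∑ ρ ∈ Γ, mm ρ) * Real.log (1 / a))) := by
    conv_lhs => rw [h2]
    rw [← Real.exp_nat_mul]
    congr 1
    push_cast
    unfold mm
    ring
  rw [h3]
  apply Real.exp_le_exp.mpr
  have := mul_le_mul_of_nonneg_right hN hlog
  linarith

lemma LP_add (s t : Multiset ℂ) (z : ℂ) : LP (s + t) z = LP s z * LP t z := by
  unfold LP
  rw [Multiset.map_add, Multiset.prod_add]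

lemma LP_replicate (n : ℕ) (w z : ℂ) : LP (Multiset.replicate n w) z = (z - w) ^ n := by
  unfold LP
  rw [Multiset.map_replicate, Multiset.prod_replicate]

lemma exists_LP (Γ : Finset Zr) : ∃ s : Multiset ℂ, (∀ z, LP s z = PG Γ z) ∧ (∀ w ∈ s, ∃ ρ ∈ Γ, w = zz ρ) ∧
    (Γ.Nonempty → s ≠ 0) := by
  classical
  induction Γ using Finset.induction_on with
  | empty =>
    refine ⟨0, fun z => ?_, fun w hw => by simp at hw, fun h => by simp at h⟩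
    rw [LP_zero]
    simp [PG]
  | insert ρ Γ hρ ih =>
    obtain ⟨s, h1, h2, h3⟩ := ih
    refine ⟨Multiset.replicate (analyticOrderNatAt riemannZeta (ρ : ℂ)) (zz ρ) + s, fun z => ?_, fun w hw => ?_,
      fun _ h0 => ?_⟩
    · rw [LP_add, LP_replicate, h1]
      unfold PG
      rw [Finset.prod_insert hρ]
    · rw [Multiset.mem_add] at hw
      rcases hw with hw | hw
      · exact ⟨ρ, Finset.mem_insert_self _ _, Multiset.eq_of_mem_replicate hw⟩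
      · obtain ⟨σ, hσ, e⟩ := h2 w hw
        exact ⟨σ, Finset.mem_insert_of_mem hσ, e⟩
    · have h4 : Multiset.replicate (analyticOrderNatAt riemannZeta (ρ : ℂ)) (zz ρ) = 0 := by
        rw [add_eq_zero] at h0
        exact h0.1
      have h5 := congrArg Multiset.card h4
      rw [Multiset.card_replicate, Multiset.card_zero] at h5
      have h6 := mm_one_le ρ
      unfold mm at h6
      rw [h5] at h6
      norm_num at h6

/-- the symmetry of the quotient -/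
lemma B_symm {Γ : Finset Zr} {B : ℂ → ℂ} (hB : Continuous B) (hΓ : ∀ ρ, ρ ∈ Γ → reflE ρ ∈ Γ)
    (h : ∀ z, Xi0 z = PG Γ z * B z) (z : ℂ) : ‖B (-conj z)‖ = ‖B z‖ := by
  classical
  have hdense : Dense (↑(Γ.image zz) : Set ℂ)ᶜ :=
    (Γ.image zz).finite_toSet.countable.dense_compl ℝ
  have h1 : (fun z => ‖B (-conj z)‖) = fun z => ‖B z‖ := by
    refine Continuous.ext_on hdense (by fun_prop) (by fun_prop) fun z hz => ?_
    have h2 : ∀ ρ ∈ Γ, z ≠ zz ρ := by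
      intro ρ hρ he
      apply hz
      rw [Finset.mem_coe, Finset.mem_image]
      exact ⟨ρ, hρ, he.symm⟩
    have h3 : 0 < ‖PG Γ z‖ := norm_pos_iff.mpr (PG_ne h2)
    have h4 := congrArg norm (h z)
    have h5 := congrArg norm (h (-conj z))
    rw [norm_mul] at h4 h5
    rw [Xi0_refl, Complex.norm_conj, PG_refl hΓ] at h5
    apply mul_left_cancel₀ h3.ne'
    rw [← h5, h4]
  exact congrFun h1 z

/-- the upper bound of the quotient near a point -/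
lemma B_up {C : ℝ} (hC : ∀ z : ℂ, |z.re| ≤ 1 → ‖Xi0 z‖ ≤ C) {Γ : Finset Zr} {B : ℂ → ℂ} (hB : Differentiable ℂ B)
    (h : ∀ z, Xi0 z = PG Γ z * B z) {q : ℂ} {r a N : ℝ} (hr : 0 < r) (hr1 : r ≤ 1 / 2) (hq : |q.re| ≤ 1 / 2)
    (ha : 0 < a) (ha1 : a ≤ 1) (hd : ∀ z : ℂ, ‖z - q‖ = r → ∀ ρ ∈ Γ, a ≤ ‖z - zz ρ‖)
    (hN : ∑ ρ ∈ Γ, mm ρ ≤ N) : ∀ z : ℂ, ‖z - q‖ ≤ r → ‖B z‖ ≤ C * Real.exp (N * Real.log (1 / a)) := by
  intro z hz
  have hsph : ∀ w ∈ frontier (ball q r), ‖B w‖ ≤ C * Real.exp (N * Real.log (1 / a)) := by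
    intro w hw
    rw [frontier_ball _ hr.ne', mem_sphere_iff_norm] at hw
    have h1 := PG_ge ha ha1 (hd w hw) hN
    have h2 := congrArg norm (h w)
    rw [norm_mul] at h2
    have hre : |w.re| ≤ 1 := by
      have h3 := Complex.abs_re_le_norm (w - q)
      rw [hw, Complex.sub_re] at h3
      have h4 : |w.re| ≤ |w.re - q.re| + |q.re| := by
        calc |w.re| = |(w.re - q.re) + q.re| := by ring_nf
          _ ≤ _ := abs_add_le _ _
      linarith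
    have h3 := hC w hre
    have h4 : Real.exp (-(N * Real.log (1 / a))) * ‖B w‖ ≤ C := by
      refine le_trans ?_ h3
      rw [h2]
      gcongr
    calc ‖B w‖ = (Real.exp (-(N * Real.log (1 / a))) * ‖B w‖) * Real.exp (N * Real.log (1 / a)) := by
          rw [mul_comm (Real.exp _) ‖B w‖, mul_assoc, ← Real.exp_add]
          simp
      _ ≤ _ := by gcongr
  have hz' : z ∈ closure (ball q r) := by
    rw [closure_ball _ hr.ne', mem_closedBall, dist_eq_norm]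
    exact hz
  exact Complex.norm_le_of_forall_mem_frontier_norm_le isBounded_ball hB.diffContOnCl hsph hz'

/-- weighted counting -/
lemma wcount : ∃ b : ℝ, 1 ≤ b ∧ ∀ (γ : ℝ) (Γ : Finset Zr), (∀ ρ ∈ Γ, |(zz ρ).im - γ| ≤ 1) →
    ∑ ρ ∈ Γ, mm ρ ≤ b * Real.log (3 + |γ|) := by
  classical
  obtain ⟨B, hB, h⟩ := cf_zeta.loc
  refine ⟨6 * B + 1, by linarith, fun γ Γ hΓ => ?_⟩
  have hl3 : 1 ≤ Real.log (3 + |γ|) := by
    rw [Real.le_log_iff_exp_le (by positivity)]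
    have := Real.exp_one_lt_d9
    have := abs_nonneg γ
    linarith
  have hone : ∀ n : ℤ, |(n : ℝ) - γ| ≤ 2 → ∀ S : Finset Zr, (∀ ρ ∈ S, ⌊(zz ρ).im⌋ = n) →
      ∑ ρ ∈ S, mm ρ ≤ B * (2 * Real.log (3 + |γ|)) := by
    intro n hn S hS
    refine (h n S hS).trans ?_
    have h1 : |(n : ℝ)| ≤ |γ| + 2 := by
      calc |(n : ℝ)| = |((n : ℝ) - γ) + γ| := by ring_nf
        _ ≤ |(n : ℝ) - γ| + |γ| := abs_add_le _ _
        _ ≤ _ := by linarith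
    have h2 : Real.log (2 + |(n : ℝ)|) ≤ 2 * Real.log (3 + |γ|) := by
      have h3 : Real.log ((3 + |γ|) ^ 2) = 2 * Real.log (3 + |γ|) := by
        rw [Real.log_pow]
        push_cast
        ring
      rw [← h3]
      apply Real.log_le_log (by positivity)
      have := abs_nonneg γ
      nlinarith
    gcongr
  have hcov : Γ ⊆ ((Γ.filter fun ρ => ⌊(zz ρ).im⌋ = ⌊γ⌋ - 1) ∪ (Γ.filter fun ρ => ⌊(zz ρ).im⌋ = ⌊γ⌋)) ∪
      (Γ.filter fun ρ => ⌊(zz ρ).im⌋ = ⌊γ⌋ + 1) := by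
    intro ρ hρ
    have h1 := abs_le.mp (hΓ ρ hρ)
    have h2 : ⌊γ⌋ - 1 ≤ ⌊(zz ρ).im⌋ := by
      rw [← Int.floor_sub_one]
      exact Int.floor_le_floor (by linarith [h1.1])
    have h3 : ⌊(zz ρ).im⌋ ≤ ⌊γ⌋ + 1 := by
      rw [← Int.floor_add_one]
      exact Int.floor_le_floor (by linarith [h1.2])
    simp only [Finset.mem_union, Finset.mem_filter]
    have h4 : ⌊(zz ρ).im⌋ = ⌊γ⌋ - 1 ∨ ⌊(zz ρ).im⌋ = ⌊γ⌋ ∨ ⌊(zz ρ).im⌋ = ⌊γ⌋ + 1 := by omega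
    tauto
  have hf1 := Int.floor_le γ
  have hf2 := Int.lt_floor_add_one γ
  have hb1 := hone (⌊γ⌋ - 1) (by push_cast; rw [abs_le]; constructor <;> linarith)
    (Γ.filter fun ρ => ⌊(zz ρ).im⌋ = ⌊γ⌋ - 1) fun ρ hρ => (Finset.mem_filter.mp hρ).2
  have hb2 := hone ⌊γ⌋ (by rw [abs_le]; constructor <;> linarith)
    (Γ.filter fun ρ => ⌊(zz ρ).im⌋ = ⌊γ⌋) fun ρ hρ => (Finset.mem_filter.mp hρ).2
  have hb3 := hone (⌊γ⌋ + 1) (by push_cast; rw [abs_le]; constructor <;> linarith)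
    (Γ.filter fun ρ => ⌊(zz ρ).im⌋ = ⌊γ⌋ + 1) fun ρ hρ => (Finset.mem_filter.mp hρ).2
  have hun : ∀ s t : Finset Zr, ∑ ρ ∈ s ∪ t, mm ρ ≤ ∑ ρ ∈ s, mm ρ + ∑ ρ ∈ t, mm ρ := by
    intro s t
    rw [← Finset.sum_union_inter]
    have : 0 ≤ ∑ ρ ∈ s ∩ t, mm ρ := Finset.sum_nonneg fun ρ _ => by linarith [mm_one_le ρ]
    linarith
  have h5 := Finset.sum_le_sum_of_subset_of_nonneg hcov (f := mm) fun ρ _ _ => by linarith [mm_one_le ρ]
  have h6 := hun ((Γ.filter fun ρ => ⌊(zz ρ).im⌋ = ⌊γ⌋ - 1) ∪ (Γ.filter fun ρ => ⌊(zz ρ).im⌋ = ⌊γ⌋))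
    (Γ.filter fun ρ => ⌊(zz ρ).im⌋ = ⌊γ⌋ + 1)
  have h7 := hun (Γ.filter fun ρ => ⌊(zz ρ).im⌋ = ⌊γ⌋ - 1) (Γ.filter fun ρ => ⌊(zz ρ).im⌋ = ⌊γ⌋)
  nlinarith

end Pool.Agent.Helper76.EX
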